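import Pool.Agent.W869.FU.Ops

/-!
# Amalgamation, pressing down
-/

set_option autoImplicit false
set_option linter.unusedSectionVars false
set_option linter.unusedVariables false
set_option linter.style.haveILetI false

namespace Pool.Agent.W869.FU

open Set Filter
open Cardinal hiding univ

variable {I M : Type} [LinearOrder I] [WellFoundedLT I] [LinearOrder M] [WellFoundedLT M]
variable {U : Ultrafilter I}

/-- The largest points of `g` (at most one). -/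
def tops (g : Cond M U) : Set M := {e | e ∈ g.x ∧ ∀ a ∈ g.x, a ≤ e}

theorem tops_branch (g : Cond M U) (j : I) :
    (dcl g.T j (tops g) ⊆ g.x) ∧
      (∀ a c, g.T j a c → c ∈ dcl g.T j (tops g) → a ∈ dcl g.T j (tops g)) ∧
      (∀ a c, a ∈ dcl g.T j (tops g) → c ∈ dcl g.T j (tops g) → a < c → g.T j a c) := by
  refine ⟨dcl_sub g.pre fun e he => he.1, fun a c => dcl_down g.pre,
    fun a c => dcl_chain g.pre ?_⟩
  rintro a ⟨ha, ha'⟩ c ⟨hc, -⟩ hac
  exact (not_lt.2 (ha' c hc) hac).elim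

theorem tops_large (g : Cond M U) {a : M} (ha : a ∈ g.x) :
    ∀ᶠ j in (U : Filter I), a ∈ dcl g.T j (tops g) := by
  obtain ⟨m, hm, hl⟩ := g.closed g.x subset_rfl ⟨a, ha⟩
  have hmt : m ∈ tops g := ⟨hm, fun b hb => hl.1 hb⟩
  rcases (hl.1 ha).eq_or_lt with rfl | h
  · exact Filter.Eventually.of_forall fun j => ⟨a, hmt, Or.inl rfl⟩
  · filter_upwards [g.pre.large a ha m hm h] with j hj
    exact ⟨m, hmt, Or.inr hj⟩

theorem tops_agree {ν : M} (hν : Cof I ν) {p g : Cond M U} (hp : ν ∈ p.x) (h : LR ν g p) :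
    ∀ᶠ j in (U : Filter I), ∀ a ∈ p.x, a < ν → (a ∈ dcl g.T j (tops g) ↔ p.T j a ν) := by
  by_cases hne : (p.x ∩ Iio ν).Nonempty
  · obtain ⟨m, hm, hl⟩ := p.closed (p.x ∩ Iio ν) inter_subset_left hne
    obtain ⟨γ, h1, h2⟩ := hν.2 (p.x ∩ Iio ν) (p.small.mono inter_subset_left)
      (fun a ha => ha.2)
    have hmν : m < ν := (hl.2 h2).trans_lt h1
    filter_upwards [p.pre.large m hm ν hp hmν, tops_large g (h.1 m hm hmν)] with j hj hj' a ha haν
    have ham : a ≤ m := hl.1 ⟨ha, haν⟩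
    rcases ham.eq_or_lt with rfl | ham
    · exact ⟨fun _ => hj, fun _ => hj'⟩
    · constructor
      · intro h3
        have h4 := (tops_branch g j).2.2 a m h3 hj' ham
        exact p.pre.trans _ _ _ _ ((h.2 j a ha m hm haν hmν).1 h4) hj
      · intro h3
        have h4 := p.pre.tree _ _ _ _ h3 hj ham
        exact (tops_branch g j).2.1 a m ((h.2 j a ha m hm haν hmν).2 h4) hj'
  · exact Filter.Eventually.of_forall fun j a ha haν => (hne ⟨a, ha, haν⟩).elim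

open Classical in
theorem amalg_max [Infinite I] {ν : M} (hν : Cof I ν) (p g : Cond M U) (hp : ν ∈ p.x)
    (hg : Below ν g) (h : LR ν g p) :
    ∃ r ≤ p, SB ν r g ∧ ∀ᶠ j in (U : Filter I), ∀ a, (r.T j a ν ↔ a ∈ dcl g.T j (tops g)) := by
  have hb1 := fun j => min_branch h j
  obtain ⟨r, h1, h2, h3, -⟩ := p.attach g hp hg h
    (fun j => if (∀ a ∈ p.x, a < ν → (a ∈ dcl g.T j (tops g) ↔ p.T j a ν)) then
      dcl g.T j (tops g) else dcl g.T j {e | e < ν ∧ p.T j e ν})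
    (by
      refine ⟨?_, ?_, ?_, ?_⟩
      · intro j
        by_cases hj : ∀ a ∈ p.x, a < ν → (a ∈ dcl g.T j (tops g) ↔ p.T j a ν)
        · rw [if_pos hj]; exact (tops_branch g j).1
        · rw [if_neg hj]; exact (hb1 j).1
      · intro j a c hac hc
        by_cases hj : ∀ a ∈ p.x, a < ν → (a ∈ dcl g.T j (tops g) ↔ p.T j a ν)
        · rw [if_pos hj] at hc ⊢; exact (tops_branch g j).2.1 a c hac hc
        · rw [if_neg hj] at hc ⊢; exact (hb1 j).2.1 a c hac hc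
      · intro j a c ha hc hac
        by_cases hj : ∀ a ∈ p.x, a < ν → (a ∈ dcl g.T j (tops g) ↔ p.T j a ν)
        · rw [if_pos hj] at ha hc; exact (tops_branch g j).2.2 a c ha hc hac
        · rw [if_neg hj] at ha hc; exact (hb1 j).2.2.1 a c ha hc hac
      · intro a ha
        filter_upwards [tops_agree hν hp h, tops_large g ha] with j hj hj'
        rw [if_pos hj]; exact hj')
    (by
      intro j a ha haν
      by_cases hj : ∀ a ∈ p.x, a < ν → (a ∈ dcl g.T j (tops g) ↔ p.T j a ν)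
      · rw [if_pos hj]; exact hj a ha haν
      · rw [if_neg hj]; exact (hb1 j).2.2.2 a ha haν)
  refine ⟨r, h1, h2, ?_⟩
  filter_upwards [tops_agree hν hp h] with j hj a
  rw [h3 j a, if_pos hj]

theorem le_of_SB {ν : M} {r g : Cond M U} (h : SB ν r g) (hg : Below ν g) : r ≤ g :=
  (LR.of_SB h).le hg

/-- Amalgamation. -/
theorem amalg [Infinite I] {ν : M} (hν : Cof I ν) (p g : Cond M U) (hp : ν ∈ p.x)
    (hg : Below ν g) (h : LR ν g p) : ∃ r ≤ p, SB ν r g ∧ r ≤ g := by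
  obtain ⟨r, h1, h2, -⟩ := amalg_max hν p g hp hg h
  exact ⟨r, h1, h2, le_of_SB h2 hg⟩

/-- Two conditions whose parts below `ν` are compatible have extensions which are similar
modulo a null set. -/
theorem agree [Infinite I] {ν : M} (hν : Cof I ν) (p q g : Cond M U) (hp : ν ∈ p.x)
    (hq : ν ∈ q.x) (hg : Below ν g) (h : LR ν g p) (h' : LR ν g q) :
    ∃ r ≤ p, ∃ s ≤ q, ∃ N : Set I, Nᶜ ∈ U ∧ Sim ν N r s := by
  obtain ⟨r, h1, h2, h3⟩ := amalg_max hν p g hp hg h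
  obtain ⟨s, h1', h2', h3'⟩ := amalg_max hν q g hq hg h'
  refine ⟨r, h1, s, h1', {j | ¬ ∀ a, (r.T j a ν ↔ s.T j a ν)}, ?_, h2.trans h2'.symm, ?_⟩
  · filter_upwards [h3, h3'] with j hj hj'
    intro hc
    exact hc fun a => (hj a).trans (hj' a).symm
  · intro j hj
    by_contra hc
    exact hj hc

open Classical in
/-- Amalgamation where at one index no unnecessary relations are added. -/
theorem amalg_min [Infinite I] {ν : M} (hν : Cof I ν) (p g : Cond M U) (hp : ν ∈ p.x)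
    (hg : Below ν g) (h : LR ν g p) (j₀ : I) (hj₀ : ∀ᶠ j in (U : Filter I), j ≠ j₀) :
    ∃ r ≤ p, SB ν r g ∧ r ≤ g ∧ ∀ a c, a < ν → ν ≤ c → r.T j₀ a c →
      ∃ e ∈ p.x, e < ν ∧ (a = e ∨ g.T j₀ a e) := by
  have hb1 := fun j => min_branch h j
  obtain ⟨r₀, h1, h2, h3⟩ := amalg_max hν p g hp hg h
  have hb2 := fun j => restr_branch (p := r₀) (q := r₀) (ν := ν)
    ⟨fun _ _ => Iff.rfl, fun _ _ _ _ => Iff.rfl⟩ h2.symm j
  have hνr : ν ∈ r₀.x := h1.1 hp
  obtain ⟨r, k1, k2, k3, k4⟩ := p.attach g hp hg h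
    (fun j => if j = j₀ then dcl g.T j {e | e < ν ∧ p.T j e ν} else {a | r₀.T j a ν})
    (by
      refine ⟨?_, ?_, ?_, ?_⟩
      · intro j
        by_cases hj : j = j₀
        · rw [if_pos hj]; exact (hb1 j).1
        · rw [if_neg hj]; exact (hb2 j).1
      · intro j a c hac hc
        by_cases hj : j = j₀
        · rw [if_pos hj] at hc ⊢; exact (hb1 j).2.1 a c hac hc
        · rw [if_neg hj] at hc ⊢; exact (hb2 j).2.1 a c hac hc
      · intro j a c ha hc hac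
        by_cases hj : j = j₀
        · rw [if_pos hj] at ha hc; exact (hb1 j).2.2.1 a c ha hc hac
        · rw [if_neg hj] at ha hc; exact (hb2 j).2.2 a c ha hc hac
      · intro a ha
        filter_upwards [hj₀, r₀.pre.large a ((h2.1 a (hg a ha)).2 ha) ν hνr (hg a ha)] with j hj hj'
        rw [if_neg hj]; exact hj')
    (by
      intro j a ha haν
      by_cases hj : j = j₀
      · rw [if_pos hj]; exact (hb1 j).2.2.2 a ha haν
      · rw [if_neg hj]; exact h1.2 j a ha ν hp)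
  refine ⟨r, k1, k2, le_of_SB k2 hg, ?_⟩
  intro a c haν hc hac
  rcases k4 j₀ a c haν hc hac with h4 | ⟨e, he, he', h4⟩
  · rw [if_pos rfl] at h4
    obtain ⟨e, ⟨he, he'⟩, h5⟩ := h4
    exact ⟨e, (p.pre.dom _ _ _ he').1, he, h5⟩
  · exact ⟨e, (p.pre.dom _ _ _ he').1, he, h4⟩

/-! ### Pressing down -/

section Press

variable {W : Ultrafilter M} {m₀ : M}

theorem press [Infinite I] (hW : NormMeas W) (hI : #I ≤ #(Iio m₀)) (g : M → Cond M U)
    (hg : ∀ᶠ ν in (W : Filter M), Below ν (g ν)) :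
    ∃ p, ∀ᶠ ν in (W : Filter M), g ν = p := by
  have hF : ∀ ν, ∃ γ, (Cof I ν ∧ Below ν (g ν)) → γ < ν ∧ ∀ a ∈ (g ν).x, a ≤ γ := by
    intro ν
    by_cases h : Cof I ν ∧ Below ν (g ν)
    · obtain ⟨γ, h1, h2⟩ := h.1.2 (g ν).x (g ν).small h.2
      exact ⟨γ, fun _ => ⟨h1, h2⟩⟩
    · exact ⟨ν, fun h' => (h h').elim⟩
  choose F hF using hF
  obtain ⟨γ, hγ⟩ := hW.norm F (by
    filter_upwards [hg, cof_ae' hW hI] with ν h1 h2
    exact (hF ν ⟨h2, h1⟩).1)
  obtain ⟨m, hm⟩ : ∃ m, γ < m ∧ m₀ ≤ m := by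
    obtain ⟨m, hm⟩ := (Filter.Eventually.and (hW.uni γ) (hW.uni m₀)).exists
    exact ⟨m, hm.1, (le_of_lt hm.2)⟩
  have hm1 : #(Iic γ) ≤ #(Iio m) := Cardinal.mk_le_mk_of_subset fun a ha => lt_of_le_of_lt ha hm.1
  have hm2 : #I ≤ #(Iio m) := hI.trans (Cardinal.mk_le_mk_of_subset fun a ha =>
    lt_of_lt_of_le ha hm.2)
  have hm3 : ℵ₀ ≤ #(Iio m) := (Cardinal.aleph0_le_mk I).trans hm2
  have hJ : #(↥(Iic γ) ⊕ (I × ↥(Iic γ) × ↥(Iic γ))) ≤ #(Iio m) := by
    rw [Cardinal.mk_sum, Cardinal.lift_id, Cardinal.lift_id, Cardinal.mk_prod, Cardinal.mk_prod]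
    simp only [Cardinal.lift_id]
    calc #(Iic γ) + #I * (#(Iic γ) * #(Iic γ)) ≤ #(Iio m) + #(Iio m) * (#(Iio m) * #(Iio m)) :=
          add_le_add hm1 (mul_le_mul' hm2 (mul_le_mul' hm1 hm1))
      _ = #(Iio m) := by
          rw [Cardinal.mul_eq_self hm3, Cardinal.mul_eq_self hm3, Cardinal.add_eq_self hm3]
  obtain ⟨S, hS⟩ := hW.const_set hJ (fun ν =>
    {o | Sum.elim (fun a : Iic γ => (a : M) ∈ (g ν).x)
      (fun t : I × ↥(Iic γ) × ↥(Iic γ) => (g ν).T t.1 t.2.1 t.2.2) o})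
  have hall : ∀ᶠ ν in (W : Filter M), (∀ a ∈ (g ν).x, a ≤ γ) ∧
      {o | Sum.elim (fun a : Iic γ => (a : M) ∈ (g ν).x)
        (fun t : I × ↥(Iic γ) × ↥(Iic γ) => (g ν).T t.1 t.2.1 t.2.2) o} = S := by
    filter_upwards [hg, cof_ae' hW hI, hγ, hS] with ν h1 h2 h3 h4
    refine ⟨?_, h4⟩
    have := (hF ν ⟨h2, h1⟩).2
    rw [h3] at this
    exact this
  obtain ⟨ν₀, h1, h2⟩ := hall.exists
  refine ⟨g ν₀, hall.mono ?_⟩
  rintro ν ⟨h3, h4⟩
  have h5 := h4.trans h2.symm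
  have hx : ∀ a ≤ γ, (a ∈ (g ν).x ↔ a ∈ (g ν₀).x) := by
    intro a ha
    have := Set.ext_iff.1 h5 (Sum.inl ⟨a, ha⟩)
    exact this
  have hT : ∀ j a b, a ≤ γ → b ≤ γ → ((g ν).T j a b ↔ (g ν₀).T j a b) := by
    intro j a b ha hb
    have := Set.ext_iff.1 h5 (Sum.inr (j, ⟨a, ha⟩, ⟨b, hb⟩))
    exact this
  refine Cond.ext' ?_ ?_
  · ext a
    constructor
    · intro ha
      exact (hx a (h3 a ha)).1 ha
    · intro ha
      exact (hx a (h1 a ha)).2 ha
  · intro j a b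
    constructor
    · intro h
      obtain ⟨ha, hb, -⟩ := (g ν).pre.dom _ _ _ h
      exact (hT j a b (h3 a ha) (h3 b hb)).1 h
    · intro h
      obtain ⟨ha, hb, -⟩ := (g ν₀).pre.dom _ _ _ h
      exact (hT j a b (h1 a ha) (h1 b hb)).2 h

theorem bddHyp (hW : NormMeas W) (hI : #I ≤ #(Iio m₀)) : BddHyp I M :=
  fun s hs => hs.bdd hW hI

theorem below_ae (hW : NormMeas W) (hI : #I ≤ #(Iio m₀)) (g : Cond M U) :
    ∀ᶠ ν in (W : Filter M), Below ν g := by
  obtain ⟨t, ht⟩ := g.small.bdd hW hI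
  filter_upwards [hW.uni t] with ν hν a ha
  exact (ht a ha).trans hν

end Press

end Pool.Agent.W869.FU
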