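import Pool.Agent.W869.FU.Collapse

/-!
# The ZFC implication
-/

set_option autoImplicit false
set_option linter.unusedSectionVars false
set_option linter.unusedVariables false
set_option linter.style.haveILetI false

namespace Pool.Agent.W869.FU

open Set Filter
open Cardinal hiding univ

/-! ### From the elementary form to ultrafilters -/

section Elem

variable {K Y : Type} [LinearOrder K] {E : Y → K → Prop}

/-- The filter given by the sets `E y`. -/
def toFilter (h : IsNorm E) : Filter K where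
  sets := {x | ∃ y, ∀ ξ, E y ξ ↔ ξ ∈ x}
  univ_sets := by
    by_contra hc
    obtain ⟨y, hy⟩ := h.2.2.1 (fun ξ => ξ ∈ (Set.univ : Set K)) hc
    obtain ⟨ξ, hξ⟩ := h.2.2.2.1 y
    exact (hy ξ).1 hξ (mem_univ ξ)
  sets_of_superset := by
    rintro x x' ⟨y, hy⟩ hx
    exact h.1 y (fun ξ => ξ ∈ x') (fun ξ hξ => hx ((hy ξ).1 hξ))
  inter_sets := by
    rintro x x' ⟨y, hy⟩ ⟨y', hy'⟩
    obtain ⟨z, hz⟩ := h.2.1 y y'
    exact ⟨z, fun ξ => by rw [hz ξ, hy ξ, hy' ξ]; exact Iff.rfl⟩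

/-- The ultrafilter given by the sets `E y`. -/
def toUltra (h : IsNorm E) : Ultrafilter K := Ultrafilter.ofComplNotMemIff (toFilter h) (by
  intro s
  constructor
  · intro hs
    by_contra hs'
    obtain ⟨y, hy⟩ := h.2.2.1 (fun ξ => ξ ∈ s) hs'
    exact hs ⟨y, fun ξ => hy ξ⟩
  · rintro hs hs'
    have h1 : s ∩ sᶜ ∈ toFilter h := Filter.inter_mem hs hs'
    obtain ⟨y, hy⟩ := h1
    obtain ⟨ξ, hξ⟩ := h.2.2.2.1 y
    have := (hy ξ).1 hξ
    exact this.2 this.1)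

theorem mem_toUltra (h : IsNorm E) {s : Set K} : s ∈ toUltra h ↔ ∃ y, ∀ ξ, E y ξ ↔ ξ ∈ s :=
  Iff.rfl

theorem mem_toUltra' (h : IsNorm E) {s : Set K} : s ∈ toUltra h ↔ ∃ y, ∀ ξ, E y ξ → ξ ∈ s := by
  rw [mem_toUltra]
  constructor
  · rintro ⟨y, hy⟩
    exact ⟨y, fun ξ => (hy ξ).1⟩
  · rintro ⟨y, hy⟩
    exact h.1 y _ hy

theorem toUltra_norm (h : IsNorm E) : NormMeas (toUltra h) := by
  refine ⟨fun i => ?_, fun f hf => ?_⟩
  · obtain ⟨y, hy⟩ := h.2.2.2.2.1 i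
    exact (mem_toUltra h).2 ⟨y, fun ξ => hy ξ⟩
  · obtain ⟨y, hy⟩ := (mem_toUltra' h).1 hf
    obtain ⟨η, y', hy'⟩ := h.2.2.2.2.2 f y hy
    exact ⟨η, (mem_toUltra' h).2 ⟨y', hy'⟩⟩

end Elem

/-! ### The proof -/

section Proof

variable {δ μ : Cardinal.{0}}

/-- The ordinal of an element of `μ`. -/
noncomputable def ev (m : μ.ord.ToType) : Ordinal.{0} := (Ordinal.ToType.mk.symm m).1

/-- The element of `μ` given by an ordinal. -/
noncomputable def el {o : Ordinal.{0}} (h : o < μ.ord) : μ.ord.ToType :=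
  Ordinal.ToType.mk ⟨o, h⟩

theorem ev_el {o : Ordinal.{0}} (h : o < μ.ord) : ev (el h) = o := by
  unfold ev el
  rw [OrderIso.symm_apply_apply]

theorem ev_lt (m : μ.ord.ToType) : ev m < μ.ord := (Ordinal.ToType.mk.symm m).2

theorem ev_lt_ev {m n : μ.ord.ToType} : ev m < ev n ↔ m < n := by
  unfold ev
  rw [Subtype.coe_lt_coe]
  exact (Ordinal.ToType.mk.symm).lt_iff_lt

theorem ev_inj {m n : μ.ord.ToType} (h : ev m = ev n) : m = n :=
  (Ordinal.ToType.mk.symm).injective (Subtype.ext h)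

variable {U : Ultrafilter δ.ord.ToType} {c : (δ.ord.ToType → Ordinal.{0}) → Ordinal.{0}}

theorem IsCollapse.le_const (hc : IsCollapse U c) (o : Ordinal.{0}) : o ≤ c (fun _ => o) := by
  induction o using WellFoundedLT.induction with
  | ind o ih =>
    by_contra h
    rw [not_le] at h
    have h1 := ih _ h
    have h2 : c (fun _ => c (fun _ => o)) < c (fun _ => o) :=
      (hc.1 _ _).2 (Filter.Eventually.of_forall fun _ => h)
    exact (h1.trans_lt h2).false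

theorem IsCollapse.eq (hc : IsCollapse U c) {g h : δ.ord.ToType → Ordinal.{0}}
    (h' : c g = c h) : ∀ᶠ i in (U : Filter δ.ord.ToType), g i = h i := by
  have h1 : ¬ c g < c h := h'.not_lt
  have h2 : ¬ c h < c g := h'.symm.not_lt
  rw [hc.1] at h1 h2
  filter_upwards [Ultrafilter.eventually_not.2 h1, Ultrafilter.eventually_not.2 h2] with i h3 h4
  exact le_antisymm (not_lt.1 h4) (not_lt.1 h3)

/-- The list of functions bounds the images of constants. -/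
theorem const_lt (hc : IsCollapse U c) {α γ : μ.ord.ToType}
    {G : μ.ord.ToType → δ.ord.ToType → μ.ord.ToType}
    (hG : ∀ g : δ.ord.ToType → μ.ord.ToType, (∀ i, g i < α) → ∃ β, β < γ ∧ ∀ i, G β i = g i) :
    c (fun _ => ev α) < μ.ord := by
  classical
  rw [Cardinal.lt_ord, ← Cardinal.mk_toType]
  refine lt_of_le_of_lt ?_ (Cardinal.mk_Iio_toType_ord_lt γ)
  have hex : ∀ t : (c (fun _ => ev α)).ToType, ∃ β : Iio γ,
      c (fun i => ev (G β i)) = (Ordinal.ToType.mk.symm t).1 := by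
    intro t
    have ht : (Ordinal.ToType.mk.symm t).1 < c (fun _ => ev α) := (Ordinal.ToType.mk.symm t).2
    obtain ⟨g, hg⟩ := hc.2 (Ordinal.ToType.mk.symm t).1
    have h1 : ∀ᶠ i in (U : Filter δ.ord.ToType), g i < ev α := by
      rw [← hc.1, hg]
      exact ht
    obtain ⟨i₀, hi₀⟩ := h1.exists
    have hα₀ : g i₀ < μ.ord := hi₀.trans (ev_lt α)
    obtain ⟨β, hβ, hβ'⟩ := hG (fun i => if h : g i < ev α then el (h.trans (ev_lt α)) else
      el hα₀) (by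
        intro i
        by_cases h : g i < ev α
        · rw [dif_pos h, ← ev_lt_ev, ev_el]
          exact h
        · rw [dif_neg h, ← ev_lt_ev, ev_el]
          exact hi₀)
    refine ⟨⟨β, hβ⟩, ?_⟩
    rw [← hg]
    have h2 : ∀ᶠ i in (U : Filter δ.ord.ToType), ev (G β i) = g i := by
      filter_upwards [h1] with i hi
      rw [hβ' i, dif_pos hi, ev_el]
    have h3 : ¬ c (fun i => ev (G β i)) < c g := by
      rw [hc.1]
      intro h
      obtain ⟨i, hi, hi'⟩ := (h.and h2).exists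
      exact hi.ne hi'
    have h4 : ¬ c g < c (fun i => ev (G β i)) := by
      rw [hc.1]
      intro h
      obtain ⟨i, hi, hi'⟩ := (h.and h2).exists
      exact hi.ne hi'.symm
    exact le_antisymm (not_lt.1 h4) (not_lt.1 h3)
  choose F hF using hex
  refine Cardinal.mk_le_of_injective (f := F) ?_
  intro t t' h
  have h1 := hF t
  rw [h, hF t'] at h1
  exact (Ordinal.ToType.mk.symm).injective (Subtype.ext h1.symm)

/-- The facts about `μ` and an ultrafilter `U` which are used. -/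
structure Facts (μ : Cardinal.{0}) (U : Ultrafilter δ.ord.ToType)
    (c : (δ.ord.ToType → Ordinal.{0}) → Ordinal.{0}) : Prop where
  hc : IsCollapse U c
  lim : ∀ o < μ.ord, Order.succ o < μ.ord
  const : ∀ α : μ.ord.ToType, c (fun _ => ev α) < μ.ord
  bdd : ∀ g : δ.ord.ToType → Ordinal.{0}, (∀ᶠ i in (U : Filter δ.ord.ToType), g i < μ.ord) →
    ∃ γ : μ.ord.ToType, ∀ᶠ i in (U : Filter δ.ord.ToType), g i < ev γ

theorem Facts.exists_gt (h : Facts μ U c) {g : δ.ord.ToType → Ordinal.{0}} (hg : c g < μ.ord) :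
    ∃ α : μ.ord.ToType, (∀ᶠ i in (U : Filter δ.ord.ToType), g i < ev α) ∧
      c g < c (fun _ => ev α) := by
  have h1 := h.lim _ hg
  have h2 : c g < c (fun _ => ev (el h1)) := by
    rw [ev_el]
    exact (Order.lt_succ _).trans_le (h.hc.le_const _)
  exact ⟨el h1, (h.hc.1 _ _).1 h2, h2⟩

theorem inUlt_iff (hc : IsCollapse U c) {A : Set Ordinal.{0}} :
    InUlt U A ↔ ∃ f : δ.ord.ToType → Set Ordinal.{0},
      ∀ g, c g ∈ A ↔ ∀ᶠ i in (U : Filter δ.ord.ToType), g i ∈ f i := by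
  constructor
  · rintro ⟨c', hc', f, hf⟩
    rw [collapse_unique hc' hc] at hf
    exact ⟨f, hf⟩
  · rintro ⟨f, hf⟩
    exact ⟨c, hc, f, hf⟩

/-- If all coherent sequences have threads then there are no fresh subsets. -/
theorem no_fresh (h : Facts μ U c)
    (hthr : ∀ a : μ.ord.ToType → δ.ord.ToType → μ.ord.ToType → Prop,
      (∀ α β, α < β → ∀ᶠ i in (U : Filter δ.ord.ToType), ∀ ξ < α, (a β i ξ ↔ a α i ξ)) →
      ∃ F : δ.ord.ToType → μ.ord.ToType → Prop,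
        ∀ α, ∀ᶠ i in (U : Filter δ.ord.ToType), ∀ ξ < α, (F i ξ ↔ a α i ξ))
    (A : Set Ordinal.{0}) : ¬ Fresh U μ.ord A := by
  rintro ⟨hA, hnot, hin⟩
  have hf : ∀ α : μ.ord.ToType, ∃ f : δ.ord.ToType → Set Ordinal.{0},
      ∀ g, c g ∈ A ∩ Iio (c fun _ => ev α) ↔ ∀ᶠ i in (U : Filter δ.ord.ToType), g i ∈ f i :=
    fun α => (inUlt_iff h.hc).1 (hin _ (h.const α))
  choose f hf using hf
  obtain ⟨F, hF⟩ := hthr (fun α i ξ => ev ξ ∈ f α i) (by
    intro α β hαβ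
    by_contra hcon
    have h1 := Ultrafilter.eventually_not.2 hcon
    have hex : ∀ i, ∃ ξ : μ.ord.ToType, (¬ ∀ ξ < α, (ev ξ ∈ f β i ↔ ev ξ ∈ f α i)) →
        ξ < α ∧ ¬ (ev ξ ∈ f β i ↔ ev ξ ∈ f α i) := by
      intro i
      by_cases hi : ∀ ξ < α, (ev ξ ∈ f β i ↔ ev ξ ∈ f α i)
      · exact ⟨α, fun h => (h hi).elim⟩
      · have hi' := hi
        push Not at hi'
        obtain ⟨ξ, hξ, hξ'⟩ := hi'
        refine ⟨ξ, fun _ => ⟨hξ, ?_⟩⟩
        tauto
    choose ξ hξ using hex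
    have h2 : c (fun i => ev (ξ i)) < c (fun _ => ev α) := (h.hc.1 _ _).2 (by
      filter_upwards [h1] with i hi
      exact ev_lt_ev.2 (hξ i hi).1)
    have h3 : c (fun _ => ev α) < c (fun _ => ev β) := (h.hc.1 _ _).2
      (Filter.Eventually.of_forall fun _ => ev_lt_ev.2 hαβ)
    have e1 := hf α (fun i => ev (ξ i))
    have e2 := hf β (fun i => ev (ξ i))
    have e3 : c (fun i => ev (ξ i)) ∈ A ∩ Iio (c fun _ => ev α) ↔
        c (fun i => ev (ξ i)) ∈ A ∩ Iio (c fun _ => ev β) :=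
      ⟨fun h' => ⟨h'.1, h2.trans h3⟩, fun h' => ⟨h'.1, h2⟩⟩
    rw [e1, e2] at e3
    by_cases h4 : ∀ᶠ i in (U : Filter δ.ord.ToType), ev (ξ i) ∈ f α i
    · obtain ⟨i, hi, hi', hi''⟩ := (h4.and ((e3.1 h4).and h1)).exists
      exact (hξ i hi'').2 ⟨fun _ => hi, fun _ => hi'⟩
    · have h5 : ¬ ∀ᶠ i in (U : Filter δ.ord.ToType), ev (ξ i) ∈ f β i := fun h' => h4 (e3.2 h')
      obtain ⟨i, hi, hi', hi''⟩ := ((Ultrafilter.eventually_not.2 h4).and
        ((Ultrafilter.eventually_not.2 h5).and h1)).exists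
      exact (hξ i hi'').2 ⟨fun h' => (hi' h').elim, fun h' => (hi h').elim⟩)
  refine hnot ((inUlt_iff h.hc).2 ⟨fun i => {o | ∃ ξ : μ.ord.ToType, o = ev ξ ∧ F i ξ}, ?_⟩)
  intro g
  constructor
  · intro hg
    obtain ⟨α, h1, h2⟩ := h.exists_gt (g := g) (hA hg)
    have h3 := (hf α g).1 ⟨hg, h2⟩
    filter_upwards [h1, h3, hF α] with i k1 k2 k3
    have k4 : g i < μ.ord := k1.trans (ev_lt α)
    have k5 : el k4 < α := by rw [← ev_lt_ev, ev_el]; exact k1
    refine ⟨el k4, (ev_el k4).symm, (k3 _ k5).2 ?_⟩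
    rw [ev_el]
    exact k2
  · intro hg
    obtain ⟨γ, hγ⟩ := h.bdd g (hg.mono fun i ⟨ξ, hξ, _⟩ => hξ ▸ ev_lt ξ)
    have h1 : ∀ᶠ i in (U : Filter δ.ord.ToType), g i ∈ f γ i := by
      filter_upwards [hg, hγ, hF γ] with i hi hi' hi''
      obtain ⟨ξ, hξ, hξ'⟩ := hi
      rw [hξ] at hi' ⊢
      exact (hi'' ξ (ev_lt_ev.1 hi')).1 hξ'
    exact ((hf γ g).2 h1).1

/-- A coherent sequence without a thread gives a fresh subset. -/
theorem exists_fresh (h : Facts μ U c)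
    (a : μ.ord.ToType → δ.ord.ToType → μ.ord.ToType → Prop)
    (ha : ∀ α β, α < β → ∀ᶠ i in (U : Filter δ.ord.ToType), ∀ ξ < α, (a β i ξ ↔ a α i ξ))
    (hno : ¬ ∃ F : δ.ord.ToType → μ.ord.ToType → Prop,
        ∀ α, ∀ᶠ i in (U : Filter δ.ord.ToType), ∀ ξ < α, (F i ξ ↔ a α i ξ)) :
    ∃ A, UnboundedIn μ.ord A ∧ Fresh U μ.ord A := by
  let f : μ.ord.ToType → δ.ord.ToType → Set Ordinal.{0} := fun α i =>
    {o | ∃ ξ : μ.ord.ToType, ξ < α ∧ o = ev ξ ∧ a α i ξ}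
  let A : Set Ordinal.{0} := {o | ∃ (g : δ.ord.ToType → Ordinal.{0}) (α : μ.ord.ToType),
    c g = o ∧ ∀ᶠ i in (U : Filter δ.ord.ToType), g i ∈ f α i}
  have hlt : ∀ (g : δ.ord.ToType → Ordinal.{0}) (α : μ.ord.ToType),
      (∀ᶠ i in (U : Filter δ.ord.ToType), g i ∈ f α i) → c g < c (fun _ => ev α) := by
    intro g α hg
    refine (h.hc.1 _ _).2 (hg.mono ?_)
    rintro i ⟨ξ, hξ, hξ', -⟩
    rw [hξ']
    exact ev_lt_ev.2 hξ
  have hkey : ∀ (α : μ.ord.ToType) (g : δ.ord.ToType → Ordinal.{0}),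
      c g ∈ A ∩ Iio (c fun _ => ev α) ↔ ∀ᶠ i in (U : Filter δ.ord.ToType), g i ∈ f α i := by
    intro α g
    constructor
    · rintro ⟨⟨g', β, hg', hβ⟩, h2⟩
      have h3 := h.hc.eq hg'
      have h4 := (h.hc.1 _ _).1 (show c g < c fun _ => ev α from h2)
      rcases lt_trichotomy α β with h5 | h5 | h5
      · filter_upwards [h3, h4, hβ, ha α β h5] with i k1 k2 k3 k4
        obtain ⟨ξ, hξ, hξ', hξ''⟩ := k3
        rw [← k1, hξ'] at k2
        have k5 := ev_lt_ev.1 k2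
        exact ⟨ξ, k5, by rw [← k1, hξ'], (k4 ξ k5).1 hξ''⟩
      · subst h5
        filter_upwards [h3, hβ] with i k1 k3
        rw [← k1]
        exact k3
      · filter_upwards [h3, h4, hβ, ha β α h5] with i k1 k2 k3 k4
        obtain ⟨ξ, hξ, hξ', hξ''⟩ := k3
        exact ⟨ξ, hξ.trans h5, by rw [← k1, hξ'], (k4 ξ hξ).2 hξ''⟩
    · intro h2
      exact ⟨⟨g, α, rfl, h2⟩, hlt g α h2⟩
  have hAsub : A ⊆ Iio μ.ord := by
    rintro _ ⟨g, α, rfl, h2⟩
    exact (hlt g α h2).trans (h.const α)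
  have hnotA : ¬ InUlt U A := by
    intro hin
    obtain ⟨f', hf'⟩ := (inUlt_iff h.hc).1 hin
    refine hno ⟨fun i ξ => ev ξ ∈ f' i, fun α => ?_⟩
    by_contra hcon
    have h1 := Ultrafilter.eventually_not.2 hcon
    have hex : ∀ i, ∃ ξ : μ.ord.ToType, (¬ ∀ ξ < α, (ev ξ ∈ f' i ↔ a α i ξ)) →
        ξ < α ∧ ¬ (ev ξ ∈ f' i ↔ a α i ξ) := by
      intro i
      by_cases hi : ∀ ξ < α, (ev ξ ∈ f' i ↔ a α i ξ)
      · exact ⟨α, fun h => (h hi).elim⟩
      · have hi' := hi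
        push Not at hi'
        obtain ⟨ξ, hξ, hξ'⟩ := hi'
        refine ⟨ξ, fun _ => ⟨hξ, ?_⟩⟩
        tauto
    choose ξ hξ using hex
    have h2 : c (fun i => ev (ξ i)) < c (fun _ => ev α) := (h.hc.1 _ _).2 (by
      filter_upwards [h1] with i hi
      exact ev_lt_ev.2 (hξ i hi).1)
    have e1 := hkey α (fun i => ev (ξ i))
    have e2 := hf' (fun i => ev (ξ i))
    have e3 : (∀ᶠ i in (U : Filter δ.ord.ToType), ev (ξ i) ∈ f' i) ↔
        ∀ᶠ i in (U : Filter δ.ord.ToType), ev (ξ i) ∈ f α i := by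
      rw [← e1, ← e2]
      exact ⟨fun h' => ⟨h', h2⟩, fun h' => h'.1⟩
    have hmem : ∀ i, ξ i < α → (ev (ξ i) ∈ f α i ↔ a α i (ξ i)) := by
      intro i hi
      constructor
      · rintro ⟨η, -, hη, hη'⟩
        rw [ev_inj hη]
        exact hη'
      · intro h'
        exact ⟨ξ i, hi, rfl, h'⟩
    by_cases h4 : ∀ᶠ i in (U : Filter δ.ord.ToType), ev (ξ i) ∈ f' i
    · obtain ⟨i, hi, hi', hi''⟩ := (h4.and ((e3.1 h4).and h1)).exists
      have k := hξ i hi''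
      exact k.2 ⟨fun _ => (hmem i k.1).1 hi', fun _ => hi⟩
    · have h5 : ¬ ∀ᶠ i in (U : Filter δ.ord.ToType), ev (ξ i) ∈ f α i := fun h' => h4 (e3.2 h')
      obtain ⟨i, hi, hi', hi''⟩ := ((Ultrafilter.eventually_not.2 h4).and
        ((Ultrafilter.eventually_not.2 h5).and h1)).exists
      have k := hξ i hi''
      exact k.2 ⟨fun h' => (hi h').elim, fun h' => (hi' ((hmem i k.1).2 h')).elim⟩
  have hinA : ∀ o < μ.ord, InUlt U (A ∩ Iio o) := by
    intro o ho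
    obtain ⟨g₀, hg₀⟩ := h.hc.2 o
    have h1 : o ≤ c (fun _ => ev (el ho)) := by
      rw [ev_el]
      exact h.hc.le_const o
    refine (inUlt_iff h.hc).2 ⟨fun i => f (el ho) i ∩ Iio (g₀ i), fun g => ?_⟩
    constructor
    · rintro ⟨h2, h3⟩
      have h4 := (hkey (el ho) g).1 ⟨h2, h3.trans_le h1⟩
      have h5 : ∀ᶠ i in (U : Filter δ.ord.ToType), g i < g₀ i := by
        rw [← h.hc.1, hg₀]
        exact h3
      filter_upwards [h4, h5] with i k1 k2
      exact ⟨k1, k2⟩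
    · intro h2
      refine ⟨((hkey (el ho) g).2 (h2.mono fun i hi => hi.1)).1, ?_⟩
      show c g < o
      rw [← hg₀, h.hc.1]
      exact h2.mono fun i hi => hi.2
  refine ⟨A, ⟨hAsub, ?_⟩, hAsub, hnotA, hinA⟩
  intro α hα
  by_contra hcon
  push Not at hcon
  apply hnotA
  have : A ∩ Iio α = A := by
    ext o
    exact ⟨fun h => h.1, fun h => ⟨h, hcon o h⟩⟩
  rw [← this]
  exact hinA α hα

end Proof

/-- The ZFC theorem. -/
theorem answer {δ μ : Cardinal.{0}} (h : Hypothesis δ.ord.ToType μ.ord.ToType) :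
    ∃ U₀ U₁ : Ultrafilter δ.ord.ToType, IsNormalMeasure δ U₀ ∧ IsNormalMeasure δ U₁ ∧
      ∃ lam : Ordinal.{0}, Order.IsSuccLimit lam ∧
        (¬ ∃ A, UnboundedIn lam A ∧ Fresh U₀ lam A) ∧
        ∃ A, UnboundedIn lam A ∧ Fresh U₁ lam A := by
  classical
  obtain ⟨Y₀, E₀, Y₁, E₁, hE₀, hE₁, hbdd, hcard, hlist, ⟨a, ha, hno⟩, hthr⟩ := h
  have hU₀ := toUltra_norm hE₀
  have hU₁ := toUltra_norm hE₁
  -- `μ` is infinite
  haveI := hU₀.infinite
  obtain ⟨i₀⟩ : Nonempty δ.ord.ToType := inferInstance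
  haveI : Nonempty μ.ord.ToType := by
    by_contra hcon
    rw [not_nonempty_iff] at hcon
    exact hno ⟨fun _ _ => True, fun α => isEmptyElim α⟩
  haveI : NoMaxOrder μ.ord.ToType := ⟨fun m => by
    obtain ⟨γ, hγ⟩ := hbdd fun _ => m
    exact ⟨γ, hγ i₀⟩⟩
  haveI : Infinite μ.ord.ToType := NoMaxOrder.infinite
  have hμ : ℵ₀ ≤ μ := by
    have := Cardinal.aleph0_le_mk μ.ord.ToType
    rwa [Cardinal.mk_ord_toType] at this
  have hlim := Cardinal.isSuccLimit_ord hμ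
  have facts : ∀ {U : Ultrafilter δ.ord.ToType} (hU : NormMeas U), Facts μ U (col hU) := by
    intro U hU
    refine ⟨col_isCollapse hU, fun o ho => hlim.succ_lt ho, ?_, ?_⟩
    · intro α
      obtain ⟨γ, G, hG⟩ := hlist α
      exact const_lt (col_isCollapse hU) hG
    · intro g hg
      obtain ⟨i₁, hi₁⟩ := hg.exists
      obtain ⟨γ, hγ⟩ := hbdd fun i => if h : g i < μ.ord then el h else el hi₁
      refine ⟨γ, hg.mono fun i hi => ?_⟩
      have h1 := hγ i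
      rw [dif_pos hi, ← ev_lt_ev, ev_el] at h1
      exact h1
  refine ⟨toUltra hE₀, toUltra hE₁, isNormalMeasure_of hU₀, isNormalMeasure_of hU₁, μ.ord,
    hlim, ?_, ?_⟩
  · rintro ⟨A, -, hA⟩
    refine no_fresh (facts hU₀) ?_ A hA
    intro b hb
    obtain ⟨F, hF⟩ := hthr b (fun α β hαβ => (mem_toUltra' hE₀).1 (hb α β hαβ))
    exact ⟨F, fun α => (mem_toUltra' hE₀).2 (hF α)⟩
  · refine exists_fresh (facts hU₁) a ?_ ?_
    · intro α β hαβ
      exact (mem_toUltra' hE₁).2 (ha α β hαβ)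
    · rintro ⟨F, hF⟩
      exact hno ⟨F, fun α => (mem_toUltra' hE₁).1 (hF α)⟩

end Pool.Agent.W869.FU
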