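import Mathlib

/-!
# Normal ultrafilters on well-ordered sets
-/

set_option autoImplicit false
set_option linter.unusedSectionVars false
set_option linter.style.haveILetI false

namespace Pool.Agent.W869.FU

open Set Filter
open Cardinal hiding univ

section Normal

variable {I : Type} [LinearOrder I]

/-- `U` is a normal ultrafilter on the well-ordered set `I`: it contains all final segments, and
every function which is regressive on a set in `U` is constant on a set in `U`. -/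
structure NormMeas (U : Ultrafilter I) : Prop where
  uni : ∀ i, Set.Ioi i ∈ U
  norm : ∀ f : I → I, (∀ᶠ i in (U : Filter I), f i < i) → ∃ k, ∀ᶠ i in (U : Filter I), f i = k

variable {U : Ultrafilter I}

theorem NormMeas.diag (h : NormMeas U) (A : I → Set I) (hA : ∀ k, A k ∈ U) :
    ∀ᶠ i in (U : Filter I), ∀ k < i, i ∈ A k := by
  by_contra hc
  have hc' : ∀ᶠ i in (U : Filter I), ¬ ∀ k < i, i ∈ A k := Ultrafilter.eventually_not.2 hc
  have hf : ∀ i, ∃ k, (¬ ∀ k < i, i ∈ A k) → k < i ∧ i ∉ A k := by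
    intro i
    by_cases hi : ∀ k < i, i ∈ A k
    · exact ⟨i, fun h' => (h' hi).elim⟩
    · push Not at hi
      obtain ⟨k, hk, hk'⟩ := hi
      exact ⟨k, fun _ => ⟨hk, hk'⟩⟩
  choose f hf using hf
  obtain ⟨k, hk⟩ := h.norm f (hc'.mono fun i hi => (hf i hi).1)
  have hfalse : ∀ᶠ i in (U : Filter I), False := by
    filter_upwards [hc', hk, hA k] with i h1 h2 h3
    exact (hf i h1).2 (h2 ▸ h3)
  exact (hfalse.exists).elim fun _ h => h

theorem NormMeas.complete (h : NormMeas U) (i₀ : I) (A : I → Set I) (hA : ∀ k < i₀, A k ∈ U) :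
    ∀ᶠ i in (U : Filter I), ∀ k < i₀, i ∈ A k := by
  classical
  have h1 := h.diag (fun k => if k < i₀ then A k else univ) (fun k => by
    by_cases hk : k < i₀
    · simpa [hk] using hA k hk
    · simp only [hk, if_false]
      exact Filter.univ_mem)
  filter_upwards [h1, h.uni i₀] with i h2 h3 k hk
  have := h2 k (hk.trans h3)
  simpa [hk] using this

theorem NormMeas.ne (h : NormMeas U) (j : I) : ∀ᶠ i in (U : Filter I), i ≠ j := by
  filter_upwards [h.uni j] with i hi
  exact ne_of_gt hi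

/-- Completeness for arbitrary index types of size less than the measurable cardinal. -/
theorem NormMeas.complete' (h : NormMeas U) {J : Type} {m : I} (hJ : #J ≤ #(Iio m))
    (A : J → Set I) (hA : ∀ j, A j ∈ U) : ∀ᶠ i in (U : Filter I), ∀ j, i ∈ A j := by
  obtain ⟨e⟩ := hJ
  have h1 := h.complete m (fun k => {i | ∀ j, (e j : I) = k → i ∈ A j}) (fun k _ => by
    by_cases hk : ∃ j, (e j : I) = k
    · obtain ⟨j, hj⟩ := hk
      refine Filter.mem_of_superset (hA j) ?_
      intro i hi j' hj'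
      have : j' = j := e.injective (Subtype.ext (hj'.trans hj.symm))
      rw [this]
      exact hi
    · refine Filter.mem_of_superset Filter.univ_mem ?_
      intro i _ j hj
      exact (hk ⟨j, hj⟩).elim)
  filter_upwards [h1] with i hi j
  exact hi (e j) (e j).2 j rfl

/-- A function with values subsets of a small set is constant on a set in the ultrafilter. -/
theorem NormMeas.const_set (h : NormMeas U) {J : Type} {m : I} (hJ : #J ≤ #(Iio m))
    (g : I → Set J) : ∃ s, ∀ᶠ i in (U : Filter I), g i = s := by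
  refine ⟨{j | ∀ᶠ i in (U : Filter I), j ∈ g i}, ?_⟩
  have h1 := h.complete' hJ
    (fun j => {i | j ∈ g i ↔ ∀ᶠ i in (U : Filter I), j ∈ g i}) (fun j => by
      by_cases hj : ∀ᶠ i in (U : Filter I), j ∈ g i
      · filter_upwards [hj] with i hi
        exact ⟨fun _ => hj, fun _ => hi⟩
      · have := Ultrafilter.eventually_not.2 hj
        filter_upwards [this] with i hi
        exact ⟨fun h' => (hi h').elim, fun h' => (hj h').elim⟩)
  filter_upwards [h1] with i hi
  ext j
  exact hi j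

variable [WellFoundedLT I]

theorem NormMeas.noMax (h : NormMeas U) (i : I) : ∃ j, i < j := by
  have := Ultrafilter.nonempty_of_mem (h.uni i)
  exact this

theorem NormMeas.infinite (h : NormMeas U) : Infinite I := by
  haveI : NoMaxOrder I := ⟨fun i => h.noMax i⟩
  haveI : Nonempty I := by
    by_contra hc
    rw [not_nonempty_iff] at hc
    exact U.neBot.ne (Filter.filter_eq_bot_of_isEmpty _)
  exact NoMaxOrder.infinite

theorem NormMeas.card_Iio (h : NormMeas U) (i : I) : #(Iio i) < #I := by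
  by_contra hc
  rw [not_lt] at hc
  have := h.complete' hc (fun j : I => {i | i ≠ j}) (fun j => h.ne j)
  obtain ⟨i, hi⟩ := this.exists
  exact hi i rfl

theorem NormMeas.card_set (h : NormMeas U) (i : I) : #(Set (Iio i)) < #I := by
  by_contra hc
  rw [not_lt] at hc
  obtain ⟨e⟩ := hc
  obtain ⟨s, hs⟩ := h.const_set (le_refl #(Iio i)) (fun j => e j)
  obtain ⟨j, hj⟩ := hs.exists
  obtain ⟨j', hj', hj''⟩ := (hs.and (h.ne j)).exists
  exact hj'' (e.injective (hj'.trans hj.symm))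

theorem NormMeas.card_sigma (h : NormMeas U) : #(Σ i : I, Set (Iio i)) ≤ #I := by
  haveI := h.infinite
  rw [Cardinal.mk_sigma]
  calc Cardinal.sum (fun i : I => #(Set (Iio i))) ≤ Cardinal.sum (fun _ : I => #I) :=
        Cardinal.sum_le_sum _ _ fun i => (h.card_set i).le
    _ = #I := by
        rw [Cardinal.sum_const', Cardinal.mul_eq_self (Cardinal.aleph0_le_mk I)]

end Normal

section Two

variable {I M : Type} [LinearOrder I] [WellFoundedLT I] [LinearOrder M] [WellFoundedLT M]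
variable {U : Ultrafilter I} {W : Ultrafilter M} {m₀ : M}

/-- Every set of size at most `|I|` is bounded in `M`. -/
theorem bdd_fun (hW : NormMeas W) (hI : #I ≤ #(Iio m₀)) (f : I → M) :
    ∃ γ, ∀ i, f i < γ := by
  have := hW.complete' hI (fun i => Ioi (f i)) (fun i => hW.uni _)
  obtain ⟨γ, h⟩ := this.exists
  exact ⟨γ, h⟩

/-- Almost all points of `M` have cofinality larger than `|I|`. -/
theorem cof_ae (hW : NormMeas W) (hI : #I ≤ #(Iio m₀)) :
    ∀ᶠ ν in (W : Filter M), ∀ f : I → M, (∀ i, f i < ν) → ∃ γ < ν, ∀ i, f i ≤ γ := by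
  by_contra hc
  have hc' := Ultrafilter.eventually_not.2 hc
  have hf : ∀ ν, ∃ f : I → M, (¬ ∀ f : I → M, (∀ i, f i < ν) → ∃ γ < ν, ∀ i, f i ≤ γ) →
      (∀ i, f i < ν) ∧ ∀ γ < ν, ∃ i, γ < f i := by
    intro ν
    by_cases h : ∀ f : I → M, (∀ i, f i < ν) → ∃ γ < ν, ∀ i, f i ≤ γ
    · exact ⟨fun _ => ν, fun h' => (h' h).elim⟩
    · push Not at h
      obtain ⟨f, h1, h2⟩ := h
      exact ⟨f, fun _ => ⟨h1, h2⟩⟩
  choose F hF using hf
  have hk : ∀ i, ∃ k, ∀ᶠ ν in (W : Filter M), F ν i = k := fun i =>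
    hW.norm (fun ν => F ν i) (hc'.mono fun ν hν => (hF ν hν).1 i)
  choose k hk using hk
  have h1 := hW.complete' hI (fun i => {ν | F ν i = k i}) (fun i => hk i)
  obtain ⟨ν, h2, h3⟩ := (h1.and hc').exists
  obtain ⟨ν', ⟨h4, h5⟩, h6⟩ := ((h1.and hc').and (hW.uni ν)).exists
  obtain ⟨i, hi⟩ := (hF ν' h5).2 ν h6
  have h7 : F ν' i = F ν i := (h4 i).trans (h2 i).symm
  rw [h7] at hi
  exact lt_asymm hi ((hF ν h3).1 i)

/-- A set of size at most `|I|`. -/
def Small (I : Type) {M : Type} (s : Set M) : Prop := #s ≤ #I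

theorem Small.mono {s t : Set M} (ht : Small I t) (h : s ⊆ t) : Small I s :=
  (Cardinal.mk_le_mk_of_subset h).trans ht

theorem Small.range_or {s : Set M} (h : Small I s) (hs : s.Nonempty) :
    ∃ f : I → M, s = range f := by
  obtain ⟨e⟩ := h
  obtain ⟨a, ha⟩ := hs
  classical
  refine ⟨fun i => if h : ∃ b : s, e b = i then (h.choose : M) else a, ?_⟩
  ext b
  constructor
  · intro hb
    refine ⟨e ⟨b, hb⟩, ?_⟩
    have h : ∃ c : s, e c = e ⟨b, hb⟩ := ⟨⟨b, hb⟩, rfl⟩
    simp only [h, dif_pos]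
    exact congrArg Subtype.val (e.injective h.choose_spec)
  · rintro ⟨i, rfl⟩
    by_cases h : ∃ b : s, e b = i
    · simp only [h, dif_pos]
      exact (h.choose).2
    · simp only [h, dif_neg, not_false_eq_true]
      exact ha

theorem Small.of_range (f : I → M) : Small I (range f) := Cardinal.mk_range_le

theorem Small.bdd (hW : NormMeas W) (hI : #I ≤ #(Iio m₀)) {s : Set M} (h : Small I s) :
    ∃ γ, ∀ a ∈ s, a < γ := by
  rcases s.eq_empty_or_nonempty with rfl | hs
  · exact ⟨m₀, by simp⟩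
  · obtain ⟨f, rfl⟩ := h.range_or hs
    obtain ⟨γ, hγ⟩ := bdd_fun hW hI f
    exact ⟨γ, by rintro _ ⟨i, rfl⟩; exact hγ i⟩

/-- `ν` is a limit point of cofinality larger than `|I|`. -/
def Cof (I : Type) {M : Type} [LinearOrder M] (ν : M) : Prop :=
  (∀ γ < ν, ∃ γ', γ < γ' ∧ γ' < ν) ∧
    ∀ s : Set M, Small I s → (∀ a ∈ s, a < ν) → ∃ γ < ν, ∀ a ∈ s, a ≤ γ

/-- Almost all points are limits. -/
theorem lim_ae (hW : NormMeas W) :
    ∀ᶠ ν in (W : Filter M), ∀ γ < ν, ∃ γ', γ < γ' ∧ γ' < ν := by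
  by_contra hc
  have hc' := Ultrafilter.eventually_not.2 hc
  have hf : ∀ ν : M, ∃ γ, (¬ ∀ γ < ν, ∃ γ', γ < γ' ∧ γ' < ν) →
      γ < ν ∧ ∀ γ', γ < γ' → ν ≤ γ' := by
    intro ν
    by_cases h : ∀ γ < ν, ∃ γ', γ < γ' ∧ γ' < ν
    · exact ⟨ν, fun h' => (h' h).elim⟩
    · push Not at h
      obtain ⟨γ, h1, h2⟩ := h
      exact ⟨γ, fun _ => ⟨h1, h2⟩⟩
  choose F hF using hf
  obtain ⟨k, hk⟩ := hW.norm F (hc'.mono fun ν hν => (hF ν hν).1)
  obtain ⟨ν, h1, h2⟩ := (hk.and hc').exists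
  obtain ⟨ν', ⟨h3, h4⟩, h5⟩ := ((hk.and hc').and (hW.uni ν)).exists
  have h6 := (hF ν' h4).2 ν (by rw [h3, ← h1]; exact (hF ν h2).1)
  exact (h6.trans_lt h5).false

theorem cof_ae' (hW : NormMeas W) (hI : #I ≤ #(Iio m₀)) :
    ∀ᶠ ν in (W : Filter M), Cof I ν := by
  filter_upwards [cof_ae hW hI, hW.uni m₀, lim_ae hW] with ν hν h0 hl
  refine ⟨hl, fun s hs hs' => ?_⟩
  rcases s.eq_empty_or_nonempty with rfl | hne
  · exact ⟨m₀, h0, by simp⟩
  · obtain ⟨f, rfl⟩ := hs.range_or hne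
    obtain ⟨γ, h1, h2⟩ := hν f (fun i => hs' _ ⟨i, rfl⟩)
    exact ⟨γ, h1, by rintro _ ⟨i, rfl⟩; exact h2 i⟩

end Two

end Pool.Agent.W869.FU
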