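import Pool.Agent.Helper669.Forcing

/-!
# Fresh subsets of ultrapowers: definitions

The first part has the notions of the question. The second part has the hypothesis of the ZFC
theorem in an elementary form, and its translation into the forcing language.
-/

set_option autoImplicit false

namespace Pool.Agent.W869.FU

open Set Filter Pool.Agent.Helper669.Forcing
open Cardinal hiding univ

section Notions

/-- `U` is a normal ultrafilter on the uncountable cardinal `δ` (so `δ` is measurable): it
contains no singleton, it is `δ`-complete, and each function which is regressive on a set in `U`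
is constant on a set in `U`. -/
def IsNormalMeasure (δ : Cardinal.{0}) (U : Ultrafilter δ.ord.ToType) : Prop :=
  ℵ₀ < δ ∧ (∀ i, {i} ∉ U) ∧
    (∀ (J : Type) (A : J → Set δ.ord.ToType), #J < δ → (∀ j, A j ∈ U) → (⋂ j, A j) ∈ U) ∧
    ∀ f : δ.ord.ToType → δ.ord.ToType, (∀ᶠ i in (U : Filter δ.ord.ToType), f i < i) →
      ∃ k, ∀ᶠ i in (U : Filter δ.ord.ToType), f i = k

/-- `c` is the transitive collapse of the ultrapower of the ordinals: it sends each function `g`
from `δ` to the ordinals to the ordinal which the class of `g` is collapsed to. -/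
def IsCollapse {δ : Cardinal.{0}} (U : Ultrafilter δ.ord.ToType)
    (c : (δ.ord.ToType → Ordinal.{0}) → Ordinal.{0}) : Prop :=
  (∀ g h, c g < c h ↔ ∀ᶠ i in (U : Filter δ.ord.ToType), g i < h i) ∧
    ∀ o, ∃ g, c g = o

/-- The set `A` of ordinals belongs to `Ult(V, U)`: it is the collapse of the class of a function
`f` whose values are sets of ordinals. -/
def InUlt {δ : Cardinal.{0}} (U : Ultrafilter δ.ord.ToType) (A : Set Ordinal.{0}) : Prop :=
  ∃ c, IsCollapse U c ∧ ∃ f : δ.ord.ToType → Set Ordinal.{0},
    ∀ g, c g ∈ A ↔ ∀ᶠ i in (U : Filter δ.ord.ToType), g i ∈ f i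

/-- `A` is a subset of `lam` which is fresh over `Ult(V, U)`. -/
def Fresh {δ : Cardinal.{0}} (U : Ultrafilter δ.ord.ToType) (lam : Ordinal.{0})
    (A : Set Ordinal.{0}) : Prop :=
  A ⊆ Iio lam ∧ ¬ InUlt U A ∧ ∀ α < lam, InUlt U (A ∩ Iio α)

/-- `A` is an unbounded subset of `lam`. -/
def UnboundedIn (lam : Ordinal.{0}) (A : Set Ordinal.{0}) : Prop :=
  A ⊆ Iio lam ∧ ∀ α < lam, ∃ β ∈ A, α ≤ β

end Notions

section Ambient

/-- The sets `E y` are the members of a normal ultrafilter on the well-ordered set `K`: a proper
filter, an ultrafilter, containing the final segments, normal. -/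
def IsNorm {K Y : Type} [LinearOrder K] (E : Y → K → Prop) : Prop :=
  (∀ (y : Y) (x : K → Prop), (∀ ξ, E y ξ → x ξ) → ∃ y', ∀ ξ, E y' ξ ↔ x ξ) ∧
    (∀ y y' : Y, ∃ z, ∀ ξ, E z ξ ↔ (E y ξ ∧ E y' ξ)) ∧
    (∀ x : K → Prop, (¬ ∃ y, ∀ ξ, E y ξ ↔ x ξ) → ∃ y, ∀ ξ, E y ξ ↔ ¬ x ξ) ∧
    (∀ y, ∃ ξ, E y ξ) ∧
    (∀ η : K, ∃ y, ∀ ξ, E y ξ ↔ η < ξ) ∧
    ∀ (f : K → K) (y : Y), (∀ ξ, E y ξ → f ξ < ξ) → ∃ (η : K) (y' : Y), ∀ ξ, E y' ξ → f ξ = η

/-- `a α i` is a set of elements of `M`; for `α < β` the sets `a α i` and `a β i` agree below `α`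
for almost all `i`. -/
def Coherent {I M Y : Type} [LinearOrder M] (E : Y → I → Prop) (a : M → I → M → Prop) : Prop :=
  ∀ α β, α < β → ∃ y, ∀ i, E y i → ∀ ξ, ξ < α → (a β i ξ ↔ a α i ξ)

/-- The sets `F i` form a thread of `a`. -/
def IsThread {I M Y : Type} [LinearOrder M] (E : Y → I → Prop) (a : M → I → M → Prop)
    (F : I → M → Prop) : Prop :=
  ∀ α, ∃ y, ∀ i, E y i → ∀ ξ, ξ < α → (F i ξ ↔ a α i ξ)

/-- There are normal ultrafilters `E₀`, `E₁` on the well-ordered set `I`, all functions from `I`
to the well-ordered set `M` are bounded, no proper initial segment of `M` can be mapped onto `M`,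
the functions from `I` to a proper initial segment of `M` can be listed by a proper initial segment
of `M`, there is a sequence coherent modulo `E₁` without a thread, and every sequence coherent
modulo `E₀` has a thread. -/
def Hypothesis (I M : Type) [LinearOrder I] [LinearOrder M] : Prop :=
  ∃ (Y₀ : Type) (E₀ : Y₀ → I → Prop) (Y₁ : Type) (E₁ : Y₁ → I → Prop),
    IsNorm E₀ ∧ IsNorm E₁ ∧
    (∀ f : I → M, ∃ γ, ∀ i, f i < γ) ∧
    (∀ α : M, ¬ ∃ f : M → M, ∀ β, ∃ γ, γ < α ∧ f γ = β) ∧
    (∀ α : M, ∃ (γ : M) (G : M → I → M), ∀ g : I → M, (∀ i, g i < α) →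
      ∃ β, β < γ ∧ ∀ i, G β i = g i) ∧
    (∃ a : M → I → M → Prop, Coherent E₁ a ∧ ¬ ∃ F, IsThread E₁ a F) ∧
    ∀ a : M → I → M → Prop, Coherent E₀ a → ∃ F, IsThread E₀ a F

end Ambient

section Names

variable {P : Type} [Preorder P]

/-- `φ if and only if ψ`. -/
def fiff (φ ψ : Set P) : Set P := fand (fimp φ ψ) (fimp ψ φ)

/-- Forcing version of `IsNorm`; the function `f` is given by a name of its graph. -/
def IsNormN {K Y : Type} [LinearOrder K] (E : Y → K → Set P) : Set P :=
  fand (fall fun y => fall fun x : K → Set P =>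
      fimp (fall fun ξ => fimp (meets (E y ξ)) (meets (x ξ)))
        (fex fun y' => fall fun ξ => fiff (meets (E y' ξ)) (meets (x ξ))))
    (fand (fall fun y => fall fun y' => fex fun z => fall fun ξ =>
        fiff (meets (E z ξ)) (fand (meets (E y ξ)) (meets (E y' ξ))))
      (fand (fall fun x : K → Set P =>
          fimp (fnot (fex fun y => fall fun ξ => fiff (meets (E y ξ)) (meets (x ξ))))
            (fex fun y => fall fun ξ => fiff (meets (E y ξ)) (fnot (meets (x ξ)))))
        (fand (fall fun y => fex fun ξ => meets (E y ξ))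
          (fand (fall fun η => fex fun y => fall fun ξ =>
              fiff (meets (E y ξ)) (fground (η < ξ)))
            (fall fun f : K → K → Set P => fall fun y =>
              fimp (fand (IsFun f) (fall fun ξ => fimp (meets (E y ξ))
                  (fall fun b => fimp (meets (f ξ b)) (fground (b < ξ)))))
                (fex fun η => fex fun y' => fall fun ξ =>
                  fimp (meets (E y' ξ)) (meets (f ξ η))))))))

/-- Forcing version of `Coherent`. -/
def CoherentN {I M Y : Type} [LinearOrder M] (E : Y → I → Set P) (a : M → I → M → Set P) :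
    Set P :=
  fall fun α => fall fun β => fimp (fground (α < β)) (fex fun y => fall fun i =>
    fimp (meets (E y i)) (fall fun ξ => fimp (fground (ξ < α))
      (fiff (meets (a β i ξ)) (meets (a α i ξ)))))

/-- Forcing version of `IsThread`. -/
def IsThreadN {I M Y : Type} [LinearOrder M] (E : Y → I → Set P) (a : M → I → M → Set P)
    (F : I → M → Set P) : Set P :=
  fall fun α => fex fun y => fall fun i =>
    fimp (meets (E y i)) (fall fun ξ => fimp (fground (ξ < α))
      (fiff (meets (F i ξ)) (meets (a α i ξ))))

/-- Forcing version of `Hypothesis`; functions are given by names of their graphs. -/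
def HypothesisN (P : Type) [Preorder P] (I M : Type) [LinearOrder I] [LinearOrder M] : Set P :=
  fex fun Y₀ : Type => fex fun E₀ : Y₀ → I → Set P => fex fun Y₁ : Type =>
    fex fun E₁ : Y₁ → I → Set P =>
    fand (IsNormN E₀) (fand (IsNormN E₁)
      (fand (fall fun f : I → M → Set P => fimp (IsFun f)
          (fex fun γ => fall fun i => fall fun b => fimp (meets (f i b)) (fground (b < γ))))
        (fand (fall fun α : M => fnot (fex fun f : M → M → Set P => fand (IsFun f)
            (fall fun β => fex fun γ => fand (fground (γ < α)) (meets (f γ β)))))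
          (fand (fall fun α : M => fex fun γ : M => fex fun G : M → I → M → Set P =>
              fand (fall fun β => IsFun (G β)) (fall fun g : I → M → Set P =>
                fimp (fand (IsFun g) (fall fun i => fall fun b =>
                    fimp (meets (g i b)) (fground (b < α))))
                  (fex fun β => fand (fground (β < γ)) (fall fun i => fall fun b =>
                    fiff (meets (G β i b)) (meets (g i b))))))
            (fand (fex fun a : M → I → M → Set P => fand (CoherentN E₁ a)
                (fnot (fex fun F : I → M → Set P => IsThreadN E₁ a F)))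
              (fall fun a : M → I → M → Set P => fimp (CoherentN E₀ a)
                (fex fun F : I → M → Set P => IsThreadN E₀ a F)))))))

end Names

end Pool.Agent.W869.FU
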