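import Pool.Agent.W869.FU.Base
import Pool.Agent.W869.FU.Defs

/-!
# The collapse of the ultrapower of the ordinals
-/

set_option autoImplicit false
set_option linter.unusedSectionVars false
set_option linter.unusedVariables false
set_option linter.style.haveILetI false

namespace Pool.Agent.W869.FU

open Set Filter
open Cardinal hiding univ

variable {I : Type} [LinearOrder I] [WellFoundedLT I] {U : Ultrafilter I}

theorem NormMeas.exists_limit (hU : NormMeas U) :
    ∃ m : I, ℵ₀ ≤ #(Iio m) := by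
  haveI := hU.infinite
  obtain ⟨i₀⟩ : Nonempty I := inferInstance
  obtain ⟨m, hm, hm'⟩ := ((lim_ae hU).and (hU.uni i₀)).exists
  refine ⟨m, ?_⟩
  haveI : Nonempty (Iio m) := ⟨⟨i₀, hm'⟩⟩
  haveI : NoMaxOrder (Iio m) := ⟨fun a => by
    obtain ⟨b, hb, hb'⟩ := hm a a.2
    exact ⟨⟨b, hb'⟩, hb⟩⟩
  haveI : Infinite (Iio m) := NoMaxOrder.infinite
  exact Cardinal.aleph0_le_mk _

theorem NormMeas.countable (hU : NormMeas U) (A : ℕ → Set I) (hA : ∀ n, A n ∈ U) :
    ∀ᶠ i in (U : Filter I), ∀ n, i ∈ A n := by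
  obtain ⟨m, hm⟩ := hU.exists_limit
  exact hU.complete' (m := m) (by rw [Cardinal.mk_nat]; exact hm) A hA

/-- The order of the ultrapower. -/
def ltU (U : Ultrafilter I) (g h : I → Ordinal.{0}) : Prop :=
  ∀ᶠ i in (U : Filter I), g i < h i

theorem ltU_wf (hU : NormMeas U) : WellFounded (ltU U) := by
  rw [wellFounded_iff_isEmpty_descending_chain]
  refine ⟨fun ⟨f, hf⟩ => ?_⟩
  obtain ⟨i, hi⟩ := (hU.countable (fun n => {i | f (n + 1) i < f n i}) hf).exists
  have h1 : IsEmpty {g : ℕ → Ordinal.{0} // ∀ n, g (n + 1) < g n} :=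
    wellFounded_iff_isEmpty_descending_chain.1 (wellFounded_lt (α := Ordinal.{0}))
  exact h1.false ⟨fun n => f n i, fun n => hi n⟩

/-- Bounded representatives. -/
def Rep (g : I → Ordinal.{0}) : Type := (i : I) → (Order.succ (g i)).ToType

/-- The function given by a representative. -/
noncomputable def Rep.val {g : I → Ordinal.{0}} (h : Rep g) (i : I) : Ordinal.{0} :=
  (Ordinal.ToType.mk.symm (h i)).1

theorem exists_rep {g k : I → Ordinal.{0}} (h : ltU U k g) :
    ∃ r : Rep g, (∀ᶠ i in (U : Filter I), r.val i = k i) ∧ ltU U r.val g := by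
  classical
  let r : Rep g := fun i => Ordinal.ToType.mk
    (if h : k i < Order.succ (g i) then ⟨k i, h⟩ else ⟨0, Set.mem_Iio.2 (Order.lt_succ_of_le zero_le)⟩)
  have hr : ∀ i, k i < g i → r.val i = k i := by
    intro i hi
    have h1 : k i < Order.succ (g i) := hi.trans (Order.lt_succ _)
    unfold Rep.val
    simp only [r]
    rw [dif_pos h1, OrderIso.symm_apply_apply]
  refine ⟨r, ?_, ?_⟩
  · filter_upwards [h] with i hi
    exact hr i hi
  · show ∀ᶠ i in (U : Filter I), r.val i < g i
    filter_upwards [h] with i hi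
    rw [hr i hi]
    exact hi

/-- The collapse. -/
noncomputable def col (hU : NormMeas U) : (I → Ordinal.{0}) → Ordinal.{0} :=
  (ltU_wf hU).fix fun g ih => ⨆ h : {h : Rep g // ltU U h.val g}, Order.succ (ih h.1.val h.2)

theorem col_eq (hU : NormMeas U) (g : I → Ordinal.{0}) :
    col hU g = ⨆ h : {h : Rep g // ltU U h.val g}, Order.succ (col hU h.1.val) :=
  (ltU_wf hU).fix_eq _ g

theorem col_le_of (hU : NormMeas U) {g g' : I → Ordinal.{0}}
    (hg : ∀ᶠ i in (U : Filter I), g i = g' i)
    (h : ∀ k, ltU U k g → ∀ k', (∀ᶠ i in (U : Filter I), k i = k' i) → col hU k = col hU k') :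
    col hU g ≤ col hU g' := by
  rw [col_eq hU g, col_eq hU g']
  refine Ordinal.iSup_le ?_
  rintro ⟨r, hr⟩
  have h1 : ltU U r.val g' := by
    show ∀ᶠ i in (U : Filter I), r.val i < g' i
    filter_upwards [hg, hr] with i h2 h3
    rw [← h2]
    exact h3
  obtain ⟨s, hs, hs'⟩ := exists_rep h1
  rw [h r.val hr s.val (by
    filter_upwards [hs] with i hi
    exact hi.symm)]
  exact Ordinal.le_iSup (fun h : {h : Rep g' // ltU U h.val g'} =>
    Order.succ (col hU h.1.val)) ⟨s, hs'⟩

theorem col_congr (hU : NormMeas U) (g : I → Ordinal.{0}) :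
    ∀ g', (∀ᶠ i in (U : Filter I), g i = g' i) → col hU g = col hU g' := by
  induction g using (ltU_wf hU).induction with
  | h g ih =>
    intro g' hg
    refine le_antisymm (col_le_of hU hg fun k hk k' hk' => ih k hk k' hk') ?_
    refine col_le_of hU (hg.mono fun i hi => hi.symm) ?_
    intro k hk k' hk'
    have hkg : ltU U k g := by
      show ∀ᶠ i in (U : Filter I), k i < g i
      filter_upwards [hg, hk] with i h2 h3
      rw [h2]
      exact h3
    exact ih k hkg k' hk'

theorem lt_col_iff (hU : NormMeas U) {g : I → Ordinal.{0}} {o : Ordinal.{0}} :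
    o < col hU g ↔ ∃ k, ltU U k g ∧ o ≤ col hU k := by
  rw [col_eq hU g, Ordinal.lt_iSup_iff]
  constructor
  · rintro ⟨⟨r, hr⟩, h⟩
    exact ⟨r.val, hr, Order.lt_succ_iff.1 h⟩
  · rintro ⟨k, hk, h⟩
    obtain ⟨r, hr, hr'⟩ := exists_rep hk
    refine ⟨⟨r, hr'⟩, Order.lt_succ_iff.2 ?_⟩
    rw [col_congr hU r.val k hr]
    exact h

theorem col_lt (hU : NormMeas U) {g h : I → Ordinal.{0}} : col hU g < col hU h ↔ ltU U g h := by
  constructor
  · intro hlt
    by_contra hc
    have h1 : ∀ᶠ i in (U : Filter I), ¬ g i < h i := Ultrafilter.eventually_not.2 hc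
    by_cases h2 : ∀ᶠ i in (U : Filter I), g i = h i
    · rw [col_congr hU g h h2] at hlt
      exact lt_irrefl _ hlt
    · have h3 : ltU U h g := by
        show ∀ᶠ i in (U : Filter I), h i < g i
        filter_upwards [h1, Ultrafilter.eventually_not.2 h2] with i h4 h5
        exact lt_of_le_of_ne (not_lt.1 h4) (fun h => h5 h.symm)
      exact lt_asymm hlt ((lt_col_iff hU).2 ⟨h, h3, le_rfl⟩)
  · intro hlt
    exact (lt_col_iff hU).2 ⟨g, hlt, le_rfl⟩

theorem le_col_const (hU : NormMeas U) (o : Ordinal.{0}) : o ≤ col hU (fun _ => o) := by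
  induction o using WellFoundedLT.induction with
  | ind o ih =>
    by_contra hc
    rw [not_le] at hc
    have h1 := ih _ hc
    have h2 : col hU (fun _ => col hU (fun _ => o)) < col hU (fun _ => o) := by
      rw [col_lt]
      exact Filter.Eventually.of_forall fun _ => hc
    exact (h1.trans_lt h2).false

theorem col_surj_below (hU : NormMeas U) (g : I → Ordinal.{0}) :
    ∀ o, o ≤ col hU g → ∃ h, col hU h = o := by
  induction g using (ltU_wf hU).induction with
  | h g ih =>
    intro o ho
    rcases ho.eq_or_lt with rfl | ho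
    · exact ⟨g, rfl⟩
    · obtain ⟨k, hk, hk'⟩ := (lt_col_iff hU).1 ho
      exact ih k hk o hk'

theorem collapse_unique {δ : Cardinal.{0}} {U : Ultrafilter δ.ord.ToType}
    {c c' : (δ.ord.ToType → Ordinal.{0}) → Ordinal.{0}} (hc : IsCollapse U c)
    (hc' : IsCollapse U c') : c = c' := by
  have key : ∀ o : Ordinal.{0}, ∀ g, c g = o → c' g = o := by
    intro o
    induction o using WellFoundedLT.induction with
    | ind o ih =>
      intro g hg
      rcases lt_trichotomy (c' g) o with h | h | h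
      · -- there is `h` with `c h = c' g`
        obtain ⟨k, hk⟩ := hc.2 (c' g)
        have h1 := ih _ h k hk
        have h2 : c k < c g := by rw [hk, hg]; exact h
        have h3 := (hc'.1 k g).2 ((hc.1 k g).1 h2)
        rw [h1] at h3
        exact (lt_irrefl _ h3).elim
      · exact h
      · obtain ⟨k, hk⟩ := hc'.2 o
        have h2 : c' k < c' g := by rw [hk]; exact h
        have h3 := (hc.1 k g).2 ((hc'.1 k g).1 h2)
        rw [hg] at h3
        have h4 := ih _ h3 k rfl
        rw [hk] at h4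
        rw [← h4] at h3
        exact (lt_irrefl _ h3).elim
  funext g
  exact (key (c g) g rfl).symm

theorem col_isCollapse {δ : Cardinal.{0}} {U : Ultrafilter δ.ord.ToType} (hU : NormMeas U) :
    IsCollapse U (col hU) :=
  ⟨fun g h => col_lt hU, fun o => col_surj_below hU (fun _ => o) o (le_col_const hU o)⟩

/-! ### The two definitions of normal ultrafilters -/

theorem isNormalMeasure_of {δ : Cardinal.{0}} {U : Ultrafilter δ.ord.ToType} (hU : NormMeas U) :
    IsNormalMeasure δ U := by
  haveI := hU.infinite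
  refine ⟨?_, ?_, ?_, hU.norm⟩
  · obtain ⟨m, hm⟩ := hU.exists_limit
    have h1 := hm.trans_lt (hU.card_Iio m)
    rwa [Cardinal.mk_ord_toType] at h1
  · intro i hi
    exact (Ultrafilter.compl_mem_iff_notMem.1 (hU.ne i)) hi
  · intro J A hJ hA
    have h1 : #J < #δ.ord.ToType := by rwa [Cardinal.mk_ord_toType]
    obtain ⟨m, hm⟩ : ∃ m : δ.ord.ToType, #J ≤ #(Iio m) := by
      have h1' : (#J).ord < Ordinal.type (α := δ.ord.ToType) (· < ·) := by
        by_contra hc
        have h2 := Ordinal.card_le_card (not_lt.1 hc)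
        rw [Cardinal.card_ord, Ordinal.card_type] at h2
        exact not_lt.2 h2 h1
      obtain ⟨m, hm⟩ := Ordinal.typein_surj (α := δ.ord.ToType) (· < ·) h1'
      refine ⟨m, ?_⟩
      have h2 := Ordinal.card_typein (α := δ.ord.ToType) (r := (· < ·)) m
      rw [hm, Cardinal.card_ord] at h2
      exact h2.le
    filter_upwards [hU.complete' hm A hA] with i hi
    exact mem_iInter.2 hi

theorem normMeas_of {δ : Cardinal.{0}} {U : Ultrafilter δ.ord.ToType}
    (hU : IsNormalMeasure δ U) : NormMeas U := by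
  obtain ⟨h1, h2, h3, h4⟩ := hU
  refine ⟨fun i => ?_, h4⟩
  have hc : #(Iic i) < δ := by
    have e1 : (Iic i) = insert i (Iio i) := by
      ext j
      simp only [mem_Iic, mem_insert_iff, mem_Iio]
      exact le_iff_eq_or_lt
    rw [e1]
    refine (Cardinal.mk_insert_le).trans_lt ?_
    exact Cardinal.add_lt_of_lt h1.le (Cardinal.mk_Iio_toType_ord_lt i)
      ((Cardinal.one_lt_aleph0).trans h1)
  have h5 := h3 (Iic i) (fun j => ({(j : δ.ord.ToType)} : Set _)ᶜ) hc
    (fun j => Ultrafilter.compl_mem_iff_notMem.2 (h2 j))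
  filter_upwards [h5] with j hj
  by_contra hji
  exact (mem_iInter.1 hj ⟨j, Set.mem_Iic.2 (not_lt.1 hji)⟩) rfl

end Pool.Agent.W869.FU
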