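import Pool.Agent.W869.FU.Tree

/-!
# The forcing conditions
-/

set_option autoImplicit false
set_option linter.unusedSectionVars false
set_option linter.unusedVariables false
set_option linter.style.haveILetI false

namespace Pool.Agent.W869.FU

open Set Filter
open Cardinal hiding univ

variable {I M : Type} [LinearOrder I] [WellFoundedLT I] [LinearOrder M] [WellFoundedLT M]
variable {U : Ultrafilter I}

theorem Small.union [Infinite I] {s t : Set M} (hs : Small I s) (ht : Small I t) :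
    Small I (s ∪ t) := by
  refine (Cardinal.mk_union_le s t).trans ?_
  calc #s + #t ≤ #I + #I := add_le_add hs ht
    _ = #I := Cardinal.add_eq_self (Cardinal.aleph0_le_mk I)

theorem Small.singleton [Infinite I] (a : M) : Small I ({a} : Set M) := by
  unfold Small
  rw [Cardinal.mk_singleton]
  exact (Cardinal.one_le_aleph0).trans (Cardinal.aleph0_le_mk I)

theorem Small.insert [Infinite I] {s : Set M} (hs : Small I s) (a : M) :
    Small I (insert a s) := by
  rw [Set.insert_eq]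
  exact (Small.singleton a).union hs

theorem Small.iUnion [Infinite I] {K : Type} (hK : #K ≤ #I) {s : K → Set M}
    (hs : ∀ k, Small I (s k)) : Small I (⋃ k, s k) := by
  refine (Cardinal.mk_iUnion_le s).trans ?_
  calc #K * ⨆ k, #(s k) ≤ #I * #I := by
        refine mul_le_mul' hK ?_
        exact ciSup_le' fun k => hs k
    _ = #I := Cardinal.mul_eq_self (Cardinal.aleph0_le_mk I)

/-- Downward closure in the tree `T j`. -/
def dcl (T : I → M → M → Prop) (j : I) (K : Set M) : Set M := {a | ∃ e ∈ K, a = e ∨ T j a e}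

theorem dcl_down {x : Set M} {T : I → M → M → Prop} (h : Pre U x T) {j : I} {K : Set M}
    {a c : M} (hac : T j a c) (hc : c ∈ dcl T j K) : a ∈ dcl T j K := by
  obtain ⟨e, he, rfl | h'⟩ := hc
  · exact ⟨c, he, Or.inr hac⟩
  · exact ⟨e, he, Or.inr (h.trans _ _ _ _ hac h')⟩

theorem dcl_sub {x : Set M} {T : I → M → M → Prop} (h : Pre U x T) {j : I} {K : Set M}
    (hK : K ⊆ x) : dcl T j K ⊆ x := by
  rintro a ⟨e, he, rfl | h'⟩
  · exact hK he
  · exact (h.dom _ _ _ h').1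

theorem dcl_chain {x : Set M} {T : I → M → M → Prop} (h : Pre U x T) {j : I} {K : Set M}
    (hK : ∀ a ∈ K, ∀ c ∈ K, a < c → T j a c) {a c : M} (ha : a ∈ dcl T j K)
    (hc : c ∈ dcl T j K) (hac : a < c) : T j a c := by
  obtain ⟨e, he, h4⟩ := ha
  obtain ⟨e', he', h4'⟩ := hc
  have key : ∃ m, (a = m ∨ T j a m) ∧ (c = m ∨ T j c m) := by
    rcases lt_trichotomy e e' with h5 | h5 | h5
    · have h6 := hK e he e' he' h5
      refine ⟨e', ?_, h4'⟩
      rcases h4 with rfl | h4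
      · exact Or.inr h6
      · exact Or.inr (h.trans _ _ _ _ h4 h6)
    · subst h5
      exact ⟨e, h4, h4'⟩
    · have h6 := hK e' he' e he h5
      refine ⟨e, h4, ?_⟩
      rcases h4' with rfl | h4'
      · exact Or.inr h6
      · exact Or.inr (h.trans _ _ _ _ h4' h6)
  obtain ⟨m, h5, h6⟩ := key
  rcases h6 with rfl | h6
  · rcases h5 with rfl | h5
    · exact (lt_irrefl _ hac).elim
    · exact h5
  · rcases h5 with rfl | h5
    · exact (lt_asymm hac (h.dom _ _ _ h6).2.2).elim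
    · exact h.tree _ _ _ _ h5 h6 hac

theorem sub_dcl {T : I → M → M → Prop} {j : I} {K : Set M} : K ⊆ dcl T j K :=
  fun a ha => ⟨a, ha, Or.inl rfl⟩

/-! ### The conditions -/

/-- The forcing conditions: systems of trees on small closed sets. -/
structure Cond (M : Type) [LinearOrder M] (U : Ultrafilter I) where
  x : Set M
  T : I → M → M → Prop
  small : Small I x
  closed : ∀ s ⊆ x, s.Nonempty → ∃ a ∈ x, IsLUB s a
  pre : Pre U x T

theorem Cond.ext' {p q : Cond M U} (h : p.x = q.x) (h' : ∀ j a b, p.T j a b ↔ q.T j a b) :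
    p = q := by
  cases p with
  | mk x T h1 h2 h3 =>
    cases q with
    | mk x' T' h1' h2' h3' =>
      simp only at h h'
      subst h
      have : T = T' := by
        funext j a b
        exact propext (h' j a b)
      subst this
      rfl

instance : Preorder (Cond M U) where
  le q p := p.x ⊆ q.x ∧ ∀ j, ∀ a ∈ p.x, ∀ b ∈ p.x, (q.T j a b ↔ p.T j a b)
  le_refl p := ⟨subset_rfl, fun _ _ _ _ _ => Iff.rfl⟩
  le_trans r q p h h' := ⟨h'.1.trans h.1, fun j a ha b hb =>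
    (h.2 j a (h'.1 ha) b (h'.1 hb)).trans (h'.2 j a ha b hb)⟩

theorem Cond.le_def {p q : Cond M U} :
    q ≤ p ↔ p.x ⊆ q.x ∧ ∀ j, ∀ a ∈ p.x, ∀ b ∈ p.x, (q.T j a b ↔ p.T j a b) := Iff.rfl

/-- All points of the condition are below `ν`. -/
def Below (ν : M) (g : Cond M U) : Prop := ∀ a ∈ g.x, a < ν

/-- `g` extends the part of `p` below `ν`. -/
def LR (ν : M) (g p : Cond M U) : Prop :=
  (∀ a ∈ p.x, a < ν → a ∈ g.x) ∧
    ∀ j, ∀ a ∈ p.x, ∀ c ∈ p.x, a < ν → c < ν → (g.T j a c ↔ p.T j a c)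

/-- `p` and `q` have the same part below `ν`. -/
def SB (ν : M) (p q : Cond M U) : Prop :=
  (∀ a < ν, (a ∈ p.x ↔ a ∈ q.x)) ∧ ∀ j a b, b < ν → (p.T j a b ↔ q.T j a b)

/-- `p` and `q` have the same part below `ν`, and for `j` outside `N` the branches determined by
`ν` are the same. -/
def Sim (ν : M) (N : Set I) (p q : Cond M U) : Prop :=
  SB ν p q ∧ ∀ j ∉ N, ∀ a, p.T j a ν ↔ q.T j a ν

theorem SB.symm {ν : M} {p q : Cond M U} (h : SB ν p q) : SB ν q p :=
  ⟨fun a ha => (h.1 a ha).symm, fun j a b hb => (h.2 j a b hb).symm⟩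

theorem SB.trans {ν : M} {p q r : Cond M U} (h : SB ν p q) (h' : SB ν q r) : SB ν p r :=
  ⟨fun a ha => (h.1 a ha).trans (h'.1 a ha), fun j a b hb => (h.2 j a b hb).trans (h'.2 j a b hb)⟩

theorem Sim.symm {ν : M} {N : Set I} {p q : Cond M U} (h : Sim ν N p q) : Sim ν N q p :=
  ⟨h.1.symm, fun j hj a => (h.2 j hj a).symm⟩

theorem Sim.trans {ν : M} {N N' : Set I} {p q r : Cond M U} (h : Sim ν N p q)
    (h' : Sim ν N' q r) : Sim ν (N ∪ N') p r :=
  ⟨h.1.trans h'.1, fun j hj a => (h.2 j (fun h => hj (Or.inl h)) a).trans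
    (h'.2 j (fun h => hj (Or.inr h)) a)⟩

theorem Sim.mono {ν : M} {N N' : Set I} {p q : Cond M U} (h : Sim ν N p q) (hN : N ⊆ N') :
    Sim ν N' p q :=
  ⟨h.1, fun j hj a => h.2 j (fun h => hj (hN h)) a⟩

theorem LR.of_SB {ν : M} {g p : Cond M U} (h : SB ν g p) : LR ν g p :=
  ⟨fun a ha hlt => (h.1 a hlt).2 ha, fun j a _ c _ _ hc => h.2 j a c hc⟩

theorem LR.of_le {ν : M} {g g' p : Cond M U} (h : LR ν g p) (h' : g' ≤ g) : LR ν g' p :=
  ⟨fun a ha hlt => h'.1 (h.1 a ha hlt), fun j a ha c hc hlt hlt' =>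
    (h'.2 j a (h.1 a ha hlt) c (h.1 c hc hlt')).trans (h.2 j a ha c hc hlt hlt')⟩

theorem LR.of_le' {ν : M} {g p p' : Cond M U} (h : LR ν g p) (h' : p ≤ p') : LR ν g p' :=
  ⟨fun a ha hlt => h.1 a (h'.1 ha) hlt, fun j a ha c hc hlt hlt' =>
    (h.2 j a (h'.1 ha) c (h'.1 hc) hlt hlt').trans (h'.2 j a ha c hc)⟩

/-- If `g` extends the part of `p` below `ν` and `p` is below `ν`, then `g ≤ p`. -/
theorem LR.le {ν : M} {g p : Cond M U} (h : LR ν g p) (hp : Below ν p) : g ≤ p :=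
  ⟨fun a ha => h.1 a ha (hp a ha), fun j a ha c hc => h.2 j a ha c hc (hp a ha) (hp c hc)⟩

theorem LR.of_le_Below {ν : M} {g p : Cond M U} (h : g ≤ p) : LR ν g p :=
  ⟨fun a ha _ => h.1 ha, fun j a ha c hc _ _ => h.2 j a ha c hc⟩

theorem SB.LR_iff {ν : M} {g p q : Cond M U} (h : SB ν p q) (h' : LR ν g p) : LR ν g q :=
  ⟨fun a ha hlt => h'.1 a ((h.1 a hlt).2 ha) hlt, fun j a ha c hc hlt hlt' =>
    (h'.2 j a ((h.1 a hlt).2 ha) c ((h.1 c hlt').2 hc) hlt hlt').trans (h.2 j a c hlt')⟩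

/-- The part of `p` below a point `ν` of large cofinality. -/
def Cond.restr (p : Cond M U) {ν : M} (hν : Cof I ν) : Cond M U where
  x := p.x ∩ Iio ν
  T := fun j a b => p.T j a b ∧ b < ν
  small := p.small.mono inter_subset_left
  closed := by
    intro s hs hne
    obtain ⟨a, ha, hl⟩ := p.closed s (hs.trans inter_subset_left) hne
    obtain ⟨γ, h1, h2⟩ := hν.2 s (p.small.mono (hs.trans inter_subset_left))
      (fun a ha => (hs ha).2)
    exact ⟨a, ⟨ha, (hl.2 h2).trans_lt h1⟩, hl⟩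
  pre := by
    refine ⟨?_, ?_, ?_, ?_⟩
    · rintro j a b ⟨h, h'⟩
      obtain ⟨h1, h2, h3⟩ := p.pre.dom _ _ _ h
      exact ⟨⟨h1, h3.trans h'⟩, ⟨h2, h'⟩, h3⟩
    · rintro j a b c ⟨h1, h2⟩ ⟨h3, h4⟩
      exact ⟨p.pre.trans _ _ _ _ h1 h3, h4⟩
    · rintro j a b c ⟨h1, h2⟩ ⟨h3, h4⟩ hab
      exact ⟨p.pre.tree _ _ _ _ h1 h3 hab, (p.pre.dom _ _ _ h3).2.2.trans h2⟩
    · rintro a ⟨ha, ha'⟩ b ⟨hb, hb'⟩ hab
      filter_upwards [p.pre.large a ha b hb hab] with j hj
      exact ⟨hj, hb'⟩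

theorem Cond.restr_below (p : Cond M U) {ν : M} (hν : Cof I ν) : Below ν (p.restr hν) :=
  fun _ ha => ha.2

theorem Cond.restr_SB (p : Cond M U) {ν : M} (hν : Cof I ν) : SB ν (p.restr hν) p :=
  ⟨fun a ha => ⟨fun h => h.1, fun h => ⟨h, ha⟩⟩,
    fun j a b hb => ⟨fun h => h.1, fun h => ⟨h, hb⟩⟩⟩

theorem Cond.le_restr (p : Cond M U) {ν : M} (hν : Cof I ν) : p ≤ p.restr hν :=
  ⟨fun _ h => h.1, fun _ a _ b hb => ⟨fun h => ⟨h, hb.2⟩, fun h => h.1⟩⟩

theorem Cond.restr_mono {p q : Cond M U} (h : q ≤ p) {ν : M} (hν : Cof I ν) :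
    q.restr hν ≤ p.restr hν :=
  ⟨fun _ h' => ⟨h.1 h'.1, h'.2⟩, fun j a ha b hb =>
    ⟨fun h' => ⟨(h.2 j a ha.1 b hb.1).1 h'.1, h'.2⟩, fun h' => ⟨(h.2 j a ha.1 b hb.1).2 h'.1, h'.2⟩⟩⟩

/-- Two conditions below `ν` with the same part below `ν` are equal. -/
theorem eq_of_SB {ν : M} {p q : Cond M U} (h : SB ν p q) (hp : Below ν p) (hq : Below ν q) :
    p = q := by
  refine Cond.ext' ?_ ?_
  · ext a
    constructor
    · intro ha
      exact (h.1 a (hp a ha)).1 ha
    · intro ha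
      exact (h.1 a (hq a ha)).2 ha
  · intro j a b
    constructor
    · intro h'
      exact (h.2 j a b (hp b (p.pre.dom _ _ _ h').2.1)).1 h'
    · intro h'
      exact (h.2 j a b (hq b (q.pre.dom _ _ _ h').2.1)).2 h'

/-- The part below `ν` of `p` is `g` iff ... -/
theorem restr_eq {ν : M} {p g : Cond M U} (hν : Cof I ν) (h : SB ν p g) (hg : Below ν g) :
    p.restr hν = g :=
  eq_of_SB ((p.restr_SB hν).trans h) (p.restr_below hν) hg

/-- Attaching for conditions. -/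
theorem Cond.attach [Infinite I] (p g : Cond M U) {ν : M} (hν : ν ∈ p.x) (hg : Below ν g)
    (hgp : LR ν g p) (b : I → Set M) (hb : Branch U g.x g.T b)
    (hbν : ∀ j, ∀ a ∈ p.x, a < ν → (a ∈ b j ↔ p.T j a ν)) :
    ∃ r : Cond M U, r ≤ p ∧ SB ν r g ∧ (∀ j a, r.T j a ν ↔ a ∈ b j) ∧
      ∀ j a c, a < ν → ν ≤ c → r.T j a c →
        (a ∈ b j ∨ ∃ e, e < ν ∧ p.T j e c ∧ (a = e ∨ g.T j a e)) := by
  have H : AttHyp U p.x g.x p.T g.T ν b :=
    ⟨p.pre, g.pre, hν, hg, hgp.1, fun j a ha c hc h1 h2 => (hgp.2 j a ha c hc h1 h2).symm, hb, hbν⟩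
  refine ⟨⟨g.x ∪ p.x, att p.T g.T ν b, g.small.union p.small, ?_, H.pre⟩, ⟨subset_union_right, ?_⟩,
    ⟨?_, ?_⟩, fun j a => att_nu H, ?_⟩
  · intro s hs hne
    by_cases hcase : (s ∩ Ici ν).Nonempty
    · obtain ⟨a, ha, hl⟩ := p.closed (s ∩ Ici ν) (by
        rintro c ⟨hc, hc'⟩
        rcases hs hc with h | h
        · exact (not_lt.2 hc' (hg c h)).elim
        · exact h) hcase
      refine ⟨a, Or.inr ha, ?_, ?_⟩
      · intro c hc
        rcases lt_or_ge c ν with h | h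
        · obtain ⟨d, hd⟩ := hcase
          exact (h.trans_le hd.2).le.trans (hl.1 hd)
        · exact hl.1 ⟨hc, h⟩
      · intro u hu
        exact hl.2 fun c hc => hu hc.1
    · obtain ⟨a, ha, hl⟩ := g.closed s (by
        intro c hc
        have hcν : c < ν := by
          by_contra h
          exact hcase ⟨c, hc, not_lt.1 h⟩
        rcases hs hc with h | h
        · exact h
        · exact hgp.1 c h hcν) hne
      exact ⟨a, Or.inl ha, hl⟩
  · intro j a ha c hc
    exact att_xp H ha hc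
  · intro a ha
    constructor
    · rintro (h | h)
      · exact h
      · exact hgp.1 a h ha
    · exact Or.inl
  · intro j a c hc
    exact att_lt H hc
  · intro j a c haν hc h
    rcases (att_mid H haν hc).1 h with ⟨-, h1⟩ | ⟨-, h1⟩
    · exact Or.inl h1
    · exact Or.inr h1

/-! ### Sup and closure -/

theorem exists_isLUB {s : Set M} (hb : BddAbove s) : ∃ a, IsLUB s a := by
  have h : (upperBounds s).Nonempty := hb
  exact ⟨WellFounded.min (wellFounded_lt (α := M)) (upperBounds s) h,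
    WellFounded.min_mem _ _ _, fun u hu => not_lt.1 (WellFounded.not_lt_min _ _ hu)⟩

/-- The closure of `x`. -/
def clo (x : Set M) : Set M := {a | ∃ s ⊆ x, s.Nonempty ∧ IsLUB s a}

theorem sub_clo {x : Set M} : x ⊆ clo x := fun a ha =>
  ⟨{a}, by simpa using ha, ⟨a, rfl⟩, isLUB_singleton⟩

theorem clo_closed {x : Set M} (hx : BddAbove x) (s : Set M) (hs : s ⊆ clo x)
    (hne : s.Nonempty) : ∃ a ∈ clo x, IsLUB s a := by
  obtain ⟨m, hm⟩ := hx
  have hsub : {b | b ∈ x ∧ ∃ c ∈ s, b ≤ c} ⊆ x := fun b hb => hb.1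
  obtain ⟨a, ha⟩ := exists_isLUB (s := {b | b ∈ x ∧ ∃ c ∈ s, b ≤ c}) ⟨m, fun b hb => hm hb.1⟩
  refine ⟨a, ⟨_, hsub, ?_, ha⟩, ?_, ?_⟩
  · obtain ⟨c, hc⟩ := hne
    obtain ⟨t, ht, ⟨b, hb⟩, hl⟩ := hs hc
    exact ⟨b, ht hb, c, hc, hl.1 hb⟩
  · intro c hc
    obtain ⟨t, ht, hne', hl⟩ := hs hc
    exact hl.2 fun b hb => ha.1 ⟨ht hb, c, hc, hl.1 hb⟩
  · intro u hu
    refine ha.2 ?_
    rintro b ⟨hb, c, hc, hbc⟩
    exact hbc.trans (hu hc)

open Classical in
theorem clo_small [Infinite I] {x : Set M} (hx : Small I x) {m : M} (hm : m ∈ x)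
    (hmax : ∀ a ∈ x, a ≤ m) : Small I (clo x) := by
  have hsub : clo x ⊆ x ∪ range (fun b : x =>
      if h : ∃ a, IsLUB (x ∩ Iio (b : M)) a then h.choose else (b : M)) := by
    rintro a ⟨s, hs, hne, hl⟩
    by_cases ha : a ∈ x
    · exact Or.inl ha
    · right
      have hex : ∃ b ∈ x, a ≤ b := ⟨m, hm, hl.2 fun c hc => hmax c (hs hc)⟩
      obtain ⟨h1, h2⟩ := nxt_spec hex
      have h3 : a < nxt x a := lt_of_le_of_ne h2 (fun h => ha (h ▸ h1))
      have h4 : IsLUB (x ∩ Iio (nxt x a)) a := by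
        constructor
        · rintro c ⟨hc, hc'⟩
          by_contra h
          exact not_lt.2 (nxt_le hc (not_le.1 h).le) hc'
        · intro u hu
          refine hl.2 ?_
          intro c hc
          refine hu ⟨hs hc, (hl.1 hc).trans_lt h3⟩
      refine ⟨⟨nxt x a, h1⟩, ?_⟩
      have h5 : ∃ a', IsLUB (x ∩ Iio (nxt x a)) a' := ⟨a, h4⟩
      simp only [h5, dif_pos]
      exact h5.choose_spec.unique h4
  refine Small.mono (hx.union ?_) hsub
  exact (Cardinal.mk_range_le).trans hx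

/-- A small system with a largest point extends to a condition. -/
theorem finish₁ [Infinite I] {x : Set M} {T : I → M → M → Prop} (h : Pre U x T)
    (hx : Small I x) {m : M} (hm : m ∈ x) (hmax : ∀ a ∈ x, a ≤ m) :
    ∃ r : Cond M U, r.x = clo x ∧ r.T = pull x (clo x) T (fun _ => univ) := by
  refine ⟨⟨clo x, pull x (clo x) T (fun _ => univ), clo_small hx hm hmax,
    clo_closed ⟨m, fun a ha => hmax a ha⟩, h.pull ?_ (fun _ => Filter.univ_mem)⟩, rfl, rfl⟩
  rintro a ⟨s, hs, hne, hl⟩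
  exact ⟨m, hm, hl.2 fun c hc => hmax c (hs hc)⟩

/-- A branch system through a small system. -/
theorem exists_branch (hU : NormMeas U) {x : Set M} {T : I → M → M → Prop} (h : Pre U x T)
    (hx : Small I x) : ∃ b, Branch U x T b := by
  classical
  rcases x.eq_empty_or_nonempty with rfl | hne
  · exact ⟨fun _ => ∅, fun j => subset_rfl, fun j a c _ hc => hc.elim,
      fun j a c ha => ha.elim, fun a ha => ha.elim⟩
  · obtain ⟨z, rfl⟩ := hx.range_or hne
    refine ⟨fun j => if ∀ k < j, ∀ l < j, z k < z l → T j (z k) (z l) then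
      dcl T j {a | ∃ k < j, a = z k} else ∅, ?_, ?_, ?_, ?_⟩
    · intro j
      by_cases hj : ∀ k < j, ∀ l < j, z k < z l → T j (z k) (z l)
      · rw [if_pos hj]
        refine dcl_sub h ?_
        rintro a ⟨k, -, rfl⟩
        exact ⟨k, rfl⟩
      · rw [if_neg hj]
        exact empty_subset _
    · intro j a c hac hc
      by_cases hj : ∀ k < j, ∀ l < j, z k < z l → T j (z k) (z l)
      · rw [if_pos hj] at hc ⊢
        exact dcl_down h hac hc
      · rw [if_neg hj] at hc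
        exact hc.elim
    · intro j a c ha hc hac
      by_cases hj : ∀ k < j, ∀ l < j, z k < z l → T j (z k) (z l)
      · rw [if_pos hj] at ha hc
        refine dcl_chain h ?_ ha hc hac
        rintro _ ⟨k, hk, rfl⟩ _ ⟨l, hl, rfl⟩ h'
        exact hj k hk l hl h'
      · rw [if_neg hj] at hc
        exact hc.elim
    · rintro _ ⟨k₀, rfl⟩
      have h1 : ∀ k l, {j | z k < z l → T j (z k) (z l)} ∈ U := by
        intro k l
        by_cases hkl : z k < z l
        · filter_upwards [h.large _ ⟨k, rfl⟩ _ ⟨l, rfl⟩ hkl] with j hj _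
          exact hj
        · exact Filter.mem_of_superset Filter.univ_mem fun j _ hj => (hkl hj).elim
      have h2 := hU.diag (fun k => {j | ∀ l < j, z k < z l → T j (z k) (z l)})
        (fun k => hU.diag (fun l => {j | z k < z l → T j (z k) (z l)}) (h1 k))
      filter_upwards [h2, hU.uni k₀] with j hj hj'
      have : ∀ k < j, ∀ l < j, z k < z l → T j (z k) (z l) := fun k hk l hl => hj k hk l hl
      rw [if_pos this]
      exact sub_dcl ⟨k₀, hj', rfl⟩

/-- A small bounded system extends to a condition, and the part of the condition up to a given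
point is the closure of the system. -/
theorem finish [Infinite I] (hU : NormMeas U) {x : Set M} {T : I → M → M → Prop}
    (h : Pre U x T) (hx : Small I x) (hbd : ∃ t, ∀ a ∈ x, a < t) :
    ∃ r : Cond M U, x ⊆ r.x ∧ (∀ j, ∀ a ∈ x, ∀ b ∈ x, (r.T j a b ↔ T j a b)) ∧
      ∀ ν ∈ x, (∀ a ≤ ν, (a ∈ r.x ↔ a ∈ clo x)) ∧
        ∀ j a b, b ≤ ν → (r.T j a b ↔ pull x (clo x) T (fun _ => univ) j a b) := by
  obtain ⟨t, ht⟩ := hbd
  obtain ⟨b, hb⟩ := exists_branch hU h hx
  have h1 := h.topp hb ht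
  obtain ⟨r, hr, hr'⟩ := finish₁ h1 (hx.insert t) (Or.inl rfl) (by
    rintro a (rfl | ha)
    · exact le_rfl
    · exact (ht a ha).le)
  have hxr : x ⊆ r.x := by
    rw [hr]
    exact (subset_insert t x).trans sub_clo
  have hT : ∀ j, ∀ a ∈ x, ∀ c ∈ x, (r.T j a c ↔ T j a c) := by
    intro j a ha c hc
    rw [hr', pull_iff h1 sub_clo (Or.inr ha) (Or.inr hc), topp_iff ht hc]
  refine ⟨r, hxr, hT, ?_⟩
  intro ν hν
  have hcl : ∀ a ≤ ν, (a ∈ clo (insert t x) ↔ a ∈ clo x) := by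
    intro a ha
    constructor
    · rintro ⟨s, hs, hne, hl⟩
      refine ⟨s, ?_, hne, hl⟩
      intro c hc
      rcases hs hc with rfl | h
      · exact (lt_irrefl _ (((hl.1 hc).trans ha).trans_lt (ht ν hν))).elim
      · exact h
    · rintro ⟨s, hs, hne, hl⟩
      exact ⟨s, hs.trans (subset_insert t x), hne, hl⟩
  refine ⟨fun a ha => by rw [hr]; exact hcl a ha, ?_⟩
  intro j a c hc
  have hn : ∀ a ≤ ν, nxt (insert t x) a = nxt x a := by
    intro a ha
    have h2 : ∃ b ∈ x, a ≤ b := ⟨ν, hν, ha⟩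
    have h3 : ∃ b ∈ insert t x, a ≤ b := ⟨ν, Or.inr hν, ha⟩
    refine le_antisymm (nxt_le (Or.inr (nxt_spec h2).1) (nxt_spec h2).2) ?_
    refine nxt_le ?_ (nxt_spec h3).2
    rcases (nxt_spec h3).1 with h4 | h4
    · have h5 : nxt (insert t x) a ≤ ν := nxt_le (Or.inr hν) ha
      rw [h4] at h5
      exact (lt_irrefl _ (h5.trans_lt (ht ν hν))).elim
    · exact h4
  rw [hr']
  unfold FU.pull
  constructor
  · rintro ⟨h2, h3, h4, -, -, h5⟩
    have haν : a ≤ ν := h4.le.trans hc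
    refine ⟨(hcl a haν).1 h2, (hcl c hc).1 h3, h4, Or.inr trivial, Or.inr trivial, ?_⟩
    rw [hn a haν, hn c hc] at h5
    have h6 : nxt x c ≤ ν := nxt_le hν hc
    rcases h5 with h5 | h5
    · exact Or.inl h5
    · exact Or.inr ((topp_iff ht (nxt_spec ⟨ν, hν, hc⟩).1).1 h5)
  · rintro ⟨h2, h3, h4, -, -, h5⟩
    have haν : a ≤ ν := h4.le.trans hc
    refine ⟨(hcl a haν).2 h2, (hcl c hc).2 h3, h4, Or.inr trivial, Or.inr trivial, ?_⟩
    rw [hn a haν, hn c hc]
    rcases h5 with h5 | h5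
    · exact Or.inl h5
    · exact Or.inr ((topp_iff ht (nxt_spec ⟨ν, hν, hc⟩).1).2 h5)

end Pool.Agent.W869.FU
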