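import Pool.Agent.W869.FU.Answer

/-!
# The ZFC implication for arbitrary well-ordered sets
-/

set_option autoImplicit false

namespace Pool.Agent.W869.FU

open Set Filter
open Cardinal hiding univ

section Tr

variable {I I' M M' Y : Type} [LinearOrder I] [LinearOrder I'] [LinearOrder M] [LinearOrder M']

theorem isNorm_tr (e : I ≃o I') {E : Y → I → Prop} (h : IsNorm E) :
    IsNorm fun (y : Y) (i : I') => E y (e.symm i) := by
  obtain ⟨h1, h2, h3, h4, h5, h6⟩ := h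
  refine ⟨?_, ?_, ?_, ?_, ?_, ?_⟩
  · intro y x hx
    obtain ⟨y', hy'⟩ := h1 y (fun i => x (e i)) (fun i hi => hx (e i) (by
      simpa only [OrderIso.symm_apply_apply] using hi))
    refine ⟨y', fun i => ?_⟩
    have := hy' (e.symm i)
    simpa only [OrderIso.apply_symm_apply] using this
  · intro y y'
    obtain ⟨z, hz⟩ := h2 y y'
    exact ⟨z, fun i => hz _⟩
  · intro x hx
    obtain ⟨y, hy⟩ := h3 (fun i => x (e i)) (by
      rintro ⟨y, hy⟩
      refine hx ⟨y, fun i => ?_⟩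
      have := hy (e.symm i)
      simpa only [OrderIso.apply_symm_apply] using this)
    refine ⟨y, fun i => ?_⟩
    have := hy (e.symm i)
    simpa only [OrderIso.apply_symm_apply] using this
  · intro y
    obtain ⟨i, hi⟩ := h4 y
    exact ⟨e i, by simpa only [OrderIso.symm_apply_apply] using hi⟩
  · intro η
    obtain ⟨y, hy⟩ := h5 (e.symm η)
    refine ⟨y, fun i => ?_⟩
    have := hy (e.symm i)
    rw [e.symm.lt_iff_lt] at this
    exact this
  · intro f y hf
    obtain ⟨η, y', hy'⟩ := h6 (fun i => e.symm (f (e i))) y (fun i hi => by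
      have := hf (e i) (by simpa only [OrderIso.symm_apply_apply] using hi)
      rw [← e.lt_iff_lt, OrderIso.apply_symm_apply]
      exact this)
    refine ⟨e η, y', fun i hi => ?_⟩
    have := hy' _ hi
    simp only [OrderIso.apply_symm_apply] at this
    rw [← this, OrderIso.apply_symm_apply]

theorem coherent_tr (e : I ≃o I') (e' : M ≃o M') {E : Y → I → Prop} {a : M → I → M → Prop} :
    Coherent (fun (y : Y) (i : I') => E y (e.symm i))
      (fun α i ξ => a (e'.symm α) (e.symm i) (e'.symm ξ)) ↔ Coherent E a := by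
  constructor
  · intro h α β hαβ
    obtain ⟨y, hy⟩ := h (e' α) (e' β) (e'.lt_iff_lt.2 hαβ)
    refine ⟨y, fun i hi ξ hξ => ?_⟩
    have := hy (e i) (by simpa only [OrderIso.symm_apply_apply] using hi) (e' ξ)
      (e'.lt_iff_lt.2 hξ)
    simpa only [OrderIso.symm_apply_apply] using this
  · intro h α β hαβ
    obtain ⟨y, hy⟩ := h (e'.symm α) (e'.symm β) (e'.symm.lt_iff_lt.2 hαβ)
    exact ⟨y, fun i hi ξ hξ => hy _ hi _ (e'.symm.lt_iff_lt.2 hξ)⟩

theorem isThread_tr (e : I ≃o I') (e' : M ≃o M') {E : Y → I → Prop} {a : M → I → M → Prop}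
    {F : I → M → Prop} :
    IsThread (fun (y : Y) (i : I') => E y (e.symm i))
      (fun α i ξ => a (e'.symm α) (e.symm i) (e'.symm ξ)) (fun i ξ => F (e.symm i) (e'.symm ξ)) ↔
      IsThread E a F := by
  constructor
  · intro h α
    obtain ⟨y, hy⟩ := h (e' α)
    refine ⟨y, fun i hi ξ hξ => ?_⟩
    have := hy (e i) (by simpa only [OrderIso.symm_apply_apply] using hi) (e' ξ)
      (e'.lt_iff_lt.2 hξ)
    simpa only [OrderIso.symm_apply_apply] using this
  · intro h α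
    obtain ⟨y, hy⟩ := h (e'.symm α)
    exact ⟨y, fun i hi ξ hξ => hy _ hi _ (e'.symm.lt_iff_lt.2 hξ)⟩

theorem hypothesis_tr (e : I ≃o I') (e' : M ≃o M') (h : Hypothesis I M) : Hypothesis I' M' := by
  obtain ⟨Y₀, E₀, Y₁, E₁, hE₀, hE₁, hbdd, hcard, hlist, ⟨a, ha, hno⟩, hthr⟩ := h
  refine ⟨Y₀, fun y i => E₀ y (e.symm i), Y₁, fun y i => E₁ y (e.symm i), isNorm_tr e hE₀,
    isNorm_tr e hE₁, ?_, ?_, ?_, ?_, ?_⟩
  · intro f
    obtain ⟨γ, hγ⟩ := hbdd fun i => e'.symm (f (e i))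
    refine ⟨e' γ, fun i => ?_⟩
    have := hγ (e.symm i)
    simp only [OrderIso.apply_symm_apply] at this
    rwa [← e'.symm.lt_iff_lt, OrderIso.symm_apply_apply]
  · rintro α ⟨f, hf⟩
    refine hcard (e'.symm α) ⟨fun m => e'.symm (f (e' m)), fun β => ?_⟩
    obtain ⟨γ, hγ, hγ'⟩ := hf (e' β)
    refine ⟨e'.symm γ, e'.symm.lt_iff_lt.2 hγ, ?_⟩
    simp only [OrderIso.apply_symm_apply, hγ', OrderIso.symm_apply_apply]
  · intro α
    obtain ⟨γ, G, hG⟩ := hlist (e'.symm α)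
    refine ⟨e' γ, fun β i => e' (G (e'.symm β) (e.symm i)), fun g hg => ?_⟩
    obtain ⟨β, hβ, hβ'⟩ := hG (fun i => e'.symm (g (e i))) (fun i => e'.symm.lt_iff_lt.2 (hg _))
    refine ⟨e' β, e'.lt_iff_lt.2 hβ, fun i => ?_⟩
    simp only [OrderIso.symm_apply_apply, hβ', OrderIso.apply_symm_apply]
  · refine ⟨fun α i ξ => a (e'.symm α) (e.symm i) (e'.symm ξ), (coherent_tr e e').2 ha, ?_⟩
    rintro ⟨F, hF⟩
    refine hno ⟨fun i ξ => F (e i) (e' ξ), ?_⟩
    rw [← isThread_tr e e']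
    simpa only [OrderIso.apply_symm_apply] using hF
  · intro a ha
    have h1 := hthr (fun α i ξ => a (e' α) (e i) (e' ξ)) (by
      rw [← coherent_tr e e']
      simpa only [OrderIso.apply_symm_apply] using ha)
    obtain ⟨F, hF⟩ := h1
    refine ⟨fun i ξ => F (e.symm i) (e'.symm ξ), ?_⟩
    have h2 := (isThread_tr e e').2 hF
    simpa only [OrderIso.apply_symm_apply] using h2

end Tr

/-- A well-ordered set all of whose proper initial segments have smaller cardinality. -/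
theorem iso_ord {M : Type} [LinearOrder M] [WellFoundedLT M]
    (h : ∀ α : M, ¬ ∃ f : M → M, ∀ β, ∃ γ, γ < α ∧ f γ = β) :
    Nonempty (M ≃o (#M).ord.ToType) := by
  classical
  have h1 : (#M).ord = Ordinal.type (α := M) (· < ·) := by
    refine le_antisymm (Cardinal.ord_le_type _) ?_
    by_contra hcon
    rw [not_le] at hcon
    obtain ⟨α, hα⟩ := Ordinal.typein_surj (α := M) (· < ·) hcon
    have h3 := Ordinal.card_typein (r := (· < · : M → M → Prop)) α
    rw [hα, Cardinal.card_ord] at h3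
    obtain ⟨φ⟩ := Cardinal.eq.1 h3
    refine h α ⟨fun m => if hm : m < α then φ.symm ⟨m, hm⟩ else m, fun β => ?_⟩
    refine ⟨(φ β).1, (φ β).2, ?_⟩
    have h4 : ((φ β).1 : M) < α := (φ β).2
    simp only [dif_pos h4]
    exact φ.symm_apply_apply β
  have h2 : Ordinal.type (α := M) (· < ·) =
      Ordinal.type (α := (#M).ord.ToType) (· < ·) := by
    rw [Ordinal.type_toType, h1]
  obtain ⟨r⟩ := Ordinal.type_eq.1 h2
  exact ⟨OrderIso.ofRelIsoLT r⟩

/-- A well-ordered set with a normal ultrafilter has no smaller initial segment of the same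
cardinality. -/
theorem card_of_norm {I Y : Type} [LinearOrder I] {E : Y → I → Prop} (h : IsNorm E) (α : I) :
    ¬ ∃ f : I → I, ∀ β, ∃ γ, γ < α ∧ f γ = β := by
  rintro ⟨f, hf⟩
  choose g hg hg' using hf
  obtain ⟨y, hy⟩ := h.2.2.2.2.1 α
  obtain ⟨η, y', hy'⟩ := h.2.2.2.2.2 g y (fun ξ hξ => (hg ξ).trans ((hy ξ).1 hξ))
  obtain ⟨ξ, hξ⟩ := h.2.2.2.1 y'
  obtain ⟨y'', hy''⟩ := h.2.2.2.2.1 ξ
  obtain ⟨z, hz⟩ := h.2.1 y' y''
  obtain ⟨ξ', hξ'⟩ := h.2.2.2.1 z
  have h1 := (hz ξ').1 hξ'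
  have h2 : g ξ = g ξ' := (hy' _ hξ).trans (hy' _ h1.1).symm
  have h3 : ξ = ξ' := by rw [← hg' ξ, ← hg' ξ', h2]
  exact ((hy'' ξ').1 h1.2).ne h3

/-- The ZFC theorem. -/
theorem answer' {I M : Type} [LinearOrder I] [LinearOrder M] [WellFoundedLT I]
    [WellFoundedLT M] (h : Hypothesis I M) :
    ∃ (δ : Cardinal.{0}) (U₀ U₁ : Ultrafilter δ.ord.ToType),
      IsNormalMeasure δ U₀ ∧ IsNormalMeasure δ U₁ ∧
      ∃ lam : Ordinal.{0}, Order.IsSuccLimit lam ∧
        (¬ ∃ A, UnboundedIn lam A ∧ Fresh U₀ lam A) ∧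
        ∃ A, UnboundedIn lam A ∧ Fresh U₁ lam A := by
  have h' := h
  obtain ⟨Y₀, E₀, Y₁, E₁, hE₀, -, -, hcard, -⟩ := h'
  obtain ⟨e⟩ := iso_ord (card_of_norm hE₀)
  obtain ⟨e'⟩ := iso_ord hcard
  exact ⟨#I, answer (hypothesis_tr e e' h)⟩

end Pool.Agent.W869.FU
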