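import Pool.Agent.W869.FU.Forc
import Pool.Agent.W869.FU.Transport

/-!
# Forcing the hypothesis
-/

set_option autoImplicit false

namespace Pool.Agent.W869.FU

open Set Filter
open Cardinal hiding univ

theorem cond_nonempty {I M : Type} [LinearOrder I] [WellFoundedLT I] [LinearOrder M]
    (U : Ultrafilter I) : Nonempty (Cond M U) := ⟨⟨∅, fun _ _ _ => False, by
  unfold Small
  rw [Cardinal.mk_eq_zero]
  exact bot_le, fun s hs hne => by
    obtain ⟨a, ha⟩ := hne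
    exact (hs ha).elim, ⟨fun _ _ _ h => h.elim, fun _ _ _ _ h => h.elim,
      fun _ _ _ _ h => h.elim, fun a ha => ha.elim⟩⟩⟩

theorem forced {δ μ : Cardinal.{0}} (hδμ : δ < μ)
    (h2 : ∃ U₀ U₁ : Ultrafilter δ.ord.ToType, U₀ ≠ U₁ ∧ IsNormalMeasure δ U₀ ∧
      IsNormalMeasure δ U₁) (h3 : ∃ W : Ultrafilter μ.ord.ToType, IsNormalMeasure μ W) :
    ∃ (P : Type) (_ : Preorder P), Nonempty P ∧
      ∀ p : P, p ∈ HypothesisN P δ.ord.ToType μ.ord.ToType := by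
  obtain ⟨W, hW⟩ := h3
  have hW' := normMeas_of hW
  obtain ⟨U₀, U₁, hne, hMB, h0, h1⟩ : ∃ U₀ U₁ : Ultrafilter δ.ord.ToType, U₀ ≠ U₁ ∧
      ¬ MBelow U₁ U₀ ∧ NormMeas U₀ ∧ NormMeas U₁ := by
    obtain ⟨V₀, V₁, hne, h0, h1⟩ := h2
    by_cases h : MBelow V₁ V₀
    · exact ⟨V₁, V₀, hne.symm, fun h' => MBelow.asymm h h', normMeas_of h1, normMeas_of h0⟩
    · exact ⟨V₀, V₁, hne, h, normMeas_of h0, normMeas_of h1⟩
  obtain ⟨m₀, hm₀⟩ := exists_Iio (M := μ.ord.ToType) (c := δ) (by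
    rw [Cardinal.mk_ord_toType]
    exact hδμ)
  have hI : #δ.ord.ToType ≤ #(Iio m₀) := by
    rw [Cardinal.mk_ord_toType]
    exact hm₀
  exact ⟨Cond μ.ord.ToType U₁, inferInstance, cond_nonempty U₁,
    fun p => forced_hyp h0 h1 hne hMB hW' hI p⟩

end Pool.Agent.W869.FU
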