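import Pool.Agent.W869.FU.NoThread
import Pool.Agent.W869.FU.Defs

/-!
# The hypothesis is forced
-/

set_option autoImplicit false
set_option linter.unusedSectionVars false
set_option linter.unusedVariables false
set_option linter.style.haveILetI false

namespace Pool.Agent.W869.FU

open Set Filter Pool.Agent.Helper669.Forcing
open Cardinal hiding univ

/-! ### Regular statements -/

section Regular

variable {P : Type} [Preorder P]

theorem reg_fnot {φ : Set P} (hφ : Down φ) : Reg (fnot φ) where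
  down := fun p hp q hq => fnot_down hp hq
  dense := by
    intro p h q hq hq'
    obtain ⟨r, hr, hr'⟩ := h q hq
    exact hr' r le_rfl (hφ q hq' r hr)

theorem reg_fand {φ ψ : Set P} (hφ : Reg φ) (hψ : Reg ψ) : Reg (fand φ ψ) where
  down := fun p hp q hq => ⟨hφ.down p hp.1 q hq, hψ.down p hp.2 q hq⟩
  dense := fun p h => ⟨hφ.dense p fun q hq => by
      obtain ⟨r, hr, hr'⟩ := h q hq
      exact ⟨r, hr, hr'.1⟩, hψ.dense p fun q hq => by
      obtain ⟨r, hr, hr'⟩ := h q hq
      exact ⟨r, hr, hr'.2⟩⟩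

theorem reg_fall {ι : Type*} {φ : ι → Set P} (h : ∀ i, Reg (φ i)) : Reg (fall φ) where
  down := fun p hp q hq i => (h i).down p (hp i) q hq
  dense := fun p h' i => (h i).dense p fun q hq => by
      obtain ⟨r, hr, hr'⟩ := h' q hq
      exact ⟨r, hr, hr' i⟩

theorem reg_fground (h : Prop) : Reg (fground (P := P) h) where
  down := fun p hp q hq => hp
  dense := fun p h' => by
    obtain ⟨r, -, hr'⟩ := h' p le_rfl
    exact hr'

theorem reg_fimp {φ ψ : Set P} (hφ : Down φ) : Reg (fimp φ ψ) :=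
  reg_fnot (down_fand hφ (down_fnot _))

theorem reg_fex {ι : Type*} (φ : ι → Set P) : Reg (fex φ) :=
  reg_fnot (down_fall fun _ => down_fnot _)

theorem mem_fimp_reg {φ ψ : Set P} (hφ : Down φ) (hψ : Reg ψ) {p : P} :
    p ∈ fimp φ ψ ↔ ∀ h ≤ p, h ∈ φ → h ∈ ψ := by
  rw [mem_fimp]
  constructor
  · intro h q hq hq'
    refine hψ.dense q fun r hr => ?_
    exact h r (hr.trans hq) (hφ q hq' r hr)
  · intro h q hq hq'
    exact ⟨q, le_rfl, h q hq hq'⟩

theorem mem_fiff {φ ψ : Set P} (hφ : Reg φ) (hψ : Reg ψ) {p : P} :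
    p ∈ fiff φ ψ ↔ ∀ h ≤ p, (h ∈ φ ↔ h ∈ ψ) := by
  unfold fiff
  rw [mem_fand, mem_fimp_reg hφ.down hψ, mem_fimp_reg hψ.down hφ]
  constructor
  · rintro ⟨h1, h2⟩ h hh
    exact ⟨h1 h hh, h2 h hh⟩
  · intro h
    exact ⟨fun q hq => (h q hq).1, fun q hq => (h q hq).2⟩

theorem mem_meets_const {h : Prop} {p : P} : p ∈ meets {_q : P | h} ↔ h := by
  constructor
  · intro hp
    obtain ⟨r, -, s, hs, -⟩ := hp p le_rfl
    exact hs
  · intro hh q hq
    exact ⟨q, le_rfl, q, hh, le_rfl⟩

variable {I : Type} [LinearOrder I] [WellFoundedLT I] [Infinite I]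

theorem decide_all (hcl : Closed I P) (φ : I → Set P) (hφ : ∀ i, Down (φ i)) (p : P) :
    ∃ q ≤ p, ∀ i, q ∈ φ i ∨ q ∈ fnot (φ i) :=
  fusion hcl (fun i => {q | q ∈ φ i ∨ q ∈ fnot (φ i)})
    (fun i p hp q hq => hp.imp (fun h => hφ i p h q hq) (fun h => fnot_down h hq))
    (fun i p => Reg.decide p) p

theorem decide_fun (hcl : Closed I P) {Y : Type} {R : I → Y → Set P} {p : P}
    (hR : p ∈ IsFun R) : ∃ q ≤ p, ∃ f : I → Y, ∀ i, q ∈ meets (R i (f i)) := by
  obtain ⟨q, hq, hq'⟩ := fusion hcl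
    (fun i => {q | (∃ y, q ∈ meets (R i y)) ∨ q ∈ fnot (IsFun R)})
    (fun i p hp q hq => hp.imp (fun ⟨y, hy⟩ => ⟨y, down_meets _ _ hy _ hq⟩)
      (fun h => fnot_down h hq))
    (fun i p => by
      by_cases h : ∃ r ≤ p, r ∈ IsFun R
      · obtain ⟨r, hr, hr'⟩ := h
        obtain ⟨s, hs, y, hy⟩ := mem_fex.1 (hr'.1 i) r le_rfl
        exact ⟨s, hs.trans hr, Or.inl ⟨y, hy⟩⟩
      · push Not at h
        exact ⟨p, le_rfl, Or.inr h⟩) p
  have h1 : ∀ i, ∃ y, q ∈ meets (R i y) := fun i =>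
    (hq' i).resolve_right fun h => fnot_not h (down_IsFun R p hR q hq)
  choose f hf using h1
  exact ⟨q, hq, f, hf⟩

/-! ### The ground model ultrafilters -/

/-- The canonical names for the members of a ground model ultrafilter. -/
def EN (P : Type) (V : Ultrafilter I) (y : {x : Set I // x ∈ V}) (ξ : I) : Set P :=
  {_q : P | ξ ∈ y.1}

omit [WellFoundedLT I] [Infinite I] in
theorem mem_EN {V : Ultrafilter I} {y : {x : Set I // x ∈ V}} {ξ : I} {p : P} :
    p ∈ meets (EN P V y ξ) ↔ ξ ∈ y.1 := mem_meets_const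

theorem isNormN (hcl : Closed I P) {V : Ultrafilter I} (hV : NormMeas V) (p : P) :
    p ∈ IsNormN (EN P V) := by
  refine ⟨?_, ?_, ?_, ?_, ?_, ?_⟩
  · intro y x
    rw [mem_fimp]
    intro q hq hq'
    obtain ⟨r, hr, hdec⟩ := decide_all hcl (fun ξ => meets (x ξ)) (fun _ => down_meets _) q
    have hX : {ξ | r ∈ meets (x ξ)} ∈ V := by
      filter_upwards [y.2] with ξ hξ
      have h1 := (mem_fimp_reg (down_meets _) (reg_meets _)).1 (hq' ξ) r hr (mem_EN.2 hξ)
      exact h1
    refine ⟨r, hr, mem_fex_of_mem (⟨_, hX⟩ : {x : Set I // x ∈ V}) ?_ ?_⟩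
    · exact down_fall fun _ => down_fand (down_fimp _ _) (down_fimp _ _)
    · intro ξ
      rw [mem_fiff (reg_meets _) (reg_meets _)]
      intro h hh
      rw [mem_EN]
      constructor
      · intro h1
        exact down_meets _ _ h1 _ hh
      · intro h1
        exact (hdec ξ).resolve_right fun h2 => fnot_not (fnot_down h2 hh) h1
  · intro y y'
    refine mem_fex_of_mem (⟨y.1 ∩ y'.1, Filter.inter_mem y.2 y'.2⟩ : {x : Set I // x ∈ V}) ?_ ?_
    · exact down_fall fun _ => down_fand (down_fimp _ _) (down_fimp _ _)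
    · intro ξ
      rw [mem_fiff (reg_meets _) (reg_fand (reg_meets _) (reg_meets _))]
      intro h hh
      rw [mem_EN, mem_fand, mem_EN, mem_EN]
      exact Iff.rfl
  · intro x
    rw [mem_fimp]
    intro q hq hq'
    obtain ⟨r, hr, hdec⟩ := decide_all hcl (fun ξ => meets (x ξ)) (fun _ => down_meets _) q
    have hnX : {ξ | r ∈ meets (x ξ)} ∉ V := by
      intro hX
      refine hq' r hr ?_
      refine mem_fex_of_mem (⟨_, hX⟩ : {x : Set I // x ∈ V}) ?_ ?_
      · exact down_fall fun _ => down_fand (down_fimp _ _) (down_fimp _ _)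
      · intro ξ
        rw [mem_fiff (reg_meets _) (reg_meets _)]
        intro h hh
        rw [mem_EN]
        constructor
        · intro h1
          exact down_meets _ _ h1 _ hh
        · intro h1
          exact (hdec ξ).resolve_right fun h2 => fnot_not (fnot_down h2 hh) h1
    have hX : {ξ | r ∈ meets (x ξ)}ᶜ ∈ V := Ultrafilter.compl_mem_iff_notMem.2 hnX
    refine ⟨r, hr, mem_fex_of_mem (⟨_, hX⟩ : {x : Set I // x ∈ V}) ?_ ?_⟩
    · exact down_fall fun _ => down_fand (down_fimp _ _) (down_fimp _ _)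
    · intro ξ
      rw [mem_fiff (reg_meets _) (reg_fnot (down_meets _))]
      intro h hh
      rw [mem_EN]
      constructor
      · intro h1
        exact fnot_down ((hdec ξ).resolve_left h1) hh
      · intro h1 h2
        exact fnot_not h1 (down_meets _ _ h2 _ hh)
  · intro y
    obtain ⟨ξ, hξ⟩ := V.nonempty_of_mem y.2
    exact mem_fex_of_mem ξ (down_meets _) (mem_EN.2 hξ)
  · intro η
    refine mem_fex_of_mem (⟨Ioi η, hV.uni η⟩ : {x : Set I // x ∈ V}) ?_ ?_
    · exact down_fall fun _ => down_fand (down_fimp _ _) (down_fimp _ _)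
    · intro ξ
      rw [mem_fiff (reg_meets _) (reg_fground _)]
      intro h hh
      rw [mem_EN, mem_fground]
      exact Iff.rfl
  · intro f y
    rw [mem_fimp]
    rintro q hq ⟨hf, hf'⟩
    obtain ⟨r, hr, g, hg⟩ := decide_fun hcl hf
    have hreg : ∀ ξ ∈ y.1, g ξ < ξ := by
      intro ξ hξ
      have h1 := (mem_fimp_reg (down_meets _) (reg_fall fun b => reg_fimp (down_meets _))).1
        (hf' ξ) r hr (mem_EN.2 hξ) (g ξ)
      exact (mem_fimp_reg (down_meets _) (reg_fground _)).1 h1 r le_rfl (hg ξ)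
    obtain ⟨k, hk⟩ := hV.norm g (Filter.mem_of_superset y.2 hreg)
    refine ⟨r, hr, mem_fex_of_mem k (down_fex _) (mem_fex_of_mem
      (⟨{ξ | g ξ = k}, hk⟩ : {x : Set I // x ∈ V}) (down_fall fun _ => down_fimp _ _) ?_)⟩
    intro ξ
    rw [mem_fimp_reg (down_meets _) (reg_meets _)]
    intro h hh hξ
    have h1 : g ξ = k := mem_EN.1 hξ
    rw [← h1]
    exact down_meets _ _ (hg ξ) _ hh

variable {M : Type} [LinearOrder M]

omit [WellFoundedLT I] [Infinite I] in
theorem mem_inner {V : Ultrafilter I} {a b : I → M → Set P} {α : M} {q : P}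
    {y : {x : Set I // x ∈ V}} {i : I} :
    q ∈ fimp (meets (EN P V y i)) (fall fun ξ : M => fimp (fground (ξ < α))
      (fiff (meets (a i ξ)) (meets (b i ξ)))) ↔
      (i ∈ y.1 → ∀ ξ < α, ∀ h ≤ q, (h ∈ meets (a i ξ) ↔ h ∈ meets (b i ξ))) := by
  have hr : Reg (fall fun ξ : M => fimp (fground (ξ < α))
      (fiff (meets (a i ξ)) (meets (b i ξ)))) := reg_fall fun ξ => reg_fimp (down_fground _)
  rw [mem_fimp_reg (down_meets _) hr]
  constructor
  · intro h hi ξ hξ k hk
    have h1 := h q le_rfl (mem_EN.2 hi) ξ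
    have h2 := (mem_fimp_reg (down_fground _) (reg_fand (reg_fimp (down_meets _))
      (reg_fimp (down_meets _)))).1 h1 q le_rfl hξ
    exact (mem_fiff (reg_meets _) (reg_meets _)).1 h2 k hk
  · intro h k hk hi ξ
    refine (mem_fimp_reg (down_fground _) (reg_fand (reg_fimp (down_meets _))
      (reg_fimp (down_meets _)))).2 ?_
    intro l hl hξ
    refine (mem_fiff (reg_meets _) (reg_meets _)).2 ?_
    intro m hm
    exact h (mem_EN.1 hi) ξ hξ m (hm.trans (hl.trans hk))

omit [WellFoundedLT I] [Infinite I] in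
theorem mem_coherentN {V : Ultrafilter I} {a : M → I → M → Set P} {p : P} :
    p ∈ CoherentN (EN P V) a ↔ ∀ α β, α < β → ∀ q ≤ p, ∃ r ≤ q, ∃ X ∈ V, ∀ i ∈ X, ∀ ξ < α,
      ∀ s ≤ r, (s ∈ meets (a β i ξ) ↔ s ∈ meets (a α i ξ)) := by
  unfold CoherentN
  constructor
  · intro h α β hαβ q hq
    have h1 := (mem_fimp_reg (down_fground _) (reg_fex _)).1 (h α β) q hq hαβ
    obtain ⟨r, hr, y, hy⟩ := mem_fex.1 h1 q le_rfl
    refine ⟨r, hr, y.1, y.2, fun i hi ξ hξ s hs => ?_⟩
    exact (mem_inner.1 (hy i)) hi ξ hξ s hs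
  · intro h α β
    refine (mem_fimp_reg (down_fground _) (reg_fex _)).2 ?_
    intro q hq hαβ
    rw [mem_fex]
    intro r hr
    obtain ⟨s, hs, X, hX, hX'⟩ := h α β hαβ r (hr.trans hq)
    exact ⟨s, hs, ⟨X, hX⟩, fun i => mem_inner.2 fun hi ξ hξ k hk => hX' i hi ξ hξ k hk⟩

omit [WellFoundedLT I] [Infinite I] in
theorem mem_threadN {V : Ultrafilter I} {a : M → I → M → Set P} {F : I → M → Set P} {p : P} :
    p ∈ IsThreadN (EN P V) a F ↔ ∀ α, ∀ q ≤ p, ∃ r ≤ q, ∃ X ∈ V, ∀ i ∈ X, ∀ ξ < α,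
      ∀ s ≤ r, (s ∈ meets (F i ξ) ↔ s ∈ meets (a α i ξ)) := by
  unfold IsThreadN
  constructor
  · intro h α q hq
    obtain ⟨r, hr, y, hy⟩ := mem_fex.1 (h α) q hq
    refine ⟨r, hr, y.1, y.2, fun i hi ξ hξ s hs => ?_⟩
    exact (mem_inner.1 (hy i)) hi ξ hξ s hs
  · intro h α
    rw [mem_fex]
    intro r hr
    obtain ⟨s, hs, X, hX, hX'⟩ := h α r hr
    exact ⟨s, hs, ⟨X, hX⟩, fun i => mem_inner.2 fun hi ξ hξ k hk => hX' i hi ξ hξ k hk⟩

end Regular

/-! ### Cardinal arithmetic in the ground model -/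

section Arith

variable {I M : Type} [LinearOrder I] [WellFoundedLT I] [LinearOrder M] [WellFoundedLT M]
variable {W : Ultrafilter M} {m₀ : M}

theorem exists_Iio {c : Cardinal.{0}} (h : c < #M) : ∃ m : M, c ≤ #(Iio m) := by
  have h1 : c.ord < Ordinal.type (α := M) (· < ·) := by
    by_contra hc
    have h2 := Ordinal.card_le_card (not_lt.1 hc)
    rw [Cardinal.card_ord, Ordinal.card_type] at h2
    exact not_lt.2 h2 h
  obtain ⟨m, hm⟩ := Ordinal.typein_surj (α := M) (· < ·) h1
  refine ⟨m, ?_⟩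
  have h2 := Ordinal.card_typein (α := M) (r := (· < ·)) m
  rw [hm, Cardinal.card_ord] at h2
  exact h2.le

theorem exists_list [Infinite I] (hW : NormMeas W) (hI : #I ≤ #(Iio m₀)) (α : M) :
    ∃ (γ : M) (G : M → I → M), ∀ g : I → M, (∀ i, g i < α) → ∃ β < γ, ∀ i, G β i = g i := by
  classical
  obtain ⟨m, hm⟩ : ∃ m, α ≤ m ∧ m₀ ≤ m :=
    ⟨max α m₀, le_max_left _ _, le_max_right _ _⟩
  have hm2 : #I ≤ #(Iio m) := hI.trans (Cardinal.mk_le_mk_of_subset fun a ha =>
    lt_of_lt_of_le ha hm.2)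
  have hm1 : #(Iio α) ≤ #(Iio m) := Cardinal.mk_le_mk_of_subset fun a ha =>
    lt_of_lt_of_le ha hm.1
  have hm3 : ℵ₀ ≤ #(Iio m) := (Cardinal.aleph0_le_mk I).trans hm2
  have hZ : #{g : I → M // ∀ i, g i < α} ≤ #(Set (Iio m)) := by
    have e1 : #{g : I → M // ∀ i, g i < α} ≤ #(Set (I × Iio α)) :=
      Cardinal.mk_le_of_injective (f := fun g => {t : I × Iio α | g.1 t.1 = t.2}) (by
        intro g g' h
        apply Subtype.ext
        funext i
        have h1 : ((i, ⟨g.1 i, g.2 i⟩) : I × Iio α) ∈ {t : I × Iio α | g.1 t.1 = t.2} := rfl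
        have h3 : {t : I × Iio α | g.1 t.1 = t.2} = {t : I × Iio α | g'.1 t.1 = t.2} := h
        rw [h3] at h1
        exact h1.symm)
    have e2 : #(I × Iio α) ≤ #(Iio m) := by
      rw [Cardinal.mk_prod, Cardinal.lift_id, Cardinal.lift_id]
      calc #I * #(Iio α) ≤ #(Iio m) * #(Iio m) := mul_le_mul' hm2 hm1
        _ = #(Iio m) := Cardinal.mul_eq_self hm3
    refine e1.trans ?_
    rw [Cardinal.mk_set, Cardinal.mk_set]
    exact Cardinal.power_le_power_left two_ne_zero e2
  obtain ⟨γ, hγ⟩ := exists_Iio (M := M) (hZ.trans_lt (hW.card_set m))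
  obtain ⟨e⟩ := hγ
  refine ⟨γ, fun β i => if h : ∃ z, (e z : M) = β then h.choose.1 i else β, ?_⟩
  intro g hg
  refine ⟨e ⟨g, hg⟩, (e ⟨g, hg⟩).2, fun i => ?_⟩
  have h : ∃ z, (e z : M) = (e ⟨g, hg⟩ : M) := ⟨⟨g, hg⟩, rfl⟩
  show (if h : ∃ z, (e z : M) = (e ⟨g, hg⟩ : M) then h.choose.1 i else _) = g i
  rw [dif_pos h]
  have h2 : h.choose = ⟨g, hg⟩ := e.injective (Subtype.ext h.choose_spec)
  rw [h2]

end Arith

/-! ### The hypothesis is forced -/

section Main

variable {I M : Type} [LinearOrder I] [WellFoundedLT I] [LinearOrder M] [WellFoundedLT M]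
variable {U₀ U : Ultrafilter I} {W : Ultrafilter M} {m₀ : M}

theorem forced_hyp (hU₀ : NormMeas U₀) (hU : NormMeas U) (hne : U₀ ≠ U) (hMB : ¬ MBelow U U₀)
    (hW : NormMeas W) (hI : #I ≤ #(Iio m₀)) (p : Cond M U) :
    p ∈ HypothesisN (Cond M U) I M := by
  classical
  haveI := hU.infinite
  have hM := bddHyp hW hI
  have hcl : Closed I (Cond M U) := cond_closed hU hM
  refine mem_fex_of_mem {x : Set I // x ∈ U₀} (down_fex _) (mem_fex_of_mem (EN (Cond M U) U₀)
    (down_fex _) (mem_fex_of_mem {x : Set I // x ∈ U} (down_fex _)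
      (mem_fex_of_mem (EN (Cond M U) U) ?_ ?_)))
  · refine down_fand ?_ (down_fand ?_ (down_fand ?_ (down_fand ?_ (down_fand ?_ (down_fand ?_
      ?_)))))
    · exact fun _ _ q _ => isNormN hcl hU₀ q
    · exact fun _ _ q _ => isNormN hcl hU q
    · exact down_fall fun _ => down_fimp _ _
    · exact down_fall fun _ => down_fnot _
    · exact down_fall fun _ => down_fex _
    · exact down_fex _
    · exact down_fall fun _ => down_fimp _ _
  · refine ⟨isNormN hcl hU₀ p, isNormN hcl hU p, ?_, ?_, ?_, ?_, ?_⟩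
    · -- functions are bounded
      intro f
      rw [mem_fimp]
      intro q hq hf
      obtain ⟨r, hr, g, hg⟩ := decide_fun hcl hf
      obtain ⟨γ, hγ⟩ := bdd_fun hW hI g
      refine ⟨r, hr, mem_fex_of_mem γ (down_fall fun _ => down_fall fun _ => down_fimp _ _) ?_⟩
      intro i b
      rw [mem_fimp_reg (down_meets _) (reg_fground _)]
      intro h hh hb
      have h1 := IsFun.unique (down_IsFun f q hf h (hh.trans hr)) hb
        (down_meets _ _ (hg i) _ hh)
      rw [mem_fground, h1]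
      exact hγ i
    · -- `M` remains a cardinal
      intro α q hq hf
      obtain ⟨r, hr, f, hfun, honto⟩ := mem_fex.1 hf q le_rfl
      have hex : ∀ ν : M, ∃ (S : Cond M U) (γ : M), S ≤ r ∧ ν ∈ S.x ∧ γ < α ∧
          S ∈ meets (f γ ν) := by
        intro ν
        obtain ⟨S, hS, hν⟩ := exists_add hU hM r ν
        obtain ⟨T, hT, γ, h1, h2⟩ := mem_fex.1 (honto ν) S hS
        exact ⟨T, γ, hT.trans hS, hT.1 hν, h1, h2⟩
      choose S γ hS hν hγ hSf using hex
      obtain ⟨s, hs⟩ := press hW hI (fun ν => if h : Cof I ν then (S ν).restr h else q) (by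
        filter_upwards [cof_ae' hW hI] with ν hν
        rw [dif_pos hν]
        exact (S ν).restr_below hν)
      obtain ⟨γ₀, hγ₀⟩ := hW.norm γ (by
        filter_upwards [hW.uni α] with ν hν
        exact (hγ ν).trans hν)
      obtain ⟨ν, ⟨h1, h2⟩, h3⟩ := ((hs.and hγ₀).and (cof_ae' hW hI)).exists
      obtain ⟨ν', ⟨⟨h1', h2'⟩, h3'⟩, h4⟩ :=
        (((hs.and hγ₀).and (cof_ae' hW hI)).and (below_ae hW hI (S ν))).exists
      rw [dif_pos h3] at h1
      rw [dif_pos h3'] at h1'
      have hLR : LR ν' (S ν) (S ν') := LR.of_restr h3' (by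
        rw [h1', ← h1]
        exact (S ν).le_restr h3)
      obtain ⟨k, hk, -, hk'⟩ := amalg h3' (S ν') (S ν) (hν ν') h4 hLR
      have e1 := down_meets _ _ (hSf ν) _ hk'
      have e2 := down_meets _ _ (hSf ν') _ hk
      rw [h2] at e1
      rw [h2'] at e2
      have e3 := IsFun.unique (down_IsFun f r hfun k (hk'.trans (hS ν))) e1 e2
      exact (h4 ν (hν ν)).ne e3
    · -- listing functions
      intro α
      obtain ⟨γ, G, hG⟩ := exists_list hW hI α
      refine mem_fex_of_mem γ (down_fex _) (mem_fex_of_mem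
        (fun β i b => {_q : Cond M U | G β i = b}) ?_ ?_)
      · exact down_fand (down_fall fun _ => down_IsFun _) (down_fall fun _ => down_fimp _ _)
      · refine ⟨?_, ?_⟩
        · intro β
          refine ⟨fun i => mem_fex_of_mem (G β i) (down_meets _) (mem_meets_const.2 rfl), ?_⟩
          intro i b b'
          rw [mem_fimp_reg (down_fand (down_meets _) (down_meets _)) (reg_fground _)]
          rintro h hh ⟨h1, h2⟩
          exact (mem_meets_const.1 h1).symm.trans (mem_meets_const.1 h2)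
        · intro g
          rw [mem_fimp]
          rintro q hq ⟨hg, hg'⟩
          obtain ⟨r, hr, g₀, hg₀⟩ := decide_fun hcl hg
          have h1 : ∀ i, g₀ i < α := fun i =>
            (mem_fimp_reg (down_meets _) (reg_fground _)).1 (hg' i (g₀ i)) r hr (hg₀ i)
          obtain ⟨β, hβ, hβ'⟩ := hG g₀ h1
          refine ⟨r, hr, mem_fex_of_mem β ?_ ⟨hβ, ?_⟩⟩
          · exact down_fand (down_fground _) (down_fall fun _ => down_fall fun _ =>
              down_fand (down_fimp _ _) (down_fimp _ _))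
          · intro i b
            rw [mem_fiff (reg_meets _) (reg_meets _)]
            intro h hh
            rw [mem_meets_const]
            constructor
            · intro h2
              rw [← h2, hβ' i]
              exact down_meets _ _ (hg₀ i) _ hh
            · intro h2
              rw [hβ' i]
              exact IsFun.unique (down_IsFun g q hg h (hh.trans hr))
                (down_meets _ _ (hg₀ i) _ hh) h2
    · -- the generic sequence
      refine mem_fex_of_mem (Gen U) (down_fand ?_ (down_fnot _)) ⟨?_, ?_⟩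
      · exact down_fall fun _ => down_fall fun _ => down_fimp _ _
      · rw [mem_coherentN]
        exact gen_coh hU hM p
      · intro q hq hF
        obtain ⟨r, hr, F, hF'⟩ := mem_fex.1 hF q le_rfl
        rw [mem_threadN] at hF'
        exact gen_no_thread hU hW hI (fun i ξ => meets (F i ξ)) r hF'
    · -- coherent sequences modulo `U₀`
      intro a
      rw [mem_fimp]
      intro q hq ha
      rw [mem_coherentN] at ha
      obtain ⟨r, hr, F, hFd, hF⟩ := thread (A := fun α i ξ => meets (a α i ξ)) hU hW hI hne hMB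
        (fun _ _ _ => reg_meets _) ha
      refine ⟨r, hr, mem_fex_of_mem F (down_fall fun _ => down_fex _) ?_⟩
      rw [mem_threadN]
      intro α t ht
      obtain ⟨s, hs, X, hX, hX'⟩ := hF α t ht
      refine ⟨s, hs, X, hX, fun i hi ξ hξ h hh => ?_⟩
      have key : ∀ k ≤ h, (k ∈ F i ξ ↔ k ∈ meets (a α i ξ)) := fun k hk =>
        hX' i hi ξ hξ k (hk.trans hh)
      constructor
      · intro h1
        refine (reg_meets (a α i ξ)).dense h fun k hk => ?_
        obtain ⟨l, hl, u, hu, hlu⟩ := h1 k hk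
        exact ⟨l, hl, (key l (hl.trans hk)).1 (hFd i ξ u hu l hlu)⟩
      · intro h1 k hk
        exact ⟨k, le_rfl, k, (key k hk).2 (down_meets _ _ h1 _ hk), le_rfl⟩

end Main

end Pool.Agent.W869.FU
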