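import Pool.Agent.W869.FU.Thread

/-!
# The generic sequence is coherent and has no thread
-/

set_option autoImplicit false
set_option linter.unusedSectionVars false
set_option linter.unusedVariables false
set_option linter.style.haveILetI false

namespace Pool.Agent.W869.FU

open Set Filter Pool.Agent.Helper669.Forcing
open Cardinal hiding univ

variable {I M : Type} [LinearOrder I] [WellFoundedLT I] [LinearOrder M] [WellFoundedLT M]
variable {U : Ultrafilter I}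

/-- The name for the generic sequence: the `j`-th set is the set of predecessors of `α` in the
`j`-th generic tree. -/
def Gen (U : Ultrafilter I) (α : M) (j : I) (ξ : M) : Set (Cond M U) :=
  {p | ξ ∈ p.x ∧ α ∈ p.x ∧ p.T j ξ α}

theorem mem_meets_gen {p : Cond M U} {α ξ : M} {j : I} (hξ : ξ ∈ p.x) (hα : α ∈ p.x) :
    p ∈ meets (Gen U α j ξ) ↔ p.T j ξ α := by
  constructor
  · intro h
    obtain ⟨r, hr, s, hs, hrs⟩ := h p le_rfl
    have h1 : r.T j ξ α := (hrs.2 j ξ hs.1 α hs.2.1).2 hs.2.2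
    exact (hr.2 j ξ hξ α hα).1 h1
  · intro h q hq
    exact ⟨q, le_rfl, q, ⟨hq.1 hξ, hq.1 hα, (hq.2 j ξ hξ α hα).2 h⟩, le_rfl⟩

theorem gen_coh [Infinite I] (hU : NormMeas U) (hM : BddHyp I M) (p : Cond M U) :
    Coh U (fun α j ξ => meets (Gen U α j ξ)) p := by
  intro α β hαβ q hq
  obtain ⟨r₀, hr₀, hα⟩ := exists_add hU hM q α
  obtain ⟨r, hr, hβ⟩ := exists_add hU hM r₀ β
  have hα' : α ∈ r.x := hr.1 hα
  refine ⟨r, hr.trans hr₀, {j | r.T j α β}, r.pre.large α hα' β hβ hαβ, ?_⟩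
  intro j hj ξ hξ s hs
  have hj' : r.T j α β := hj
  constructor
  · intro h t ht
    obtain ⟨r', hr', u, hu, hu'⟩ := h t ht
    have h1 : r'.T j ξ β := (hu'.2 j ξ hu.1 β hu.2.1).2 hu.2.2
    have h2 : r' ≤ r := hr'.trans (ht.trans hs)
    have h3 : r'.T j α β := (h2.2 j α hα' β hβ).2 hj'
    exact ⟨r', hr', r', ⟨hu'.1 hu.1, h2.1 hα', r'.pre.tree _ _ _ _ h1 h3 hξ⟩, le_rfl⟩
  · intro h t ht
    obtain ⟨r', hr', u, hu, hu'⟩ := h t ht
    have h1 : r'.T j ξ α := (hu'.2 j ξ hu.1 α hu.2.1).2 hu.2.2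
    have h2 : r' ≤ r := hr'.trans (ht.trans hs)
    have h3 : r'.T j α β := (h2.2 j α hα' β hβ).2 hj'
    exact ⟨r', hr', r', ⟨hu'.1 hu.1, h2.1 hβ, r'.pre.trans _ _ _ _ h1 h3⟩, le_rfl⟩

/-- `p` forces that the sets named by `F` form a thread of the sequence named by `A`. -/
def Thr (U₀ : Ultrafilter I) (A : M → I → M → Set (Cond M U)) (F : I → M → Set (Cond M U))
    (p : Cond M U) : Prop :=
  ∀ α, ∀ r ≤ p, ∃ s ≤ r, ∃ X ∈ U₀, ∀ i ∈ X, ∀ ξ < α, ∀ h ≤ s, (h ∈ F i ξ ↔ h ∈ A α i ξ)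

theorem gen_no_thread [Infinite I] {W : Ultrafilter M} {m₀ : M} (hU : NormMeas U)
    (hW : NormMeas W) (hI : #I ≤ #(Iio m₀)) (F : I → M → Set (Cond M U)) (p : Cond M U)
    (h : Thr U (fun α j ξ => meets (Gen U α j ξ)) F p) : False := by
  classical
  have hM := bddHyp hW hI
  have hex : ∀ ν : M, ∃ (α : M) (S : Cond M U) (X : Set I), ν < α ∧ S ≤ p ∧ ν ∈ S.x ∧ α ∈ S.x ∧
      X ∈ U ∧ ∀ j ∈ X, ∀ ξ < α, ∀ h ≤ S, (h ∈ F j ξ ↔ h ∈ meets (Gen U α j ξ)) := by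
    intro ν
    obtain ⟨α, hα⟩ := hW.noMax ν
    obtain ⟨r₀, hr₀, hν⟩ := exists_add hU hM p ν
    obtain ⟨r, hr, hα'⟩ := exists_add hU hM r₀ α
    obtain ⟨s, hs, X, hX, hX'⟩ := h α r (hr.trans hr₀)
    exact ⟨α, s, X, hα, hs.trans (hr.trans hr₀), hs.1 (hr.1 hν), hs.1 hα', hX, hX'⟩
  choose α S X hα hS hν hαS hX hX' using hex
  obtain ⟨q, hq⟩ := press hW hI (fun ν => if h : Cof I ν then (S ν).restr h else p) (by
    filter_upwards [cof_ae' hW hI] with ν hν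
    rw [dif_pos hν]
    exact (S ν).restr_below hν)
  obtain ⟨Xi, hXi⟩ := hW.const_set hI X
  obtain ⟨ν, ⟨h1, h2⟩, h3⟩ := ((hq.and hXi).and (cof_ae' hW hI)).exists
  obtain ⟨ν', ⟨⟨h1', h2'⟩, h3'⟩, h4⟩ :=
    (((hq.and hXi).and (cof_ae' hW hI)).and (below_ae hW hI (S ν))).exists
  rw [dif_pos h3] at h1
  rw [dif_pos h3'] at h1'
  have hXiU : Xi ∈ U := h2 ▸ hX ν
  obtain ⟨j₀, hj₀, hj₀'⟩ := ((S ν).pre.large ν (hν ν) (α ν) (hαS ν) (hα ν)).and hXiU |>.exists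
  have hLR : LR ν' (S ν) (S ν') := LR.of_restr h3' (by
    rw [h1', ← h1]
    exact (S ν).le_restr h3)
  obtain ⟨r, hr, -, hr', hmin⟩ := amalg_min h3' (S ν') (S ν) (hν ν') h4 hLR j₀ (hU.ne j₀)
  have hνν' : ν < ν' := h4 ν (hν ν)
  have hnot : ¬ r.T j₀ ν (α ν') := by
    intro hT
    obtain ⟨e, he, he', he''⟩ := hmin ν (α ν') hνν' (hα ν').le hT
    have h5 : e ∈ ((S ν').restr h3').x := ⟨he, he'⟩
    rw [h1', ← h1] at h5
    have h6 : e < ν := h5.2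
    rcases he'' with rfl | he''
    · exact lt_irrefl _ h6
    · exact lt_asymm h6 ((S ν).pre.dom _ _ _ he'').2.2
  have hνr : ν ∈ r.x := hr'.1 (hν ν)
  have e1 : r ∈ F j₀ ν := by
    refine (hX' ν j₀ (by rw [h2]; exact hj₀') ν (hα ν) r hr').2 ?_
    rw [mem_meets_gen hνr (hr'.1 (hαS ν))]
    exact (hr'.2 j₀ ν (hν ν) (α ν) (hαS ν)).2 hj₀
  have e2 := (hX' ν' j₀ (by rw [h2']; exact hj₀') ν (hνν'.trans (hα ν')) r hr).1 e1
  rw [mem_meets_gen hνr (hr.1 (hαS ν'))] at e2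
  exact hnot e2

end Pool.Agent.W869.FU
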