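import Pool.Agent.W869.FU.Cond

/-!
# Lower bounds and amalgamation of conditions
-/

set_option autoImplicit false
set_option linter.unusedSectionVars false
set_option linter.unusedVariables false
set_option linter.style.haveILetI false

namespace Pool.Agent.W869.FU

open Set Filter
open Cardinal hiding univ

/-! ### Fusion -/

section Fusion

variable {I : Type} [LinearOrder I] [WellFoundedLT I]

/-- Every chain of size at most `|I|` has a lower bound. -/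
def Closed (I P : Type) [Preorder P] : Prop :=
  ∀ (K : Type) (p : K → P), #K ≤ #I → Nonempty K → (∀ k l, p k ≤ p l ∨ p l ≤ p k) →
    ∃ r, ∀ k, r ≤ p k

theorem fusion [Infinite I] {P : Type} [Preorder P] (hcl : Closed I P)
    (D : I → Set P) (hopen : ∀ i, ∀ p ∈ D i, ∀ q ≤ p, q ∈ D i)
    (hdense : ∀ i p, ∃ q ≤ p, q ∈ D i) (p : P) : ∃ q ≤ p, ∀ i, q ∈ D i := by
  classical
  let F : ∀ i : I, (∀ k, k < i → P) → P := fun i ih =>
    if h : ∃ r, r ≤ p ∧ (∀ k (hk : k < i), r ≤ ih k hk) ∧ r ∈ D i then h.choose else p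
  let f : I → P := (wellFounded_lt (α := I)).fix F
  have hf : ∀ i, f i = F i (fun k _ => f k) := fun i =>
    (wellFounded_lt (α := I)).fix_eq F i
  have key : ∀ i, f i ≤ p ∧ (∀ k < i, f i ≤ f k) ∧ f i ∈ D i := by
    intro i
    induction i using WellFoundedLT.induction with
    | ind i ih =>
      have hex : ∃ r, r ≤ p ∧ (∀ k (hk : k < i), r ≤ (fun k (_ : k < i) => f k) k hk) ∧
          r ∈ D i := by
        obtain ⟨r, hr⟩ := hcl (Option (Iio i)) (fun o => o.elim p (fun k => f k)) (by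
          rw [Cardinal.mk_option]
          calc #(Iio i) + 1 ≤ #I + #I := add_le_add (Cardinal.mk_set_le _)
                ((Cardinal.one_le_aleph0).trans (Cardinal.aleph0_le_mk I))
            _ = #I := Cardinal.add_eq_self (Cardinal.aleph0_le_mk I)) ⟨none⟩ (by
          rintro (_ | k) (_ | l)
          · exact Or.inl le_rfl
          · exact Or.inr (ih l l.2).1
          · exact Or.inl (ih k k.2).1
          · rcases lt_trichotomy (k : I) l with h | h | h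
            · exact Or.inr ((ih l l.2).2.1 k h)
            · have : k = l := Subtype.ext h
              subst this
              exact Or.inl le_rfl
            · exact Or.inl ((ih k k.2).2.1 l h))
        obtain ⟨q, hq, hq'⟩ := hdense i r
        exact ⟨q, hq.trans (hr none), fun k hk => hq.trans (hr (some ⟨k, hk⟩)), hq'⟩
      have hfi : f i = hex.choose := by
        rw [hf i]
        exact dif_pos hex
      rw [hfi]
      exact hex.choose_spec
  obtain ⟨r, hr⟩ := hcl (Option I) (fun o => o.elim p f) (by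
    rw [Cardinal.mk_option]
    calc #I + 1 ≤ #I + #I := add_le_add le_rfl
          ((Cardinal.one_le_aleph0).trans (Cardinal.aleph0_le_mk I))
      _ = #I := Cardinal.add_eq_self (Cardinal.aleph0_le_mk I)) ⟨none⟩ (by
    rintro (_ | k) (_ | l)
    · exact Or.inl le_rfl
    · exact Or.inr (key l).1
    · exact Or.inl (key k).1
    · rcases lt_trichotomy k l with h | h | h
      · exact Or.inr ((key l).2.1 k h)
      · subst h
        exact Or.inl le_rfl
      · exact Or.inl ((key k).2.1 l h))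
  exact ⟨r, hr none, fun i => hopen i _ (key i).2.2 _ (hr (some i))⟩

theorem fusion' [Infinite I] {P : Type} [Preorder P] (hcl : Closed I P) {J : Type}
    (hJ : #J ≤ #I)
    (D : J → Set P) (hopen : ∀ i, ∀ p ∈ D i, ∀ q ≤ p, q ∈ D i)
    (hdense : ∀ i p, ∃ q ≤ p, q ∈ D i) (p : P) : ∃ q ≤ p, ∀ i, q ∈ D i := by
  obtain ⟨e⟩ := hJ
  obtain ⟨q, hq, hq'⟩ := fusion hcl (fun i => {q | ∀ j, e j = i → q ∈ D j})
    (fun i p hp q hq j hj => hopen j p (hp j hj) q hq) (fun i p => by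
      by_cases h : ∃ j, e j = i
      · obtain ⟨j, hj⟩ := h
        obtain ⟨q, hq, hq'⟩ := hdense j p
        refine ⟨q, hq, fun j' hj' => ?_⟩
        have : j' = j := e.injective (hj'.trans hj.symm)
        rw [this]
        exact hq'
      · exact ⟨p, le_rfl, fun j hj => (h ⟨j, hj⟩).elim⟩) p
  exact ⟨q, hq, fun j => hq' (e j) j rfl⟩

end Fusion

variable {I M : Type} [LinearOrder I] [WellFoundedLT I] [LinearOrder M] [WellFoundedLT M]
variable {U : Ultrafilter I}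

/-! ### Unions -/

section Union

variable {K : Type}

/-- The union of the points. -/
def ux (p : K → Cond M U) : Set M := ⋃ k, (p k).x

/-- The union of the trees. -/
def uT (p : K → Cond M U) (j : I) (a b : M) : Prop := ∃ k, (p k).T j a b

theorem uT_iff {p : K → Cond M U} (tot : ∀ k l, p k ≤ p l ∨ p l ≤ p k) {k : K} {j : I} {a b : M}
    (ha : a ∈ (p k).x) (hb : b ∈ (p k).x) : uT p j a b ↔ (p k).T j a b := by
  constructor
  · rintro ⟨l, hl⟩
    have h1 := (p l).pre.dom _ _ _ hl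
    rcases tot k l with h | h
    · exact (h.2 j a h1.1 b h1.2.1).2 hl
    · exact (h.2 j a ha b hb).1 hl
  · intro h
    exact ⟨k, h⟩

theorem ux_two {p : K → Cond M U} (tot : ∀ k l, p k ≤ p l ∨ p l ≤ p k) {a b : M}
    (ha : a ∈ ux p) (hb : b ∈ ux p) : ∃ k, a ∈ (p k).x ∧ b ∈ (p k).x := by
  obtain ⟨k, hk⟩ := mem_iUnion.1 ha
  obtain ⟨l, hl⟩ := mem_iUnion.1 hb
  rcases tot k l with h | h
  · exact ⟨k, hk, h.1 hl⟩
  · exact ⟨l, h.1 hk, hl⟩

theorem ux_three {p : K → Cond M U} (tot : ∀ k l, p k ≤ p l ∨ p l ≤ p k) {a b c : M}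
    (ha : a ∈ ux p) (hb : b ∈ ux p) (hc : c ∈ ux p) :
    ∃ k, a ∈ (p k).x ∧ b ∈ (p k).x ∧ c ∈ (p k).x := by
  obtain ⟨k, hk, hk'⟩ := ux_two tot ha hb
  obtain ⟨l, hl⟩ := mem_iUnion.1 hc
  rcases tot k l with h | h
  · exact ⟨k, hk, hk', h.1 hl⟩
  · exact ⟨l, h.1 hk, h.1 hk', hl⟩

theorem union_dom {p : K → Cond M U} {j : I} {a b : M} (h : uT p j a b) :
    a ∈ ux p ∧ b ∈ ux p ∧ a < b := by
  obtain ⟨k, hk⟩ := h
  obtain ⟨h1, h2, h3⟩ := (p k).pre.dom _ _ _ hk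
  exact ⟨mem_iUnion.2 ⟨k, h1⟩, mem_iUnion.2 ⟨k, h2⟩, h3⟩

theorem union_pre {p : K → Cond M U} (tot : ∀ k l, p k ≤ p l ∨ p l ≤ p k) :
    Pre U (ux p) (uT p) := by
  refine ⟨fun j a b h => union_dom h, ?_, ?_, ?_⟩
  · intro j a b c h1 h2
    obtain ⟨k, ha, hb, hc⟩ := ux_three tot (union_dom h1).1 (union_dom h1).2.1 (union_dom h2).2.1
    rw [uT_iff tot ha hb] at h1
    rw [uT_iff tot hb hc] at h2
    exact ⟨k, (p k).pre.trans _ _ _ _ h1 h2⟩
  · intro j a b c h1 h2 hab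
    obtain ⟨k, ha, hb, hc⟩ := ux_three tot (union_dom h1).1 (union_dom h2).1 (union_dom h2).2.1
    rw [uT_iff tot ha hc] at h1
    rw [uT_iff tot hb hc] at h2
    exact ⟨k, (p k).pre.tree _ _ _ _ h1 h2 hab⟩
  · intro a ha b hb hab
    obtain ⟨k, ha, hb⟩ := ux_two tot ha hb
    filter_upwards [(p k).pre.large a ha b hb hab] with j hj
    exact ⟨k, hj⟩

theorem ux_small [Infinite I] {p : K → Cond M U} (hK : #K ≤ #I) : Small I (ux p) :=
  Small.iUnion hK fun k => (p k).small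

end Union

/-- Small sets are bounded in `M`. -/
def BddHyp (I M : Type) [LinearOrder M] : Prop := ∀ s : Set M, Small I s → ∃ t, ∀ a ∈ s, a < t

theorem cond_closed [Infinite I] (hU : NormMeas U) (hM : BddHyp I M) :
    Closed I (Cond M U) := by
  intro K p hK _ tot
  obtain ⟨r, h1, h2, -⟩ := finish hU (union_pre tot) (ux_small hK) (hM _ (ux_small hK))
  refine ⟨r, fun k => ⟨fun a ha => h1 (mem_iUnion.2 ⟨k, ha⟩), fun j a ha b hb => ?_⟩⟩
  rw [h2 j a (mem_iUnion.2 ⟨k, ha⟩) b (mem_iUnion.2 ⟨k, hb⟩), uT_iff tot ha hb]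

theorem nxt_eq {x y : Set M} {ν : M} (hx : ν ∈ x) (hy : ν ∈ y)
    (h : ∀ a < ν, (a ∈ x ↔ a ∈ y)) {a : M} (ha : a ≤ ν) : nxt x a = nxt y a := by
  have hx' : ∃ b ∈ x, a ≤ b := ⟨ν, hx, ha⟩
  have hy' : ∃ b ∈ y, a ≤ b := ⟨ν, hy, ha⟩
  have h1 : nxt x a ∈ y := by
    rcases (nxt_le hx ha).eq_or_lt with h2 | h2
    · rw [h2]; exact hy
    · exact (h _ h2).1 (nxt_spec hx').1
  have h2 : nxt y a ∈ x := by
    rcases (nxt_le hy ha).eq_or_lt with h2 | h2
    · rw [h2]; exact hx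
    · exact (h _ h2).2 (nxt_spec hy').1
  exact le_antisymm (nxt_le h2 (nxt_spec hy').2) (nxt_le h1 (nxt_spec hx').2)

/-- The systems agree below `ν`, and also the branches determined by `ν` for `j` outside `N`. -/
def Agr (ν : M) (N : Set I) (x₀ : Set M) (T₀ : I → M → M → Prop) (x₁ : Set M)
    (T₁ : I → M → M → Prop) : Prop :=
  ν ∈ x₀ ∧ ν ∈ x₁ ∧ (∀ a < ν, (a ∈ x₀ ↔ a ∈ x₁)) ∧
    ∀ j a b, b ≤ ν → (b = ν → j ∉ N) → (T₀ j a b ↔ T₁ j a b)

theorem Sim.agr {ν : M} {N : Set I} {p q : Cond M U} (h : Sim ν N p q) (hp : ν ∈ p.x)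
    (hq : ν ∈ q.x) : Agr ν N p.x p.T q.x q.T := by
  refine ⟨hp, hq, h.1.1, fun j a b hb hN => ?_⟩
  rcases hb.eq_or_lt with rfl | hb
  · exact h.2 j (hN rfl) a
  · exact h.1.2 j a b hb

theorem Agr.sim {ν : M} {N : Set I} {p q : Cond M U} (h : Agr ν N p.x p.T q.x q.T) :
    Sim ν N p q :=
  ⟨⟨h.2.2.1, fun j a b hb => h.2.2.2 j a b hb.le fun h => (hb.ne h).elim⟩,
    fun j hj a => h.2.2.2 j a ν le_rfl fun _ => hj⟩

/-- Lower bounds of chains of pairs with the same part below `ν`. -/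
theorem pair_closed [Infinite I] (hU : NormMeas U) (hM : BddHyp I M) {ν : M} (hν : Cof I ν)
    {N : Set I} (hN : Nᶜ ∈ U) {K : Type} (p q : K → Cond M U) (hK : #K ≤ #I) [Nonempty K]
    (tot : ∀ k l, (p k ≤ p l ∧ q k ≤ q l) ∨ (p l ≤ p k ∧ q l ≤ q k))
    (hp : ∀ k, ν ∈ (p k).x) (hq : ∀ k, ν ∈ (q k).x) (hs : ∀ k, Sim ν N (p k) (q k)) :
    ∃ r s : Cond M U, (∀ k, r ≤ p k) ∧ (∀ k, s ≤ q k) ∧ Sim ν N r s := by
  have totp : ∀ k l, p k ≤ p l ∨ p l ≤ p k := fun k l => (tot k l).imp And.left And.left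
  have totq : ∀ k l, q k ≤ q l ∨ q l ≤ q k := fun k l => (tot k l).imp And.right And.right
  obtain ⟨k₀⟩ := ‹Nonempty K›
  have hagr : Agr ν N (ux p) (uT p) (ux q) (uT q) := by
    refine ⟨mem_iUnion.2 ⟨k₀, hp k₀⟩, mem_iUnion.2 ⟨k₀, hq k₀⟩, ?_, ?_⟩
    · intro a ha
      constructor
      · intro h
        obtain ⟨k, hk⟩ := mem_iUnion.1 h
        exact mem_iUnion.2 ⟨k, ((hs k).1.1 a ha).1 hk⟩
      · intro h
        obtain ⟨k, hk⟩ := mem_iUnion.1 h
        exact mem_iUnion.2 ⟨k, ((hs k).1.1 a ha).2 hk⟩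
    · intro j a b hb hN'
      constructor
      · rintro ⟨k, hk⟩
        exact ⟨k, (((hs k).agr (hp k) (hq k)).2.2.2 j a b hb hN').1 hk⟩
      · rintro ⟨k, hk⟩
        exact ⟨k, (((hs k).agr (hp k) (hq k)).2.2.2 j a b hb hN').2 hk⟩
  -- insert the supremum below `ν`
  have step : ∃ (x₀ : Set M) (T₀ : I → M → M → Prop) (x₁ : Set M) (T₁ : I → M → M → Prop),
      Pre U x₀ T₀ ∧ Pre U x₁ T₁ ∧ Small I x₀ ∧ Small I x₁ ∧ ux p ⊆ x₀ ∧ ux q ⊆ x₁ ∧
      (∀ j, ∀ a ∈ ux p, ∀ b ∈ ux p, (T₀ j a b ↔ uT p j a b)) ∧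
      (∀ j, ∀ a ∈ ux q, ∀ b ∈ ux q, (T₁ j a b ↔ uT q j a b)) ∧ Agr ν N x₀ T₀ x₁ T₁ ∧
      ∀ b ∈ clo x₀, b < ν → nxt x₀ b < ν := by
    by_cases hne : (ux p ∩ Iio ν).Nonempty
    · obtain ⟨γ, hγ, hγ'⟩ := hν.2 (ux p ∩ Iio ν) ((ux_small hK).mono inter_subset_left)
        (fun a ha => ha.2)
      obtain ⟨σ, hσ⟩ := exists_isLUB (s := ux p ∩ Iio ν) ⟨γ, hγ'⟩
      have hσν : σ < ν := (hσ.2 hγ').trans_lt hγ
      have hq' : ∀ a < ν, (a ∈ insert σ (ux p) ↔ a ∈ insert σ (ux q)) := by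
        intro a ha
        constructor
        · rintro (rfl | h)
          · exact Or.inl rfl
          · exact Or.inr ((hagr.2.2.1 a ha).1 h)
        · rintro (rfl | h)
          · exact Or.inl rfl
          · exact Or.inr ((hagr.2.2.1 a ha).2 h)
      refine ⟨insert σ (ux p), pull (ux p) (insert σ (ux p)) (uT p) (fun _ => Nᶜ),
        insert σ (ux q), pull (ux q) (insert σ (ux q)) (uT q) (fun _ => Nᶜ),
        (union_pre totp).pull ?_ (fun _ => hN), (union_pre totq).pull ?_ (fun _ => hN),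
        (ux_small hK).insert σ, (ux_small hK).insert σ, subset_insert _ _, subset_insert _ _,
        ?_, ?_, ⟨Or.inr hagr.1, Or.inr hagr.2.1, hq', ?_⟩, ?_⟩
      · rintro a (rfl | ha)
        · exact ⟨ν, hagr.1, hσν.le⟩
        · exact ⟨a, ha, le_rfl⟩
      · rintro a (rfl | ha)
        · exact ⟨ν, hagr.2.1, hσν.le⟩
        · exact ⟨a, ha, le_rfl⟩
      · intro j a ha b hb
        exact pull_iff (union_pre totp) (subset_insert _ _) ha hb
      · intro j a ha b hb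
        exact pull_iff (union_pre totq) (subset_insert _ _) ha hb
      · intro j a b hb hN'
        unfold FU.pull
        -- a < b ≤ ν
        have main : a < b → (((a ∈ insert σ (ux p) ∧ b ∈ insert σ (ux p) ∧ a < b ∧
            (a ∈ ux p ∨ j ∈ Nᶜ) ∧ (b ∈ ux p ∨ j ∈ Nᶜ) ∧
            (nxt (ux p) a = nxt (ux p) b ∨ uT p j (nxt (ux p) a) (nxt (ux p) b))) ↔
            (a ∈ insert σ (ux q) ∧ b ∈ insert σ (ux q) ∧ a < b ∧
            (a ∈ ux q ∨ j ∈ Nᶜ) ∧ (b ∈ ux q ∨ j ∈ Nᶜ) ∧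
            (nxt (ux q) a = nxt (ux q) b ∨ uT q j (nxt (ux q) a) (nxt (ux q) b))))) := by
          intro hab
          have haν : a < ν := hab.trans_le hb
          have h1 : (a ∈ insert σ (ux p) ↔ a ∈ insert σ (ux q)) := hq' a haν
          have h1' : (a ∈ ux p ↔ a ∈ ux q) := hagr.2.2.1 a haν
          have h2 : (b ∈ insert σ (ux p) ↔ b ∈ insert σ (ux q)) := by
            rcases hb.eq_or_lt with rfl | hb'
            · exact ⟨fun _ => Or.inr hagr.2.1, fun _ => Or.inr hagr.1⟩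
            · exact hq' b hb'
          have h2' : (b ∈ ux p ↔ b ∈ ux q) := by
            rcases hb.eq_or_lt with rfl | hb'
            · exact ⟨fun _ => hagr.2.1, fun _ => hagr.1⟩
            · exact hagr.2.2.1 b hb'
          have h3 : nxt (ux p) a = nxt (ux q) a := nxt_eq hagr.1 hagr.2.1 hagr.2.2.1 haν.le
          have h4 : nxt (ux p) b = nxt (ux q) b := nxt_eq hagr.1 hagr.2.1 hagr.2.2.1 hb
          rw [h1, h1', h2, h2', h3, h4]
          have h5 : (b ∈ ux q ∨ j ∈ Nᶜ) →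
              (uT p j (nxt (ux q) a) (nxt (ux q) b) ↔ uT q j (nxt (ux q) a) (nxt (ux q) b)) := by
            intro h6
            refine hagr.2.2.2 j _ _ (nxt_le hagr.2.1 hb) ?_
            intro h7
            rcases h6 with h6 | h6
            · rw [nxt_self h6] at h7
              exact hN' h7
            · exact h6
          constructor
          · rintro ⟨k1, k2, k3, k4, k5, k6⟩
            exact ⟨k1, k2, k3, k4, k5, k6.imp id (h5 k5).1⟩
          · rintro ⟨k1, k2, k3, k4, k5, k6⟩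
            exact ⟨k1, k2, k3, k4, k5, k6.imp id (h5 k5).2⟩
        by_cases hab : a < b
        · exact main hab
        · exact ⟨fun h => (hab h.2.2.1).elim, fun h => (hab h.2.2.1).elim⟩
      · rintro b ⟨s, hs', hne', hl⟩ hb
        have : b ≤ σ := hl.2 (by
          intro c hc
          rcases hs' hc with rfl | h
          · exact le_rfl
          · exact hσ.1 ⟨h, (hl.1 hc).trans_lt hb⟩)
        exact (nxt_le (x := insert σ (ux p)) (mem_insert σ (ux p)) this).trans_lt hσν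
    · refine ⟨ux p, uT p, ux q, uT q, union_pre totp, union_pre totq, ux_small hK, ux_small hK,
        subset_rfl, subset_rfl, fun _ _ _ _ _ => Iff.rfl, fun _ _ _ _ _ => Iff.rfl, hagr, ?_⟩
      rintro b ⟨s, hs', ⟨c, hc⟩, hl⟩ hb
      exact (hne ⟨c, hs' hc, (hl.1 hc).trans_lt hb⟩).elim
  obtain ⟨x₀, T₀, x₁, T₁, hP₀, hP₁, hS₀, hS₁, hx₀, hx₁, hT₀, hT₁, hA, hmax⟩ := step
  obtain ⟨r, hr1, hr2, hr3⟩ := finish hU hP₀ hS₀ (hM _ hS₀)
  obtain ⟨s, hs1, hs2, hs3⟩ := finish hU hP₁ hS₁ (hM _ hS₁)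
  refine ⟨r, s, ?_, ?_, Agr.sim ⟨hr1 hA.1, hs1 hA.2.1, ?_, ?_⟩⟩
  · intro k
    have hsub : (p k).x ⊆ ux p := fun a ha => mem_iUnion.2 ⟨k, ha⟩
    refine ⟨(hsub.trans hx₀).trans hr1, fun j a ha b hb => ?_⟩
    rw [hr2 j a (hx₀ (hsub ha)) b (hx₀ (hsub hb)), hT₀ j a (hsub ha) b (hsub hb),
      uT_iff totp ha hb]
  · intro k
    have hsub : (q k).x ⊆ ux q := fun a ha => mem_iUnion.2 ⟨k, ha⟩
    refine ⟨(hsub.trans hx₁).trans hs1, fun j a ha b hb => ?_⟩
    rw [hs2 j a (hx₁ (hsub ha)) b (hx₁ (hsub hb)), hT₁ j a (hsub ha) b (hsub hb),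
      uT_iff totq ha hb]
  · intro a ha
    rw [(hr3 ν hA.1).1 a ha.le, (hs3 ν hA.2.1).1 a ha.le]
    constructor
    · rintro ⟨t, ht, hne, hl⟩
      exact ⟨t, fun c hc => (hA.2.2.1 c ((hl.1 hc).trans_lt ha)).1 (ht hc), hne, hl⟩
    · rintro ⟨t, ht, hne, hl⟩
      exact ⟨t, fun c hc => (hA.2.2.1 c ((hl.1 hc).trans_lt ha)).2 (ht hc), hne, hl⟩
  · intro j a b hb hN'
    rw [(hr3 ν hA.1).2 j a b hb, (hs3 ν hA.2.1).2 j a b hb]
    have hclo : ∀ a ≤ ν, (a ∈ clo x₀ ↔ a ∈ clo x₁) := by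
      intro a ha
      rcases ha.eq_or_lt with rfl | ha
      · exact ⟨fun _ => sub_clo hA.2.1, fun _ => sub_clo hA.1⟩
      · constructor
        · rintro ⟨t, ht, hne, hl⟩
          exact ⟨t, fun c hc => (hA.2.2.1 c ((hl.1 hc).trans_lt ha)).1 (ht hc), hne, hl⟩
        · rintro ⟨t, ht, hne, hl⟩
          exact ⟨t, fun c hc => (hA.2.2.1 c ((hl.1 hc).trans_lt ha)).2 (ht hc), hne, hl⟩
    have key : a < b → a ∈ clo x₀ → b ∈ clo x₀ →
        (T₀ j (nxt x₀ a) (nxt x₀ b) ↔ T₁ j (nxt x₁ a) (nxt x₁ b)) := by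
      intro hab ha hb'
      rw [← nxt_eq hA.1 hA.2.1 hA.2.2.1 (hab.le.trans hb),
        ← nxt_eq hA.1 hA.2.1 hA.2.2.1 hb]
      refine hA.2.2.2 j _ _ (nxt_le hA.1 hb) ?_
      intro h
      rcases hb.eq_or_lt with hb'' | hb''
      · exact hN' hb''
      · exact ((hmax b hb' hb'').ne h).elim
    unfold FU.pull
    constructor
    · rintro ⟨k1, k2, k3, k4, k5, k6⟩
      refine ⟨(hclo a (k3.le.trans hb)).1 k1, (hclo b hb).1 k2, k3, Or.inr trivial,
        Or.inr trivial, ?_⟩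
      rcases k6 with k6 | k6
      · left
        rw [← nxt_eq hA.1 hA.2.1 hA.2.2.1 (k3.le.trans hb), ← nxt_eq hA.1 hA.2.1 hA.2.2.1 hb]
        exact k6
      · exact Or.inr ((key k3 k1 k2).1 k6)
    · rintro ⟨k1, k2, k3, k4, k5, k6⟩
      have k1' := (hclo a (k3.le.trans hb)).2 k1
      have k2' := (hclo b hb).2 k2
      refine ⟨k1', k2', k3, Or.inr trivial, Or.inr trivial, ?_⟩
      rcases k6 with k6 | k6
      · left
        rw [nxt_eq hA.1 hA.2.1 hA.2.2.1 (k3.le.trans hb), nxt_eq hA.1 hA.2.1 hA.2.2.1 hb]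
        exact k6
      · exact Or.inr ((key k3 k1' k2').2 k6)

/-! ### Adding points -/

theorem exists_add [Infinite I] (hU : NormMeas U) (hM : BddHyp I M) (p : Cond M U) (a : M) :
    ∃ q ≤ p, a ∈ q.x := by
  have step : ∃ T : I → M → M → Prop, Pre U (insert a p.x) T ∧
      ∀ j, ∀ b ∈ p.x, ∀ c ∈ p.x, (T j b c ↔ p.T j b c) := by
    by_cases h : ∃ b ∈ p.x, a ≤ b
    · refine ⟨pull p.x (insert a p.x) p.T (fun _ => univ), p.pre.pull ?_ (fun _ => univ_mem),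
        fun j b hb c hc => pull_iff p.pre (subset_insert _ _) hb hc⟩
      rintro b (rfl | hb)
      · exact h
      · exact ⟨b, hb, le_rfl⟩
    · push Not at h
      obtain ⟨b, hb⟩ := exists_branch hU p.pre p.small
      exact ⟨topp p.T a b, p.pre.topp hb h, fun j b hb c hc => topp_iff h hc⟩
  obtain ⟨T, hT, hT'⟩ := step
  obtain ⟨r, h1, h2, -⟩ := finish hU hT (p.small.insert a) (hM _ (p.small.insert a))
  refine ⟨r, ⟨(subset_insert _ _).trans h1, fun j b hb c hc => ?_⟩, h1 (Or.inl rfl)⟩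
  rw [h2 j b (Or.inr hb) c (Or.inr hc), hT' j b hb c hc]

/-! ### Amalgamation -/

theorem LR.of_SB_left {ν : M} {g g' p : Cond M U} (h : SB ν g g') (h' : LR ν g' p) :
    LR ν g p :=
  ⟨fun a ha hlt => (h.1 a hlt).2 (h'.1 a ha hlt), fun j a ha c hc hlt hlt' =>
    (h.2 j a c hlt').trans (h'.2 j a ha c hc hlt hlt')⟩

theorem restr_branch {p : Cond M U} {ν : M} {q : Cond M U} (hs : SB ν q p) {g : Cond M U}
    (hg : SB ν g q) (j : I) :
    ({a | p.T j a ν} ⊆ g.x) ∧ (∀ a c, g.T j a c → p.T j c ν → p.T j a ν) ∧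
      (∀ a c, p.T j a ν → p.T j c ν → a < c → g.T j a c) := by
  have h := hg.trans hs
  refine ⟨?_, ?_, ?_⟩
  · intro a ha
    have h1 := p.pre.dom _ _ _ ha
    exact (h.1 a h1.2.2).2 h1.1
  · intro a c hac hc
    exact p.pre.trans _ _ _ _ ((h.2 j a c (p.pre.dom _ _ _ hc).2.2).1 hac) hc
  · intro a c ha hc hac
    exact (h.2 j a c (p.pre.dom _ _ _ hc).2.2).2 (p.pre.tree _ _ _ _ ha hc hac)

theorem min_branch {q g : Cond M U} {ν : M} (h : LR ν g q) (j : I) :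
    (dcl g.T j {e | e < ν ∧ q.T j e ν} ⊆ g.x) ∧
      (∀ a c, g.T j a c → c ∈ dcl g.T j {e | e < ν ∧ q.T j e ν} →
        a ∈ dcl g.T j {e | e < ν ∧ q.T j e ν}) ∧
      (∀ a c, a ∈ dcl g.T j {e | e < ν ∧ q.T j e ν} → c ∈ dcl g.T j {e | e < ν ∧ q.T j e ν} →
        a < c → g.T j a c) ∧
      ∀ a ∈ q.x, a < ν → (a ∈ dcl g.T j {e | e < ν ∧ q.T j e ν} ↔ q.T j a ν) := by
  refine ⟨dcl_sub g.pre ?_, fun a c => dcl_down g.pre, fun a c => dcl_chain g.pre ?_, ?_⟩
  · rintro e ⟨he, he'⟩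
    exact h.1 e (q.pre.dom _ _ _ he').1 he
  · rintro a ⟨ha, ha'⟩ c ⟨hc, hc'⟩ hac
    exact (h.2 j a (q.pre.dom _ _ _ ha').1 c (q.pre.dom _ _ _ hc').1 ha hc).2
      (q.pre.tree _ _ _ _ ha' hc' hac)
  · intro a ha haν
    constructor
    · rintro ⟨e, ⟨he, he'⟩, rfl | h'⟩
      · exact he'
      · exact q.pre.trans _ _ _ _ ((h.2 j a ha e (q.pre.dom _ _ _ he').1 haν he).1 h') he'
    · intro h'
      exact ⟨a, ⟨haν, h'⟩, Or.inl rfl⟩

open Classical in
/-- Transfer of extensions. -/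
theorem transfer [Infinite I] {ν : M} (hν : Cof I ν) {N : Set I} (hN : Nᶜ ∈ U)
    {p q p' : Cond M U} (hp : ν ∈ p.x) (hq : ν ∈ q.x) (h : Sim ν N p q) (hp' : p' ≤ p) :
    ∃ q' ≤ q, Sim ν N p' q' := by
  have hgLR : LR ν (p'.restr hν) q :=
    h.1.LR_iff (LR.of_SB_left (p'.restr_SB hν) (LR.of_le_Below hp'))
  have hb1 := fun j => restr_branch (p := p') (ν := ν) (q := p') ⟨fun _ _ => Iff.rfl,
    fun _ _ _ _ => Iff.rfl⟩ (p'.restr_SB hν) j
  have hb2 := fun j => min_branch hgLR j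
  obtain ⟨r, h1, h2, h3, -⟩ := q.attach (p'.restr hν) hq (p'.restr_below hν) hgLR
    (fun j => if j ∈ N then dcl (p'.restr hν).T j {e | e < ν ∧ q.T j e ν} else {a | p'.T j a ν})
    (by
      refine ⟨?_, ?_, ?_, ?_⟩
      · intro j
        by_cases hj : j ∈ N
        · rw [if_pos hj]; exact (hb2 j).1
        · rw [if_neg hj]; exact (hb1 j).1
      · intro j a c hac hc
        by_cases hj : j ∈ N
        · rw [if_pos hj] at hc ⊢; exact (hb2 j).2.1 a c hac hc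
        · rw [if_neg hj] at hc ⊢; exact (hb1 j).2.1 a c hac hc
      · intro j a c ha hc hac
        by_cases hj : j ∈ N
        · rw [if_pos hj] at ha hc; exact (hb2 j).2.2.1 a c ha hc hac
        · rw [if_neg hj] at ha hc; exact (hb1 j).2.2 a c ha hc hac
      · rintro a ⟨ha, ha'⟩
        filter_upwards [hN, p'.pre.large a ha ν (hp'.1 hp) ha'] with j hj hj'
        rw [if_neg hj]
        exact hj')
    (by
      intro j a ha haν
      by_cases hj : j ∈ N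
      · rw [if_pos hj]; exact (hb2 j).2.2.2 a ha haν
      · rw [if_neg hj]
        have ha' : a ∈ p.x := (h.1.1 a haν).2 ha
        exact (hp'.2 j a ha' ν hp).trans (h.2 j hj a))
  refine ⟨r, h1, ⟨(h2.trans (p'.restr_SB hν)).symm, ?_⟩⟩
  intro j hj a
  rw [h3 j a, if_neg hj]
  exact Iff.rfl

open Classical in
/-- Mixing two extensions. -/
theorem mix [Infinite I] {ν : M} (hν : Cof I ν) {N₁ N₂ : Set I}
    {p p₀ p₁ : Cond M U} (hp : ν ∈ p.x) (h₀ : p₀ ≤ p) (h₁ : p₁ ≤ p)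
    (h : Sim ν (N₁ ∪ N₂) p₀ p₁) :
    ∃ p₂ ≤ p, Sim ν N₁ p₂ p₀ ∧ Sim ν N₂ p₂ p₁ := by
  have hgLR : LR ν (p₀.restr hν) p := LR.of_SB_left (p₀.restr_SB hν) (LR.of_le_Below h₀)
  have hb1 := fun j => restr_branch (p := p₁) (ν := ν) h.1 (p₀.restr_SB hν) j
  have hb2 := fun j => restr_branch (p := p₀) (ν := ν) (q := p₀) ⟨fun _ _ => Iff.rfl,
    fun _ _ _ _ => Iff.rfl⟩ (p₀.restr_SB hν) j
  obtain ⟨r, h1, h2, h3, -⟩ := p.attach (p₀.restr hν) hp (p₀.restr_below hν) hgLR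
    (fun j => if j ∈ N₁ then {a | p₁.T j a ν} else {a | p₀.T j a ν})
    (by
      refine ⟨?_, ?_, ?_, ?_⟩
      · intro j
        by_cases hj : j ∈ N₁
        · rw [if_pos hj]; exact (hb1 j).1
        · rw [if_neg hj]; exact (hb2 j).1
      · intro j a c hac hc
        by_cases hj : j ∈ N₁
        · rw [if_pos hj] at hc ⊢; exact (hb1 j).2.1 a c hac hc
        · rw [if_neg hj] at hc ⊢; exact (hb2 j).2.1 a c hac hc
      · intro j a c ha hc hac
        by_cases hj : j ∈ N₁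
        · rw [if_pos hj] at ha hc; exact (hb1 j).2.2 a c ha hc hac
        · rw [if_neg hj] at ha hc; exact (hb2 j).2.2 a c ha hc hac
      · rintro a ⟨ha, ha'⟩
        filter_upwards [p₁.pre.large a ((h.1.1 a ha').1 ha) ν (h₁.1 hp) ha',
          p₀.pre.large a ha ν (h₀.1 hp) ha'] with j hj hj'
        by_cases hjN : j ∈ N₁
        · rw [if_pos hjN]; exact hj
        · rw [if_neg hjN]; exact hj')
    (by
      intro j a ha haν
      by_cases hj : j ∈ N₁
      · rw [if_pos hj]; exact h₁.2 j a ha ν hp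
      · rw [if_neg hj]; exact h₀.2 j a ha ν hp)
  refine ⟨r, h1, ⟨h2.trans (p₀.restr_SB hν), ?_⟩,
    ⟨(h2.trans (p₀.restr_SB hν)).trans h.1, ?_⟩⟩
  · intro j hj a
    rw [h3 j a, if_neg hj]
    exact Iff.rfl
  · intro j hj a
    rw [h3 j a]
    by_cases hjN : j ∈ N₁
    · rw [if_pos hjN]
      exact Iff.rfl
    · rw [if_neg hjN]
      exact h.2 j (fun h' => h'.elim hjN hj) a

end Pool.Agent.W869.FU
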