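import Pool.Agent.W869.FU.Amal
import Pool.Agent.Helper669.Forcing

/-!
# Threads modulo another ultrafilter are not added
-/

set_option autoImplicit false
set_option linter.unusedSectionVars false
set_option linter.unusedVariables false
set_option linter.style.haveILetI false

namespace Pool.Agent.W869.FU

open Set Filter Pool.Agent.Helper669.Forcing
open Cardinal hiding univ

/-- The set of conditions forcing some statement. -/
structure Reg {P : Type} [Preorder P] (φ : Set P) : Prop where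
  down : ∀ p ∈ φ, ∀ q ≤ p, q ∈ φ
  dense : ∀ p, (∀ q ≤ p, ∃ r ≤ q, r ∈ φ) → p ∈ φ

theorem Reg.decide {P : Type} [Preorder P] {φ : Set P} (p : P) :
    ∃ q ≤ p, q ∈ φ ∨ q ∈ fnot φ := by
  by_cases h : ∃ q ≤ p, q ∈ φ
  · obtain ⟨q, hq, hq'⟩ := h
    exact ⟨q, hq, Or.inl hq'⟩
  · push Not at h
    exact ⟨p, le_rfl, Or.inr fun q hq => h q hq⟩

theorem Reg.of_not {P : Type} [Preorder P] {φ : Set P} (h : Reg φ) {p : P} (hp : p ∉ φ) :
    ∃ q ≤ p, q ∈ fnot φ := by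
  by_contra hc
  push Not at hc
  refine hp (h.dense p fun q hq => ?_)
  have := hc q hq
  simp only [fnot, Set.mem_ofPred_eq, not_forall, not_not] at this
  obtain ⟨r, hr, hr'⟩ := this
  exact ⟨r, hr, hr'⟩

theorem fnot_down {P : Type} [Preorder P] {φ : Set P} {p q : P} (h : p ∈ fnot φ) (hq : q ≤ p) :
    q ∈ fnot φ := fun r hr => h r (hr.trans hq)

theorem fnot_not {P : Type} [Preorder P] {φ : Set P} {p : P} (h : p ∈ fnot φ) : p ∉ φ :=
  h p le_rfl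

theorem reg_meets {P : Type} [Preorder P] (N : Set P) : Reg (meets N) where
  down := fun p hp q hq => down_meets N p hp q hq
  dense := by
    intro p h q hq
    obtain ⟨r, hr, hr'⟩ := h q hq
    obtain ⟨s, hs, t, ht, ht'⟩ := hr' r le_rfl
    exact ⟨s, hs.trans hr, t, ht, ht'⟩

variable {I M : Type} [LinearOrder I] [WellFoundedLT I] [LinearOrder M] [WellFoundedLT M]
variable {U : Ultrafilter I}

/-- `r` and `s` disagree about some element of the named subset of `ν`. -/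
def dis (ν : M) (C : M → Set (Cond M U)) (r s : Cond M U) : Prop :=
  ∃ ξ < ν, (r ∈ C ξ ∧ s ∈ fnot (C ξ)) ∨ (r ∈ fnot (C ξ) ∧ s ∈ C ξ)

theorem dis.mono {ν : M} {C : M → Set (Cond M U)} (hC : ∀ ξ, Reg (C ξ)) {r s r' s' : Cond M U}
    (h : dis ν C r s) (hr : r' ≤ r) (hs : s' ≤ s) : dis ν C r' s' := by
  obtain ⟨ξ, hξ, ⟨h1, h2⟩ | ⟨h1, h2⟩⟩ := h
  · exact ⟨ξ, hξ, Or.inl ⟨(hC ξ).down _ h1 _ hr, fnot_down h2 hs⟩⟩
  · exact ⟨ξ, hξ, Or.inr ⟨fnot_down h1 hr, (hC ξ).down _ h2 _ hs⟩⟩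

theorem dis.symm {ν : M} {C : M → Set (Cond M U)} {r s : Cond M U} (h : dis ν C r s) :
    dis ν C s r := by
  obtain ⟨ξ, hξ, ⟨h1, h2⟩ | ⟨h1, h2⟩⟩ := h
  · exact ⟨ξ, hξ, Or.inr ⟨h2, h1⟩⟩
  · exact ⟨ξ, hξ, Or.inl ⟨h2, h1⟩⟩

/-- Below `p` it is possible to change the `i`-th set by changing the generic branches only on
a null set which is contained in `t` below `i`. -/
def Good (ν : M) (C : I → M → Set (Cond M U)) (i : I) (p : Cond M U) (t : Set I) : Prop :=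
  ∃ r s, ∃ N : Set I, r ≤ p ∧ s ≤ p ∧ Nᶜ ∈ U ∧ (∀ k ∈ N, k < i → k ∈ t) ∧ Sim ν N r s ∧
    dis ν (C i) r s

/-- `q` decides the named set modulo conditions below `ν`. -/
def DecI (ν : M) (C : M → Set (Cond M U)) (q : Cond M U) : Prop :=
  ∀ r s, r ≤ q → s ≤ q → (∃ g, Below ν g ∧ LR ν g r ∧ LR ν g s) →
    ∀ ξ < ν, ¬ (r ∈ C ξ ∧ s ∈ fnot (C ξ))

theorem Good.mono {ν : M} {C : I → M → Set (Cond M U)} {i : I} {p q : Cond M U} {t t' : Set I}
    (h : Good ν C i q t) (hq : q ≤ p) (ht : ∀ k < i, k ∈ t → k ∈ t') : Good ν C i p t' := by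
  obtain ⟨r, s, N, h1, h2, h3, h4, h5, h6⟩ := h
  exact ⟨r, s, N, h1.trans hq, h2.trans hq, h3, fun k hk hki => ht k hki (h4 k hk hki), h5, h6⟩

theorem decI_of_not_good [Infinite I] {ν : M} (hν : Cof I ν) {C : I → M → Set (Cond M U)}
    (hC : ∀ i ξ, Reg (C i ξ)) {i : I} {q : Cond M U} (hq : ν ∈ q.x)
    (h : ¬ Good ν C i q univ) : DecI ν (C i) q := by
  rintro r s hr hs ⟨g, hg, hgr, hgs⟩ ξ hξ ⟨h1, h2⟩
  obtain ⟨r', hr', s', hs', N, hN, hsim⟩ := agree hν r s g (hr.1 hq) (hs.1 hq) hg hgr hgs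
  exact h ⟨r', s', N, hr'.trans hr, hs'.trans hs, hN, fun _ _ _ => mem_univ _, hsim,
    ξ, hξ, Or.inl ⟨(hC i ξ).down _ h1 _ hr', fnot_down h2 hs'⟩⟩

theorem good_union [Infinite I] {ν : M} (hν : Cof I ν) {C : I → M → Set (Cond M U)}
    (hC : ∀ i ξ, Reg (C i ξ)) {i : I} {p : Cond M U} (hp : ν ∈ p.x) {t t' : Set I}
    (h : Good ν C i p (t ∪ t')) : Good ν C i p t ∨ Good ν C i p t' := by
  obtain ⟨r, s, N, h1, h2, h3, h4, h5, ξ, hξ, h6⟩ := h
  have hN1 : ({n | n ∈ N ∧ (n < i → n ∈ t)} ∪ {n | n ∈ N ∧ n < i ∧ n ∉ t} : Set I) = N := by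
    ext n
    constructor
    · rintro (h | h)
      · exact h.1
      · exact h.1
    · intro hn
      by_cases hc : n < i → n ∈ t
      · exact Or.inl ⟨hn, hc⟩
      · push Not at hc
        exact Or.inr ⟨hn, hc.1, hc.2⟩
  have hsub1 : ({n | n ∈ N ∧ (n < i → n ∈ t)} : Set I) ⊆ N := fun n hn => hn.1
  have hsub2 : ({n | n ∈ N ∧ n < i ∧ n ∉ t} : Set I) ⊆ N := fun n hn => hn.1
  obtain ⟨p₂, hp₂, hs1, hs2⟩ := mix hν hp h1 h2 (N₁ := {n | n ∈ N ∧ (n < i → n ∈ t)})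
    (N₂ := {n | n ∈ N ∧ n < i ∧ n ∉ t}) (by rw [hN1]; exact h5)
  obtain ⟨p₃, hp₃, hdec⟩ := Reg.decide (φ := C i ξ) p₂
  have hνp₂ : ν ∈ p₂.x := hp₂.1 hp
  have hνr : ν ∈ r.x := h1.1 hp
  have hνs : ν ∈ s.x := h2.1 hp
  -- extensions of `r` and `s` similar to `p₃`
  obtain ⟨r', hr', hsr⟩ := transfer hν (N := {n | n ∈ N ∧ (n < i → n ∈ t)})
    (Filter.mem_of_superset h3 (compl_subset_compl.2 hsub1)) hνp₂ hνr hs1 hp₃
  obtain ⟨s', hs', hss⟩ := transfer hν (N := {n | n ∈ N ∧ n < i ∧ n ∉ t})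
    (Filter.mem_of_superset h3 (compl_subset_compl.2 hsub2)) hνp₂ hνs hs2 hp₃
  have hgoodr : dis ν (C i) p₃ r' → Good ν C i p t := fun hd =>
    ⟨p₃, r', _, hp₃.trans hp₂, hr'.trans h1,
      Filter.mem_of_superset h3 (compl_subset_compl.2 hsub1), fun k hk hki => hk.2 hki, hsr, hd⟩
  have hgoods : dis ν (C i) p₃ s' → Good ν C i p t' := fun hd =>
    ⟨p₃, s', _, hp₃.trans hp₂, hs'.trans h2,
      Filter.mem_of_superset h3 (compl_subset_compl.2 hsub2), fun k hk hki =>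
        (h4 k hk.1 hki).resolve_left hk.2.2, hss, hd⟩
  rcases h6 with ⟨h6, h7⟩ | ⟨h6, h7⟩ <;> rcases hdec with hd | hd
  · exact Or.inr (hgoods ⟨ξ, hξ, Or.inl ⟨hd, fnot_down h7 hs'⟩⟩)
  · exact Or.inl (hgoodr ⟨ξ, hξ, Or.inr ⟨hd, (hC i ξ).down _ h6 _ hr'⟩⟩)
  · exact Or.inl (hgoodr ⟨ξ, hξ, Or.inl ⟨hd, fnot_down h6 hr'⟩⟩)
  · exact Or.inr (hgoods ⟨ξ, hξ, Or.inr ⟨hd, (hC i ξ).down _ h7 _ hs'⟩⟩)

/-! ### The forcing with pairs -/

/-- The union of the sets listed by `n`. -/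
def un (n : I → Option (Set I)) : Set I := {k | ∃ i N, n i = some N ∧ k ∈ N}

theorem un_null (hU : NormMeas U) {t B : Set I} (ht : tᶜ ∈ U) (hB : Bᶜ ∈ U)
    {n : I → Option (Set I)}
    (hn : ∀ i N, n i = some N → i ∈ B ∧ Nᶜ ∈ U ∧ ∀ k ∈ N, k < i → k ∈ t) : (un n)ᶜ ∈ U := by
  have h1 := hU.diag (fun i => {k | ∀ N, n i = some N → k ∉ N}) (fun i => by
    rcases h : n i with _ | N
    · exact Filter.mem_of_superset Filter.univ_mem fun k _ N hN => by simp at hN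
    · have := (hn i N h).2.1
      filter_upwards [this] with k hk N' hN'
      have : N = N' := by simpa using hN'
      rw [← this]
      exact hk)
  filter_upwards [ht, hB, h1] with k hk hk' hk''
  rintro ⟨i, N, hi, hkN⟩
  obtain ⟨h2, h3, h4⟩ := hn i N hi
  rcases lt_trichotomy i k with h | h | h
  · exact hk'' i h N hi hkN
  · subst h
    exact hk' h2
  · exact hk (h4 k hkN h)

/-- Pairs of conditions which are similar modulo a null set, with a record of the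
disagreements. -/
structure Pair (ν : M) (C : I → M → Set (Cond M U)) (q : Cond M U) (t B : Set I) where
  p₀ : Cond M U
  p₁ : Cond M U
  n : I → Option (Set I)
  h₀ : p₀ ≤ q
  h₁ : p₁ ≤ q
  hn : ∀ i N, n i = some N → (i ∈ B ∧ Nᶜ ∈ U ∧ ∀ k ∈ N, k < i → k ∈ t) ∧ dis ν (C i) p₀ p₁
  hs : Sim ν (un n) p₀ p₁

instance (ν : M) (C : I → M → Set (Cond M U)) (q : Cond M U) (t B : Set I) :
    Preorder (Pair ν C q t B) where
  le a b := a.p₀ ≤ b.p₀ ∧ a.p₁ ≤ b.p₁ ∧ ∀ i N, b.n i = some N → a.n i = some N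
  le_refl a := ⟨le_rfl, le_rfl, fun _ _ h => h⟩
  le_trans a b c h h' := ⟨h.1.trans h'.1, h.2.1.trans h'.2.1,
    fun i N hi => h.2.2 i N (h'.2.2 i N hi)⟩

open Classical in
theorem pairs_closed [Infinite I] (hU : NormMeas U) (hM : BddHyp I M) {ν : M} (hν : Cof I ν)
    {C : I → M → Set (Cond M U)} (hC : ∀ i ξ, Reg (C i ξ)) {q : Cond M U} (hq : ν ∈ q.x)
    {t B : Set I} (ht : tᶜ ∈ U) (hB : Bᶜ ∈ U) : Closed I (Pair ν C q t B) := by
  intro K c hK hne tot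
  let n : I → Option (Set I) := fun i =>
    if h : ∃ k N, (c k).n i = some N then some h.choose_spec.choose else none
  have hn1 : ∀ i N, n i = some N → ∃ k, (c k).n i = some N := by
    intro i N hi
    by_cases h : ∃ k N, (c k).n i = some N
    · have : n i = some h.choose_spec.choose := dif_pos h
      rw [this] at hi
      have h2 : h.choose_spec.choose = N := by simpa using hi
      rw [← h2]
      exact ⟨h.choose, h.choose_spec.choose_spec⟩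
    · have : n i = none := dif_neg h
      rw [this] at hi
      simp at hi
  have hn2 : ∀ k i N, (c k).n i = some N → n i = some N := by
    intro k i N hi
    have h : ∃ k N, (c k).n i = some N := ⟨k, N, hi⟩
    have h1 : n i = some h.choose_spec.choose := dif_pos h
    obtain ⟨l, hl⟩ := hn1 i _ h1
    rw [h1]
    rcases tot k l with h2 | h2
    · have := h2.2.2 i _ hl
      rw [hi] at this
      exact this.symm
    · have := h2.2.2 i _ hi
      rw [hl] at this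
      exact this
  have hcond : ∀ i N, n i = some N → i ∈ B ∧ Nᶜ ∈ U ∧ ∀ k ∈ N, k < i → k ∈ t := by
    intro i N hi
    obtain ⟨k, hk⟩ := hn1 i N hi
    exact ((c k).hn i N hk).1
  obtain ⟨r, s, hr, hs, hsim⟩ := pair_closed hU hM hν (un_null hU ht hB hcond)
    (fun k => (c k).p₀) (fun k => (c k).p₁) hK (fun k l => (tot k l).imp
      (fun h => ⟨h.1, h.2.1⟩) (fun h => ⟨h.1, h.2.1⟩))
    (fun k => (c k).h₀.1 hq) (fun k => (c k).h₁.1 hq) (fun k => (c k).hs.mono (by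
      rintro a ⟨i, N, hi, ha⟩
      exact ⟨i, N, hn2 k i N hi, ha⟩))
  obtain ⟨k₀⟩ := hne
  refine ⟨⟨r, s, n, (hr k₀).trans (c k₀).h₀, (hs k₀).trans (c k₀).h₁, ?_, hsim⟩,
    fun k => ⟨hr k, hs k, fun i N hi => hn2 k i N hi⟩⟩
  intro i N hi
  obtain ⟨k, hk⟩ := hn1 i N hi
  exact ⟨((c k).hn i N hk).1, ((c k).hn i N hk).2.mono (hC i) (hr k) (hs k)⟩

open Classical in
theorem pair_dense [Infinite I] (hU : NormMeas U) {ν : M} (hν : Cof I ν)
    {C : I → M → Set (Cond M U)} (hC : ∀ i ξ, Reg (C i ξ)) {q : Cond M U} (hq : ν ∈ q.x)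
    {t B : Set I} (ht : tᶜ ∈ U) (hB : Bᶜ ∈ U) (c : Pair ν C q t B) {i : I} (hi : i ∈ B)
    (hgood : ∀ q' ≤ q, Good ν C i q' t) :
    ∃ c' ≤ c, ∃ N, c'.n i = some N := by
  rcases hci : c.n i with _ | N
  swap
  · exact ⟨c, le_rfl, N, hci⟩
  obtain ⟨r₀, r₁, N, h1, h2, h3, h4, h5, ξ, hξ, h6⟩ := hgood c.p₀ c.h₀
  have hun : (un c.n)ᶜ ∈ U := un_null hU ht hB fun i N hi => (c.hn i N hi).1
  have hν₀ : ν ∈ c.p₀.x := c.h₀.1 hq
  have hν₁ : ν ∈ c.p₁.x := c.h₁.1 hq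
  obtain ⟨s, hs, hs'⟩ := transfer hν hun hν₀ hν₁ c.hs h1
  obtain ⟨s', hs'', hdec⟩ := Reg.decide (φ := C i ξ) s
  have hνs : ν ∈ s.x := hs.1 hν₁
  have hνr₀ : ν ∈ r₀.x := h1.1 hν₀
  have hνr₁ : ν ∈ r₁.x := h2.1 hν₀
  -- if we have a disagreeing extension of `c.p₀`
  have final : ∀ (r : Cond M U) (N' : Set I), r ≤ c.p₀ → N'ᶜ ∈ U → (∀ k ∈ N', k < i → k ∈ t) →
      Sim ν (un c.n ∪ N') s' r → dis ν (C i) r s' → ∃ c' ≤ c, ∃ N, c'.n i = some N := by
    intro r N' hr hN' hNi hsim hdis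
    have hne : ∀ k N, c.n k = some N → k ≠ i := by
      rintro k N hk rfl
      rw [hci] at hk
      simp at hk
    refine ⟨⟨r, s', fun k => if k = i then some N' else c.n k, hr.trans c.h₀,
      (hs''.trans hs).trans c.h₁, ?_, ?_⟩, ⟨hr, hs''.trans hs, ?_⟩, N', if_pos rfl⟩
    · intro k N'' hk
      by_cases hki : k = i
      · rw [if_pos hki] at hk
        have : N' = N'' := by simpa using hk
        subst this
        subst hki
        exact ⟨⟨hi, hN', hNi⟩, hdis⟩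
      · rw [if_neg hki] at hk
        exact ⟨(c.hn k N'' hk).1, (c.hn k N'' hk).2.mono (hC k) hr (hs''.trans hs)⟩
    · refine hsim.symm.mono ?_
      rintro a (⟨k, N'', hk, ha⟩ | ha)
      · exact ⟨k, N'', (if_neg (hne k N'' hk)).trans hk, ha⟩
      · exact ⟨i, N', if_pos rfl, ha⟩
    · intro k N'' hk
      show (if k = i then some N' else c.n k) = some N''
      rw [if_neg (hne k N'' hk)]
      exact hk
  -- transfer back
  obtain ⟨r₀', hr₀', hsim₀⟩ := transfer hν hun hνs hνr₀ hs'.symm hs''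
  have hN1 : (un c.n ∪ N)ᶜ ∈ U := by
    filter_upwards [hun, h3] with k hk hk'
    rintro (h | h)
    · exact hk h
    · exact hk' h
  obtain ⟨r₁', hr₁', hsim₁⟩ := transfer hν hN1 hνs hνr₁ (hs'.symm.trans h5) hs''
  have c0 : dis ν (C i) r₀' s' → ∃ c' ≤ c, ∃ N, c'.n i = some N := fun hd =>
    final r₀' ∅ (hr₀'.trans h1) (by
      rw [compl_empty]
      exact Filter.univ_mem) (fun k hk => hk.elim) (hsim₀.mono subset_union_left) hd
  have c1 : dis ν (C i) r₁' s' → ∃ c' ≤ c, ∃ N, c'.n i = some N := fun hd =>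
    final r₁' N (hr₁'.trans h2) h3 h4 hsim₁ hd
  rcases h6 with ⟨h6, h7⟩ | ⟨h6, h7⟩ <;> rcases hdec with hd | hd
  · exact c1 ⟨ξ, hξ, Or.inr ⟨fnot_down h7 hr₁', hd⟩⟩
  · exact c0 ⟨ξ, hξ, Or.inl ⟨(hC i ξ).down _ h6 _ hr₀', hd⟩⟩
  · exact c0 ⟨ξ, hξ, Or.inr ⟨fnot_down h6 hr₀', hd⟩⟩
  · exact c1 ⟨ξ, hξ, Or.inl ⟨(hC i ξ).down _ h7 _ hr₁', hd⟩⟩

/-- If the sets can be changed on null sets contained in `t`, for almost all indices in the sense
of `V`, then there is a pair of similar conditions disagreeing about almost all sets. -/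
theorem exists_pair [Infinite I] (hU : NormMeas U) (hM : BddHyp I M) {ν : M} (hν : Cof I ν)
    {C : I → M → Set (Cond M U)} (hC : ∀ i ξ, Reg (C i ξ)) {q : Cond M U} (hq : ν ∈ q.x)
    {t B H : Set I} (ht : tᶜ ∈ U) (hB : Bᶜ ∈ U) (hH : H ⊆ B)
    (hgood : ∀ i ∈ H, ∀ q' ≤ q, Good ν C i q' t) :
    ∃ p₀ ≤ q, ∃ p₁ ≤ q, SB ν p₀ p₁ ∧ ∀ i ∈ H, dis ν (C i) p₀ p₁ := by
  obtain ⟨c, -, hc⟩ := fusion (I := I) (pairs_closed hU hM hν hC hq ht hB)
    (fun i => {c | i ∈ H → ∃ N, c.n i = some N})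
    (fun i p hp q hq hi => by
      obtain ⟨N, hN⟩ := hp hi
      exact ⟨N, hq.2.2 i N hN⟩)
    (fun i p => by
      by_cases hi : i ∈ H
      · obtain ⟨c', hc', hN⟩ := pair_dense hU hν hC hq ht hB p (hH hi) (hgood i hi)
        exact ⟨c', hc', fun _ => hN⟩
      · exact ⟨p, le_rfl, fun h => (hi h).elim⟩)
    ⟨q, q, fun _ => none, le_rfl, le_rfl, fun i N h => by simp at h,
      ⟨⟨fun _ _ => Iff.rfl, fun _ _ _ _ => Iff.rfl⟩, fun _ _ _ => Iff.rfl⟩⟩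
  refine ⟨c.p₀, c.h₀, c.p₁, c.h₁, c.hs.1, fun i hi => ?_⟩
  obtain ⟨N, hN⟩ := hc i hi
  exact (c.hn i N hN).2

end Pool.Agent.W869.FU
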