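import Pool.Agent.W869.FU.Pairs

/-!
# The Mitchell order and threads
-/

set_option autoImplicit false
set_option linter.unusedSectionVars false
set_option linter.unusedVariables false
set_option linter.style.haveILetI false

namespace Pool.Agent.W869.FU

open Set Filter Pool.Agent.Helper669.Forcing
open Cardinal hiding univ

variable {I M : Type} [LinearOrder I] [WellFoundedLT I] [LinearOrder M] [WellFoundedLT M]

/-- `U₁` belongs to the ultrapower by `U₀` (when both are normal). -/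
def MBelow (U₁ U₀ : Ultrafilter I) : Prop :=
  ∃ w : I → Set (Set I), ∀ t : Set I, t ∈ U₁ ↔ ∀ᶠ i in (U₀ : Filter I), t ∩ Iio i ∈ w i

theorem MBelow.asymm {U₁ U₀ : Ultrafilter I} (h : MBelow U₁ U₀) (h' : MBelow U₀ U₁) : False := by
  obtain ⟨w, hw⟩ := h
  obtain ⟨v, hv⟩ := h'
  let F : ∀ i : I, (∀ k, k < i → Prop × Prop) → Prop × Prop := fun i ih =>
    ({k | ∃ hk : k < i, (ih k hk).2} ∉ v i, {k | ∃ hk : k < i, (ih k hk).1} ∈ w i)
  let f : I → Prop × Prop := (wellFounded_lt (α := I)).fix F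
  have hf : ∀ i, f i = F i (fun k _ => f k) := fun i =>
    (wellFounded_lt (α := I)).fix_eq F i
  have hset1 : ∀ i : I, ({k | ∃ hk : k < i, (f k).1} : Set I) = {k | (f k).1} ∩ Iio i := by
    intro i
    ext k
    exact ⟨fun ⟨h1, h2⟩ => ⟨h2, h1⟩, fun ⟨h1, h2⟩ => ⟨h2, h1⟩⟩
  have hset2 : ∀ i : I, ({k | ∃ hk : k < i, (f k).2} : Set I) = {k | (f k).2} ∩ Iio i := by
    intro i
    ext k
    exact ⟨fun ⟨h1, h2⟩ => ⟨h2, h1⟩, fun ⟨h1, h2⟩ => ⟨h2, h1⟩⟩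
  have h1 : ∀ i, (f i).1 ↔ {k | (f k).2} ∩ Iio i ∉ v i := by
    intro i
    rw [hf i, ← hset2 i]
  have h2 : ∀ i, (f i).2 ↔ {k | (f k).1} ∩ Iio i ∈ w i := by
    intro i
    rw [hf i, ← hset1 i]
  have e1 : {k | (f k).2} ∈ U₀ ↔ {k | (f k).1} ∈ U₁ := by
    rw [hw]
    constructor
    · intro h
      filter_upwards [h] with i hi
      exact (h2 i).1 hi
    · intro h
      filter_upwards [h] with i hi
      exact (h2 i).2 hi
  have e2 : {k | (f k).1} ∈ U₁ ↔ ¬ {k | (f k).2} ∈ U₀ := by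
    rw [hv, ← Ultrafilter.eventually_not]
    constructor
    · intro h
      filter_upwards [h] with i hi
      exact (h1 i).1 hi
    · intro h
      filter_upwards [h] with i hi
      exact (h1 i).2 hi
  have e3 := e1.trans e2
  exact (iff_not_self e3)

variable {U : Ultrafilter I}

/-- Conditions below `ν` can decide everything about the names `A α`, `α < ν`, below `ν`. -/
def CP (A : M → I → M → Set (Cond M U)) (ν : M) : Prop :=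
  ∀ g, Below ν g → ∀ α < ν, ∀ ξ : I → M, (∀ i, ξ i < ν) →
    ∃ g' ≤ g, Below ν g' ∧ ∀ i, g' ∈ A α i (ξ i) ∨ g' ∈ fnot (A α i (ξ i))

/-- `p` forces that the sequence named by `A` is coherent modulo `U₀`. -/
def Coh (U₀ : Ultrafilter I) (A : M → I → M → Set (Cond M U)) (p : Cond M U) : Prop :=
  ∀ α β, α < β → ∀ q ≤ p, ∃ r ≤ q, ∃ X ∈ U₀, ∀ i ∈ X, ∀ ξ < α, ∀ s ≤ r,
    (s ∈ A β i ξ ↔ s ∈ A α i ξ)

theorem no_pair [Infinite I] {U₀ : Ultrafilter I} {ν : M} (hν : Cof I ν)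
    {A : M → I → M → Set (Cond M U)} (hA : ∀ α i ξ, Reg (A α i ξ)) (hCP : CP A ν)
    {p : Cond M U} (hcoh : Coh U₀ A p) {p₀ p₁ : Cond M U} (h₀ : p₀ ≤ p) (h₁ : p₁ ≤ p)
    (hν₀ : ν ∈ p₀.x) (hν₁ : ν ∈ p₁.x) (hSB : SB ν p₀ p₁) {H : Set I} (hH : H ∈ U₀)
    (hdis : ∀ i ∈ H, dis ν (A ν i) p₀ p₁) : False := by
  obtain ⟨i₀, hi₀⟩ := U₀.nonempty_of_mem hH
  obtain ⟨ξ₀, hξ₀, -⟩ := hdis i₀ hi₀
  have hex : ∀ i, ∃ ξ < ν, i ∈ H → (p₀ ∈ A ν i ξ ∧ p₁ ∈ fnot (A ν i ξ)) ∨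
      (p₀ ∈ fnot (A ν i ξ) ∧ p₁ ∈ A ν i ξ) := by
    intro i
    by_cases hi : i ∈ H
    · obtain ⟨ξ, hξ, h⟩ := hdis i hi
      exact ⟨ξ, hξ, fun _ => h⟩
    · exact ⟨ξ₀, hξ₀, fun h => (hi h).elim⟩
  choose ξ hξ hξ' using hex
  obtain ⟨γ, hγ, hγ'⟩ := hν.2 (range ξ) (Small.of_range ξ) (by rintro _ ⟨i, rfl⟩; exact hξ i)
  obtain ⟨α, hα, hα'⟩ := hν.1 γ hγ
  have hξα : ∀ i, ξ i < α := fun i => (hγ' _ ⟨i, rfl⟩).trans_lt hα
  obtain ⟨g', hg', hg'', hdec⟩ := hCP (p₀.restr hν) (p₀.restr_below hν) α hα' ξ hξ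
  have hLR₀ : LR ν g' p₀ := (LR.of_SB (p₀.restr_SB hν)).of_le hg'
  have hLR₁ : LR ν g' p₁ := hSB.LR_iff hLR₀
  obtain ⟨r₀, hr₀, -, hr₀'⟩ := amalg hν p₀ g' hν₀ hg'' hLR₀
  obtain ⟨r₁, hr₁, -, hr₁'⟩ := amalg hν p₁ g' hν₁ hg'' hLR₁
  obtain ⟨s₀, hs₀, X₀, hX₀, hc₀⟩ := hcoh α ν hα' r₀ (hr₀.trans h₀)
  obtain ⟨s₁, hs₁, X₁, hX₁, hc₁⟩ := hcoh α ν hα' r₁ (hr₁.trans h₁)
  obtain ⟨i, ⟨hi, hi'⟩, hi''⟩ := U₀.nonempty_of_mem
    (Filter.inter_mem (Filter.inter_mem hH hX₀) hX₁)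
  have e₀ := hc₀ i hi' (ξ i) (hξα i) s₀ le_rfl
  have e₁ := hc₁ i hi'' (ξ i) (hξα i) s₁ le_rfl
  have d₀ : s₀ ≤ p₀ := hs₀.trans hr₀
  have d₁ : s₁ ≤ p₁ := hs₁.trans hr₁
  rcases hdec i with hd | hd
  · have k₀ : s₀ ∈ A ν i (ξ i) := e₀.2 ((hA α i (ξ i)).down _ hd _ (hs₀.trans hr₀'))
    have k₁ : s₁ ∈ A ν i (ξ i) := e₁.2 ((hA α i (ξ i)).down _ hd _ (hs₁.trans hr₁'))
    rcases hξ' i hi with ⟨-, h⟩ | ⟨h, -⟩
    · exact fnot_not (fnot_down h d₁) k₁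
    · exact fnot_not (fnot_down h d₀) k₀
  · have k₀ : s₀ ∉ A ν i (ξ i) := fun h => fnot_not (fnot_down hd (hs₀.trans hr₀')) (e₀.1 h)
    have k₁ : s₁ ∉ A ν i (ξ i) := fun h => fnot_not (fnot_down hd (hs₁.trans hr₁')) (e₁.1 h)
    rcases hξ' i hi with ⟨h, -⟩ | ⟨-, h⟩
    · exact k₀ ((hA ν i (ξ i)).down _ h _ d₀)
    · exact k₁ ((hA ν i (ξ i)).down _ h _ d₁)

theorem decides [Infinite I] {U₀ : Ultrafilter I} (hU : NormMeas U) (hM : BddHyp I M)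
    (hne : U₀ ≠ U) (hMB : ¬ MBelow U U₀) {ν : M} (hν : Cof I ν)
    {A : M → I → M → Set (Cond M U)} (hA : ∀ α i ξ, Reg (A α i ξ)) (hCP : CP A ν)
    {p : Cond M U} (hcoh : Coh U₀ A p) (hp : ν ∈ p.x) :
    ∃ q ≤ p, ∃ X ∈ U₀, ∀ i ∈ X, DecI ν (A ν i) q := by
  -- a set separating the ultrafilters
  obtain ⟨B, hB₀, hB⟩ : ∃ B, B ∈ U₀ ∧ Bᶜ ∈ U := by
    by_contra hc
    push Not at hc
    refine hne (Ultrafilter.ext fun s => ?_)
    constructor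
    · intro hs
      by_contra hs'
      exact hc s hs (Ultrafilter.compl_mem_iff_notMem.2 hs')
    · intro hs
      by_contra hs'
      have := hc sᶜ (Ultrafilter.compl_mem_iff_notMem.2 hs')
      rw [compl_compl] at this
      exact this hs
  -- stabilise
  obtain ⟨q, hq, hst⟩ := fusion' (cond_closed hU hM) (hU.card_sigma)
    (fun t : Σ i : I, Set (Iio i) => {q : Cond M U | ¬ Good ν (A ν) t.1 q (Subtype.val '' t.2) ∨
      ∀ q' ≤ q, Good ν (A ν) t.1 q' (Subtype.val '' t.2)})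
    (fun t q hq q' hq' => by
      rcases hq with h | h
      · exact Or.inl fun h' => h (h'.mono hq' fun _ _ h => h)
      · exact Or.inr fun r hr => h r (hr.trans hq'))
    (fun t q => by
      by_cases h : ∀ q' ≤ q, Good ν (A ν) t.1 q' (Subtype.val '' t.2)
      · exact ⟨q, le_rfl, Or.inr h⟩
      · push Not at h
        obtain ⟨q', hq', h⟩ := h
        exact ⟨q', hq', Or.inl h⟩) p
  have hνq : ν ∈ q.x := hq.1 hp
  have hst' : ∀ (t : Set I) (i : I), ¬ Good ν (A ν) i q t ∨ ∀ q' ≤ q, Good ν (A ν) i q' t := by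
    intro t i
    have hto : ∀ k < i, k ∈ (Subtype.val '' (Subtype.val ⁻¹' t : Set (Iio i)) : Set I) → k ∈ t := by
      rintro k hk ⟨a, ha, rfl⟩
      exact ha
    have hof : ∀ k < i, k ∈ t → k ∈ (Subtype.val '' (Subtype.val ⁻¹' t : Set (Iio i)) : Set I) :=
      fun k hk h => ⟨⟨k, hk⟩, h, rfl⟩
    rcases hst ⟨i, Subtype.val ⁻¹' t⟩ with h | h
    · exact Or.inl fun h' => h (h'.mono le_rfl hof)
    · exact Or.inr fun q' hq' => (h q' hq').mono le_rfl hto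
  by_cases hX : ∀ᶠ i in (U₀ : Filter I), ¬ Good ν (A ν) i q univ
  · exact ⟨q, hq, _, hX, fun i hi => decI_of_not_good hν (hA ν) hνq hi⟩
  · exfalso
    have hG : ∀ᶠ i in (U₀ : Filter I), Good ν (A ν) i q univ := by
      by_contra hc
      exact hX (Ultrafilter.eventually_not.2 hc)
    have claim : ∀ t : Set I, tᶜ ∈ U → ∀ᶠ i in (U₀ : Filter I), ¬ Good ν (A ν) i q t := by
      intro t ht
      by_contra hc
      have hc' : ∀ᶠ i in (U₀ : Filter I), Good ν (A ν) i q t := by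
        by_contra hc'
        exact hc (Ultrafilter.eventually_not.2 hc')
      obtain ⟨p₀, h₀, p₁, h₁, hSB, hdis⟩ := exists_pair (H := {i | Good ν (A ν) i q t} ∩ B)
        hU hM hν (hA ν) hνq ht hB inter_subset_right (by
          rintro i ⟨hi, -⟩
          exact (hst' t i).resolve_left fun h => h hi)
      exact no_pair hν hA hCP hcoh (h₀.trans hq) (h₁.trans hq) (h₀.1 hνq) (h₁.1 hνq) hSB
        (Filter.inter_mem hc' hB₀) hdis
    refine hMB ⟨fun i => {t | Good ν (A ν) i q t}, fun t => ?_⟩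
    constructor
    · intro ht
      have h1 := claim tᶜ (by rw [compl_compl]; exact ht)
      filter_upwards [h1, hG] with i hi hi'
      have h2 : Good ν (A ν) i q (t ∪ tᶜ) := hi'.mono le_rfl fun k _ _ => by
        rw [union_compl_self]
        exact mem_univ k
      rcases good_union hν (hA ν) hνq h2 with h3 | h3
      · exact h3.mono le_rfl fun k hk hkt => ⟨hkt, hk⟩
      · exact (hi h3).elim
    · intro ht
      by_contra hc
      have h1 := claim t (Ultrafilter.compl_mem_iff_notMem.2 hc)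
      obtain ⟨i, hi, hi'⟩ := (ht.and h1).exists
      exact hi' ((show Good ν (A ν) i q (t ∩ Iio i) from hi).mono le_rfl fun k _ hk => hk.1)

section Glue

variable {W : Ultrafilter M} {m₀ : M}

theorem cp_ae [Infinite I] (hU : NormMeas U) (hW : NormMeas W) (hI : #I ≤ #(Iio m₀))
    {A : M → I → M → Set (Cond M U)} (hA : ∀ α i ξ, Reg (A α i ξ)) :
    ∀ᶠ ν in (W : Filter M), CP A ν := by
  by_contra hc
  have hc' := Ultrafilter.eventually_not.2 hc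
  obtain ⟨b⟩ : Nonempty (Cond M U) := ⟨⟨∅, fun _ _ _ => False, by
    unfold Small
    rw [Cardinal.mk_eq_zero]
    exact bot_le, fun s hs hne => by
      obtain ⟨a, ha⟩ := hne
      exact (hs ha).elim, ⟨fun _ _ _ h => h.elim, fun _ _ _ _ h => h.elim,
        fun _ _ _ _ h => h.elim, fun a ha => ha.elim⟩⟩⟩
  have hF : ∀ ν, ∃ (g : Cond M U) (α : M) (ξ : I → M), ¬ CP A ν → Below ν g ∧ α < ν ∧
      (∀ i, ξ i < ν) ∧ ∀ g' ≤ g, Below ν g' → ∃ i, g' ∉ A α i (ξ i) ∧ g' ∉ fnot (A α i (ξ i)) := by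
    intro ν
    by_cases h : CP A ν
    · exact ⟨b, ν, fun _ => ν, fun h' => (h' h).elim⟩
    · have h' := h
      unfold CP at h'
      push Not at h'
      obtain ⟨g, h1, α, h2, ξ, h3, h4⟩ := h'
      exact ⟨g, α, ξ, fun _ => ⟨h1, h2, h3, h4⟩⟩
  choose g α ξ hF using hF
  obtain ⟨g₀, hg₀⟩ := press hW hI g (hc'.mono fun ν hν => (hF ν hν).1)
  obtain ⟨α₀, hα₀⟩ := hW.norm α (hc'.mono fun ν hν => (hF ν hν).2.1)
  have hξ : ∀ i, ∃ k, ∀ᶠ ν in (W : Filter M), ξ ν i = k := fun i =>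
    hW.norm (fun ν => ξ ν i) (hc'.mono fun ν hν => (hF ν hν).2.2.1 i)
  choose ξ₀ hξ₀ using hξ
  have hξ₁ := hW.complete' hI (fun i => {ν | ξ ν i = ξ₀ i}) hξ₀
  obtain ⟨g', hg', hdec⟩ := fusion (cond_closed hU (bddHyp hW hI))
    (fun i => {q | q ∈ A α₀ i (ξ₀ i) ∨ q ∈ fnot (A α₀ i (ξ₀ i))})
    (fun i p hp q hq => by
      rcases hp with h | h
      · exact Or.inl ((hA _ _ _).down _ h _ hq)
      · exact Or.inr (fnot_down h hq))
    (fun i p => Reg.decide p) g₀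
  obtain ⟨ν, ⟨⟨⟨h1, h2⟩, h3⟩, h4⟩, h5⟩ := ((((hc'.and hg₀).and hα₀).and hξ₁).and
    (below_ae hW hI g')).exists
  have h6 := (hF ν h1).2.2.2
  rw [h2, h3] at h6
  obtain ⟨i, h7, h8⟩ := h6 g' hg' h5
  have h9 : ξ ν i = ξ₀ i := h4 i
  rw [h9] at h7 h8
  rcases hdec i with h | h
  · exact h7 h
  · exact h8 h

theorem LR.of_restr {ν : M} (hν : Cof I ν) {h p : Cond M U} (hh : h ≤ p.restr hν) : LR ν h p :=
  (LR.of_SB (p.restr_SB hν)).of_le hh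

/-- Every named sequence coherent modulo `U₀` gets a thread. -/
theorem thread [Infinite I] {U₀ : Ultrafilter I} (hU : NormMeas U) (hW : NormMeas W)
    (hI : #I ≤ #(Iio m₀)) (hne : U₀ ≠ U) (hMB : ¬ MBelow U U₀)
    {A : M → I → M → Set (Cond M U)} (hA : ∀ α i ξ, Reg (A α i ξ))
    {p : Cond M U} (hcoh : Coh U₀ A p) :
    ∃ q ≤ p, ∃ F : I → M → Set (Cond M U),
      (∀ i ξ, ∀ g ∈ F i ξ, ∀ g' ≤ g, g' ∈ F i ξ) ∧
      ∀ α, ∀ r ≤ q, ∃ s ≤ r, ∃ X ∈ U₀, ∀ i ∈ X, ∀ ξ < α, ∀ h ≤ s,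
        (h ∈ F i ξ ↔ h ∈ A α i ξ) := by
  classical
  have hM := bddHyp hW hI
  -- choose deciding conditions
  have hP : ∀ ν, ∃ (P : Cond M U) (X : Set I), (Cof I ν ∧ CP A ν) →
      P ≤ p ∧ ν ∈ P.x ∧ X ∈ U₀ ∧ ∀ i ∈ X, DecI ν (A ν i) P := by
    intro ν
    by_cases h : Cof I ν ∧ CP A ν
    · obtain ⟨p', hp', hνp'⟩ := exists_add hU hM p ν
      obtain ⟨q, hq, X, hX, hdec⟩ := decides hU hM hne hMB h.1 hA h.2
        (fun α β hαβ q hq => hcoh α β hαβ q (hq.trans hp')) hνp'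
      exact ⟨q, X, fun _ => ⟨hq.trans hp', hq.1 hνp', hX, hdec⟩⟩
    · exact ⟨p, ∅, fun h' => (h h').elim⟩
  choose P X hPX using hP
  have hae : ∀ᶠ ν in (W : Filter M), Cof I ν ∧ CP A ν :=
    (cof_ae' hW hI).and (cp_ae hU hW hI hA)
  obtain ⟨q, hq⟩ := press hW hI (fun ν => if h : Cof I ν then (P ν).restr h else p) (by
    filter_upwards [hae] with ν hν
    rw [dif_pos hν.1]
    exact (P ν).restr_below hν.1)
  obtain ⟨Xi, hXi⟩ := hW.const_set hI X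
  -- properties for almost all `ν`
  have main : ∀ᶠ ν in (W : Filter M), ∃ h : Cof I ν, (P ν).restr h = q ∧ P ν ≤ p ∧ ν ∈ (P ν).x ∧
      Xi ∈ U₀ ∧ ∀ i ∈ Xi, DecI ν (A ν i) (P ν) := by
    filter_upwards [hae, hq, hXi] with ν h1 h2 h3
    rw [dif_pos h1.1] at h2
    obtain ⟨h4, h5, h6, h7⟩ := hPX ν h1
    rw [h3] at h6 h7
    exact ⟨h1.1, h2, h4, h5, h6, h7⟩
  have hXiU : Xi ∈ U₀ := by
    obtain ⟨ν, -, -, -, -, h, -⟩ := main.exists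
    exact h
  have hqp : q ≤ p := by
    obtain ⟨ν, ⟨h, h1, h2, -⟩, h3⟩ := (main.and (below_ae hW hI p)).exists
    rw [← h1]
    exact (LR.of_SB_left ((P ν).restr_SB h) (LR.of_le_Below h2)).le h3
  refine ⟨q, hqp, fun i ξ => {g | ∀ᶠ ν in (W : Filter M), ∀ g' ≤ g, Below ν g' →
    ∃ r, r ≤ P ν ∧ r ≤ g' ∧ r ∈ A ν i ξ}, ?_, ?_⟩
  · intro i ξ g hg g' hg'
    exact hg.mono fun ν hν g'' hg'' => hν g'' (hg''.trans hg')
  · intro α r hr
    -- decide the coherence below `P ν`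
    have hR : ∀ ν, ∃ (s : Cond M U) (Y : Set I), (∃ h : Cof I ν, (P ν).restr h = q ∧ P ν ≤ p ∧
        ν ∈ (P ν).x ∧ Below ν r ∧ α < ν) → s ≤ P ν ∧ s ≤ r ∧ Y ∈ U₀ ∧ ∀ i ∈ Y, ∀ ξ < α,
          ∀ h ≤ s, (h ∈ A ν i ξ ↔ h ∈ A α i ξ) := by
      intro ν
      by_cases h : ∃ h : Cof I ν, (P ν).restr h = q ∧ P ν ≤ p ∧ ν ∈ (P ν).x ∧ Below ν r ∧ α < ν
      · obtain ⟨h1, h2, h3, h4, h5, h6⟩ := h
        obtain ⟨s, hs, -, hs'⟩ := amalg h1 (P ν) r h4 h5 (LR.of_restr h1 (by rw [h2]; exact hr))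
        obtain ⟨t, ht, Y, hY, hY'⟩ := hcoh α ν h6 s (hs.trans h3)
        exact ⟨t, Y, fun _ => ⟨ht.trans hs, ht.trans hs', hY, hY'⟩⟩
      · exact ⟨p, ∅, fun h' => (h h').elim⟩
    choose R Y hRY using hR
    have main' : ∀ᶠ ν in (W : Filter M), (∃ h : Cof I ν, (P ν).restr h = q ∧ P ν ≤ p ∧
        ν ∈ (P ν).x ∧ Below ν r ∧ α < ν) ∧ ∀ i ∈ Xi, DecI ν (A ν i) (P ν) := by
      filter_upwards [main, below_ae hW hI r, hW.uni α] with ν h1 h2 h3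
      obtain ⟨k1, k2, k3, k4, k5, k6⟩ := h1
      exact ⟨⟨k1, k2, k3, k4, h2, h3⟩, k6⟩
    obtain ⟨s, hs⟩ := press hW hI (fun ν => if h : Cof I ν then (R ν).restr h else p) (by
      filter_upwards [hae] with ν hν
      rw [dif_pos hν.1]
      exact (R ν).restr_below hν.1)
    obtain ⟨Yi, hYi⟩ := hW.const_set hI Y
    have main2 : ∀ᶠ ν in (W : Filter M), ∃ h : Cof I ν, (R ν).restr h = s ∧ ν ∈ (P ν).x ∧
        R ν ≤ P ν ∧ R ν ≤ r ∧ Below ν r ∧ α < ν ∧ (∀ i ∈ Xi, DecI ν (A ν i) (P ν)) ∧ Yi ∈ U₀ ∧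
        ∀ i ∈ Yi, ∀ ξ < α, ∀ h ≤ R ν, (h ∈ A ν i ξ ↔ h ∈ A α i ξ) := by
      filter_upwards [main', hs, hYi] with ν h1 h2 h3
      obtain ⟨k1, k2, k3, k4⟩ := hRY ν h1.1
      obtain ⟨⟨l1, l2, l3, l4, l5, l6⟩, l7⟩ := h1
      rw [dif_pos l1] at h2
      rw [h3] at k3 k4
      exact ⟨l1, h2, l4, k1, k2, l5, l6, l7, k3, k4⟩
    have hYiU : Yi ∈ U₀ := by
      obtain ⟨ν, h⟩ := main2.exists
      exact h.2.2.2.2.2.2.2.2.1
    have hsr : s ≤ r := by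
      obtain ⟨ν, h1, h2, -, -, h3, h4, -⟩ := main2.exists
      rw [← h2]
      exact (LR.of_SB_left ((R ν).restr_SB h1) (LR.of_le_Below h3)).le h4
    refine ⟨s, hsr, Xi ∩ Yi, Filter.inter_mem hXiU hYiU, ?_⟩
    rintro i ⟨hiX, hiY⟩ ξ hξ h hh
    constructor
    · intro hF
      by_contra hnot
      obtain ⟨h', hh', hh''⟩ := (hA α i ξ).of_not hnot
      obtain ⟨ν, ⟨⟨k1, k2, k3, k4, k5, k6, k7, k8, -, k9⟩, k10⟩, k11⟩ :=
        ((main2.and hF).and (below_ae hW hI h')).exists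
      obtain ⟨k, hk, hkSB, hk'⟩ := amalg k1 (R ν) h' (k4.1 k3) k11
        (LR.of_restr k1 (by rw [k2]; exact hh'.trans hh))
      have h12 : k ∈ fnot (A ν i ξ) := by
        intro l hl hl'
        exact fnot_not (fnot_down hh'' (hl.trans hk')) ((k9 i hiY ξ hξ l (hl.trans hk)).1 hl')
      obtain ⟨t, ht, ht', ht''⟩ := k10 h' hh' k11
      refine k8 i hiX t k ht (hk.trans k4) ⟨t.restr k1, t.restr_below k1,
        LR.of_SB (t.restr_SB k1), ?_⟩ ξ (hξ.trans k7) ⟨ht'', h12⟩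
      exact hkSB.symm.LR_iff (LR.of_SB_left (t.restr_SB k1) (LR.of_le_Below ht'))
    · intro hα
      show ∀ᶠ ν in (W : Filter M), ∀ g' ≤ h, Below ν g' → ∃ r, r ≤ P ν ∧ r ≤ g' ∧ r ∈ A ν i ξ
      filter_upwards [main2] with ν hν g' hg' hg''
      obtain ⟨k1, k2, k3, k4, k5, k6, k7, k8, -, k9⟩ := hν
      obtain ⟨k, hk, -, hk'⟩ := amalg k1 (R ν) g' (k4.1 k3) hg''
        (LR.of_restr k1 (by rw [k2]; exact hg'.trans hh))
      exact ⟨k, hk.trans k4, hk', (k9 i hiY ξ hξ k hk).2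
        ((hA α i ξ).down _ hα _ (hk'.trans hg'))⟩

end Glue

end Pool.Agent.W869.FU
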