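import Pool.Agent.W869.FU.Base

/-!
# Systems of tree orders which are coherent modulo an ultrafilter
-/

set_option autoImplicit false
set_option linter.unusedSectionVars false
set_option linter.style.haveILetI false

namespace Pool.Agent.W869.FU

open Set Filter
open Cardinal hiding univ

variable {I M : Type} [LinearOrder I] [LinearOrder M] [WellFoundedLT M]
variable {U : Ultrafilter I}

/-- `T j`, for `j : I`, are tree orders on the set `x` compatible with the order of `M`, and any
two elements of `x` are comparable in `T j` for almost all `j`. -/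
structure Pre (U : Ultrafilter I) (x : Set M) (T : I → M → M → Prop) : Prop where
  dom : ∀ j a b, T j a b → a ∈ x ∧ b ∈ x ∧ a < b
  trans : ∀ j a b c, T j a b → T j b c → T j a c
  tree : ∀ j a b c, T j a c → T j b c → a < b → T j a b
  large : ∀ a ∈ x, ∀ b ∈ x, a < b → ∀ᶠ j in (U : Filter I), T j a b

/-- A system of branches containing each point almost everywhere. -/
structure Branch (U : Ultrafilter I) (x : Set M) (T : I → M → M → Prop) (b : I → Set M) :
    Prop where
  sub : ∀ j, b j ⊆ x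
  down : ∀ j a c, T j a c → c ∈ b j → a ∈ b j
  chain : ∀ j a c, a ∈ b j → c ∈ b j → a < c → T j a c
  large : ∀ a ∈ x, ∀ᶠ j in (U : Filter I), a ∈ b j

/-! ### Inserting points as twins of the next point -/

open Classical in
/-- The least element of `x` which is at least `a`. -/
noncomputable def nxt (x : Set M) (a : M) : M :=
  if h : ({b | b ∈ x ∧ a ≤ b} : Set M).Nonempty then
    WellFounded.min (wellFounded_lt (α := M)) {b | b ∈ x ∧ a ≤ b} h else a

theorem nxt_spec {x : Set M} {a : M} (h : ∃ b ∈ x, a ≤ b) : nxt x a ∈ x ∧ a ≤ nxt x a := by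
  have h' : ({b | b ∈ x ∧ a ≤ b} : Set M).Nonempty := by
    obtain ⟨b, h1, h2⟩ := h
    exact ⟨b, h1, h2⟩
  unfold nxt
  rw [dif_pos h']
  exact WellFounded.min_mem (wellFounded_lt (α := M)) {b | b ∈ x ∧ a ≤ b} h'

theorem nxt_le {x : Set M} {a b : M} (hb : b ∈ x) (h : a ≤ b) : nxt x a ≤ b := by
  have h' : ({b | b ∈ x ∧ a ≤ b} : Set M).Nonempty := ⟨b, hb, h⟩
  unfold nxt
  rw [dif_pos h']
  exact not_lt.1 (WellFounded.not_lt_min (wellFounded_lt (α := M)) {b | b ∈ x ∧ a ≤ b} ⟨hb, h⟩)

theorem nxt_self {x : Set M} {a : M} (h : a ∈ x) : nxt x a = a :=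
  le_antisymm (nxt_le h le_rfl) (nxt_spec ⟨a, h, le_rfl⟩).2

theorem nxt_mono {x : Set M} {a b : M} (h : ∃ c ∈ x, b ≤ c) (hab : a ≤ b) :
    nxt x a ≤ nxt x b :=
  nxt_le (nxt_spec h).1 (hab.trans (nxt_spec h).2)

/-- Points of `x'` outside `x` become twins of the next point of `x`, in the trees with index in
`G`. -/
def pull (x x' : Set M) (T : I → M → M → Prop) (G : M → Set I) (j : I) (a b : M) : Prop :=
  a ∈ x' ∧ b ∈ x' ∧ a < b ∧ (a ∈ x ∨ j ∈ G a) ∧ (b ∈ x ∨ j ∈ G b) ∧
    (nxt x a = nxt x b ∨ T j (nxt x a) (nxt x b))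

theorem Pre.pull {x x' : Set M} {T : I → M → M → Prop} {G : M → Set I} (h : Pre U x T)
    (hb : ∀ a ∈ x', ∃ b ∈ x, a ≤ b) (hG : ∀ a, G a ∈ U) :
    Pre U x' (pull x x' T G) := by
  refine ⟨fun j a b hab => ⟨hab.1, hab.2.1, hab.2.2.1⟩, ?_, ?_, ?_⟩
  · rintro j a b c ⟨h1, h2, h3, h4, h5, h6⟩ ⟨h1', h2', h3', h4', h5', h6'⟩
    refine ⟨h1, h2', h3.trans h3', h4, h5', ?_⟩
    rcases h6 with h6 | h6
    · rw [h6]; exact h6'
    · rcases h6' with h6' | h6'
      · rw [← h6']; exact Or.inr h6
      · exact Or.inr (h.trans _ _ _ _ h6 h6')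
  · rintro j a b c ⟨h1, h2, h3, h4, h5, h6⟩ ⟨h1', h2', h3', h4', h5', h6'⟩ hab
    refine ⟨h1, h1', hab, h4, h4', ?_⟩
    have hle : nxt x a ≤ nxt x b := nxt_mono (hb b h1') hab.le
    rcases hle.eq_or_lt with heq | hlt
    · exact Or.inl heq
    · right
      rcases h6' with h6' | h6'
      · rcases h6 with h6 | h6
        · rw [h6, ← h6'] at hlt
          exact (lt_irrefl _ hlt).elim
        · rw [h6']; exact h6
      · rcases h6 with h6 | h6
        · have := (h.dom _ _ _ h6').2.2
          rw [← h6] at this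
          exact (lt_asymm this hlt).elim
        · exact h.tree _ _ _ _ h6 h6' hlt
  · intro a ha b hb' hab
    have h1 := (nxt_spec (hb a ha)).1
    have h2 := (nxt_spec (hb b hb')).1
    have hle : nxt x a ≤ nxt x b := nxt_mono (hb b hb') hab.le
    rcases hle.eq_or_lt with heq | hlt
    · filter_upwards [hG a, hG b] with j hj hj'
      exact ⟨ha, hb', hab, Or.inr hj, Or.inr hj', Or.inl heq⟩
    · filter_upwards [hG a, hG b, h.large _ h1 _ h2 hlt] with j hj hj' hj''
      exact ⟨ha, hb', hab, Or.inr hj, Or.inr hj', Or.inr hj''⟩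

theorem pull_iff {x x' : Set M} {T : I → M → M → Prop} {G : M → Set I} (h : Pre U x T)
    (hx : x ⊆ x') {j : I} {a b : M} (ha : a ∈ x) (hb : b ∈ x) :
    pull x x' T G j a b ↔ T j a b := by
  unfold FU.pull
  rw [nxt_self ha, nxt_self hb]
  constructor
  · rintro ⟨-, -, h3, -, -, h6⟩
    rcases h6 with h6 | h6
    · exact (h3.ne h6).elim
    · exact h6
  · intro h'
    exact ⟨hx ha, hx hb, (h.dom _ _ _ h').2.2, Or.inl ha, Or.inl hb, Or.inr h'⟩

/-! ### Adding a top point -/

/-- Add the point `t` on top of the branches `b j`. -/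
def topp (T : I → M → M → Prop) (t : M) (b : I → Set M) (j : I) (a c : M) : Prop :=
  T j a c ∨ (c = t ∧ a ∈ b j)

theorem Pre.topp {x : Set M} {T : I → M → M → Prop} {b : I → Set M} {t : M}
    (h : Pre U x T) (hb : Branch U x T b) (ht : ∀ a ∈ x, a < t) :
    Pre U (insert t x) (topp T t b) := by
  have hnot : ∀ j c, ¬ T j t c := fun j c h' => by
    obtain ⟨h1, -, -⟩ := h.dom _ _ _ h'
    exact lt_irrefl _ (ht t h1)
  have hnot' : ∀ j c, ¬ T j c t := fun j c h' => by
    obtain ⟨-, h1, -⟩ := h.dom _ _ _ h'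
    exact lt_irrefl _ (ht t h1)
  refine ⟨?_, ?_, ?_, ?_⟩
  · rintro j a c (h' | ⟨rfl, h'⟩)
    · obtain ⟨h1, h2, h3⟩ := h.dom _ _ _ h'
      exact ⟨Or.inr h1, Or.inr h2, h3⟩
    · exact ⟨Or.inr (hb.sub j h'), Or.inl rfl, ht a (hb.sub j h')⟩
  · rintro j a c d (h' | ⟨rfl, h'⟩) (h'' | ⟨rfl, h''⟩)
    · exact Or.inl (h.trans _ _ _ _ h' h'')
    · exact Or.inr ⟨rfl, hb.down _ _ _ h' h''⟩
    · exact (hnot _ _ h'').elim
    · exact (lt_irrefl _ (ht _ (hb.sub j h''))).elim
  · rintro j a c d (h' | ⟨rfl, h'⟩) (h'' | ⟨h0, h''⟩) hac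
    · exact Or.inl (h.tree _ _ _ _ h' h'' hac)
    · rw [h0] at h'
      exact (hnot' _ _ h').elim
    · exact (hnot' _ _ h'').elim
    · exact Or.inl (hb.chain _ _ _ h' h'' hac)
  · rintro a (rfl | ha) c (rfl | hc) hac
    · exact (lt_irrefl _ hac).elim
    · exact (lt_asymm hac (ht c hc)).elim
    · filter_upwards [hb.large a ha] with j hj
      exact Or.inr ⟨rfl, hj⟩
    · filter_upwards [h.large a ha c hc hac] with j hj
      exact Or.inl hj

theorem topp_iff {x : Set M} {T : I → M → M → Prop} {b : I → Set M} {t : M}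
    (ht : ∀ a ∈ x, a < t) {j : I} {a c : M} (hc : c ∈ x) :
    topp T t b j a c ↔ T j a c := by
  constructor
  · rintro (h' | ⟨rfl, h'⟩)
    · exact h'
    · exact (lt_irrefl _ (ht _ hc)).elim
  · exact Or.inl

/-! ### Attaching a system to a larger system below `ν` -/

/-- The system on `xg ∪ xp`, where the predecessors of `ν` below `ν` are given by `b`. -/
def att (Tp Tg : I → M → M → Prop) (ν : M) (b : I → Set M) (j : I) (a c : M) : Prop :=
  (c < ν ∧ Tg j a c) ∨ (ν ≤ a ∧ Tp j a c) ∨
    (a < ν ∧ ν ≤ c ∧ (((c = ν ∨ Tp j ν c) ∧ a ∈ b j) ∨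
      (¬ (c = ν ∨ Tp j ν c) ∧ ∃ e, e < ν ∧ Tp j e c ∧ (a = e ∨ Tg j a e))))

/-- The assumptions for attaching. -/
structure AttHyp (U : Ultrafilter I) (xp xg : Set M) (Tp Tg : I → M → M → Prop) (ν : M)
    (b : I → Set M) : Prop where
  hp : Pre U xp Tp
  hg : Pre U xg Tg
  hν : ν ∈ xp
  hlt : ∀ a ∈ xg, a < ν
  hsub : ∀ a ∈ xp, a < ν → a ∈ xg
  hag : ∀ j, ∀ a ∈ xp, ∀ c ∈ xp, a < ν → c < ν → (Tp j a c ↔ Tg j a c)
  hb : Branch U xg Tg b
  hbν : ∀ j, ∀ a ∈ xp, a < ν → (a ∈ b j ↔ Tp j a ν)

section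

variable {xp xg : Set M} {Tp Tg : I → M → M → Prop} {ν : M} {b : I → Set M}

theorem att_lt (H : AttHyp U xp xg Tp Tg ν b) {j : I} {a c : M} (hc : c < ν) :
    att Tp Tg ν b j a c ↔ Tg j a c := by
  constructor
  · rintro (⟨-, h⟩ | ⟨h1, h2⟩ | ⟨-, h, -⟩)
    · exact h
    · exact ((h1.trans_lt (H.hp.dom _ _ _ h2).2.2).not_gt hc).elim
    · exact (h.not_gt hc).elim
  · exact fun h => Or.inl ⟨hc, h⟩

theorem att_ge (H : AttHyp U xp xg Tp Tg ν b) {j : I} {a c : M} (ha : ν ≤ a) :
    att Tp Tg ν b j a c ↔ Tp j a c := by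
  constructor
  · rintro (⟨h1, h⟩ | ⟨h1, h2⟩ | ⟨h, -, -⟩)
    · exact (ha.not_gt (H.hlt a (H.hg.dom _ _ _ h).1)).elim
    · exact h2
    · exact (ha.not_gt h).elim
  · exact fun h => Or.inr (Or.inl ⟨ha, h⟩)

theorem att_mid (H : AttHyp U xp xg Tp Tg ν b) {j : I} {a c : M} (ha : a < ν) (hc : ν ≤ c) :
    att Tp Tg ν b j a c ↔ (((c = ν ∨ Tp j ν c) ∧ a ∈ b j) ∨
      (¬ (c = ν ∨ Tp j ν c) ∧ ∃ e, e < ν ∧ Tp j e c ∧ (a = e ∨ Tg j a e))) := by
  constructor
  · rintro (⟨h1, h⟩ | ⟨h1, h2⟩ | ⟨-, -, h⟩)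
    · exact (hc.not_gt h1).elim
    · exact (h1.not_gt ha).elim
    · exact h
  · exact fun h => Or.inr (Or.inr ⟨ha, hc, h⟩)

theorem att_nu (H : AttHyp U xp xg Tp Tg ν b) {j : I} {a : M} :
    att Tp Tg ν b j a ν ↔ a ∈ b j := by
  constructor
  · rintro (⟨h1, -⟩ | ⟨h1, h2⟩ | ⟨-, -, (⟨-, h⟩ | ⟨h, -⟩)⟩)
    · exact (lt_irrefl _ h1).elim
    · exact (h1.not_gt (H.hp.dom _ _ _ h2).2.2).elim
    · exact h
    · exact (h (Or.inl rfl)).elim
  · intro h
    exact Or.inr (Or.inr ⟨H.hlt a (H.hb.sub j h), le_rfl, Or.inl ⟨Or.inl rfl, h⟩⟩)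

theorem att_xp (H : AttHyp U xp xg Tp Tg ν b) {j : I} {a c : M} (ha : a ∈ xp) (hc : c ∈ xp) :
    att Tp Tg ν b j a c ↔ Tp j a c := by
  rcases lt_or_ge c ν with hcν | hcν
  · rw [att_lt H hcν]
    rcases lt_or_ge a ν with haν | haν
    · exact (H.hag j a ha c hc haν hcν).symm
    · constructor
      · intro h
        exact (haν.not_gt (H.hlt a (H.hg.dom _ _ _ h).1)).elim
      · intro h
        exact ((haν.trans_lt (H.hp.dom _ _ _ h).2.2).not_gt hcν).elim
  · rcases lt_or_ge a ν with haν | haν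
    · rw [att_mid H haν hcν]
      constructor
      · rintro (⟨h1, h2⟩ | ⟨h1, e, h2, h3, h4⟩)
        · have h5 := (H.hbν j a ha haν).1 h2
          rcases h1 with rfl | h1
          · exact h5
          · exact H.hp.trans _ _ _ _ h5 h1
        · rcases h4 with rfl | h4
          · exact h3
          · exact H.hp.trans _ _ _ _
              ((H.hag j a ha e (H.hp.dom _ _ _ h3).1 haν h2).2 h4) h3
      · intro h
        by_cases h1 : c = ν ∨ Tp j ν c
        · left
          refine ⟨h1, (H.hbν j a ha haν).2 ?_⟩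
          rcases h1 with rfl | h1
          · exact h
          · exact H.hp.tree _ _ _ _ h h1 haν
        · right
          exact ⟨h1, a, haν, h, Or.inl rfl⟩
    · exact att_ge H haν

theorem att_xg (H : AttHyp U xp xg Tp Tg ν b) {j : I} {a c : M} (hc : c ∈ xg) :
    att Tp Tg ν b j a c ↔ Tg j a c := att_lt H (H.hlt c hc)

theorem AttHyp.pre (H : AttHyp U xp xg Tp Tg ν b) :
    Pre U (xg ∪ xp) (att Tp Tg ν b) := by
  refine ⟨?_, ?_, ?_, ?_⟩
  · rintro j a c (⟨-, h⟩ | ⟨h1, h⟩ | ⟨h1, h2, (⟨h3, h4⟩ | ⟨-, e, h4, h5, h6⟩)⟩)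
    · obtain ⟨h1, h2, h3⟩ := H.hg.dom _ _ _ h
      exact ⟨Or.inl h1, Or.inl h2, h3⟩
    · obtain ⟨h1, h2, h3⟩ := H.hp.dom _ _ _ h
      exact ⟨Or.inr h1, Or.inr h2, h3⟩
    · refine ⟨Or.inl (H.hb.sub j h4), Or.inr ?_, h1.trans_le h2⟩
      rcases h3 with rfl | h3
      · exact H.hν
      · exact (H.hp.dom _ _ _ h3).2.1
    · refine ⟨Or.inl ?_, Or.inr (H.hp.dom _ _ _ h5).2.1, h1.trans_le h2⟩
      rcases h6 with rfl | h6
      · exact H.hsub _ (H.hp.dom _ _ _ h5).1 h4
      · exact (H.hg.dom _ _ _ h6).1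
  · intro j a c d hac hcd
    rcases lt_or_ge c ν with hcν | hcν
    · rw [att_lt H hcν] at hac
      have haν : a < ν := H.hlt a (H.hg.dom _ _ _ hac).1
      rcases lt_or_ge d ν with hdν | hdν
      · rw [att_lt H hdν] at hcd ⊢
        exact H.hg.trans _ _ _ _ hac hcd
      · rw [att_mid H hcν hdν] at hcd
        rw [att_mid H haν hdν]
        rcases hcd with ⟨h1, h2⟩ | ⟨h1, e, h2, h3, h4⟩
        · exact Or.inl ⟨h1, H.hb.down _ _ _ hac h2⟩
        · refine Or.inr ⟨h1, e, h2, h3, Or.inr ?_⟩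
          rcases h4 with rfl | h4
          · exact hac
          · exact H.hg.trans _ _ _ _ hac h4
    · rw [att_ge H hcν] at hcd
      have hcd' := (H.hp.dom _ _ _ hcd).2.2
      rcases lt_or_ge a ν with haν | haν
      · rw [att_mid H haν hcν] at hac
        rw [att_mid H haν (hcν.trans hcd'.le)]
        rcases hac with ⟨h1, h2⟩ | ⟨h1, e, h2, h3, h4⟩
        · left
          refine ⟨Or.inr ?_, h2⟩
          rcases h1 with rfl | h1
          · exact hcd
          · exact H.hp.trans _ _ _ _ h1 hcd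
        · right
          refine ⟨?_, e, h2, H.hp.trans _ _ _ _ h3 hcd, h4⟩
          rintro (rfl | h5)
          · exact hcν.not_gt hcd'
          · apply h1
            rcases hcν.eq_or_lt with h6 | h6
            · exact Or.inl h6.symm
            · exact Or.inr (H.hp.tree _ _ _ _ h5 hcd h6)
      · rw [att_ge H haν] at hac ⊢
        exact H.hp.trans _ _ _ _ hac hcd
  · intro j a c d had hcd hac
    rcases lt_or_ge d ν with hdν | hdν
    · rw [att_lt H hdν] at had hcd
      have hcν : c < ν := H.hlt c (H.hg.dom _ _ _ hcd).1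
      rw [att_lt H hcν]
      exact H.hg.tree _ _ _ _ had hcd hac
    · rcases lt_or_ge c ν with hcν | hcν
      · have haν : a < ν := hac.trans hcν
        rw [att_mid H haν hdν] at had
        rw [att_mid H hcν hdν] at hcd
        rw [att_lt H hcν]
        rcases had with ⟨h1, h2⟩ | ⟨h1, e, h2, h3, h4⟩
        · rcases hcd with ⟨-, h2'⟩ | ⟨h1', -⟩
          · exact H.hb.chain _ _ _ h2 h2' hac
          · exact (h1' h1).elim
        · rcases hcd with ⟨h1', -⟩ | ⟨-, e', h2', h3', h4'⟩
          · exact (h1 h1').elim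
          · -- find a common upper bound
            have key : ∃ m, (a = m ∨ Tg j a m) ∧ (c = m ∨ Tg j c m) := by
              rcases lt_trichotomy e e' with h5 | h5 | h5
              · have h6 : Tg j e e' := (H.hag j e (H.hp.dom _ _ _ h3).1 e'
                  (H.hp.dom _ _ _ h3').1 h2 h2').1 (H.hp.tree _ _ _ _ h3 h3' h5)
                refine ⟨e', ?_, h4'⟩
                rcases h4 with rfl | h4
                · exact Or.inr h6
                · exact Or.inr (H.hg.trans _ _ _ _ h4 h6)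
              · subst h5
                exact ⟨e, h4, h4'⟩
              · have h6 : Tg j e' e := (H.hag j e' (H.hp.dom _ _ _ h3').1 e
                  (H.hp.dom _ _ _ h3).1 h2' h2).1 (H.hp.tree _ _ _ _ h3' h3 h5)
                refine ⟨e, h4, ?_⟩
                rcases h4' with rfl | h4'
                · exact Or.inr h6
                · exact Or.inr (H.hg.trans _ _ _ _ h4' h6)
            obtain ⟨m, h5, h6⟩ := key
            rcases h6 with rfl | h6
            · rcases h5 with rfl | h5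
              · exact (lt_irrefl _ hac).elim
              · exact h5
            · rcases h5 with rfl | h5
              · exact (lt_asymm hac (H.hg.dom _ _ _ h6).2.2).elim
              · exact H.hg.tree _ _ _ _ h5 h6 hac
      · rw [att_ge H hcν] at hcd
        have hcd' := (H.hp.dom _ _ _ hcd).2.2
        rcases lt_or_ge a ν with haν | haν
        · rw [att_mid H haν hdν] at had
          rw [att_mid H haν hcν]
          rcases had with ⟨h1, h2⟩ | ⟨h1, e, h2, h3, h4⟩
          · left
            refine ⟨?_, h2⟩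
            rcases h1 with rfl | h1
            · exact (hcν.not_gt hcd').elim
            · rcases hcν.eq_or_lt with h6 | h6
              · exact Or.inl h6.symm
              · exact Or.inr (H.hp.tree _ _ _ _ h1 hcd h6)
          · right
            refine ⟨?_, e, h2, H.hp.tree _ _ _ _ h3 hcd (h2.trans_le hcν), h4⟩
            intro h5
            apply h1
            rcases h5 with rfl | h5
            · exact Or.inr hcd
            · exact Or.inr (H.hp.trans _ _ _ _ h5 hcd)
        · rw [att_ge H haν] at had ⊢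
          exact H.hp.tree _ _ _ _ had hcd hac
  · intro a ha c hc hac
    rcases lt_or_ge c ν with hcν | hcν
    · have ha' : a ∈ xg := by
        rcases ha with ha | ha
        · exact ha
        · exact H.hsub a ha (hac.trans hcν)
      have hc' : c ∈ xg := by
        rcases hc with hc | hc
        · exact hc
        · exact H.hsub c hc hcν
      filter_upwards [H.hg.large a ha' c hc' hac] with j hj
      rw [att_lt H hcν]
      exact hj
    · have hc' : c ∈ xp := by
        rcases hc with hc | hc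
        · exact (hcν.not_gt (H.hlt c hc)).elim
        · exact hc
      rcases lt_or_ge a ν with haν | haν
      · have ha' : a ∈ xg := by
          rcases ha with ha | ha
          · exact ha
          · exact H.hsub a ha haν
        rcases hcν.eq_or_lt with h6 | h6
        · subst h6
          filter_upwards [H.hb.large a ha'] with j hj
          rw [att_nu H]
          exact hj
        · filter_upwards [H.hb.large a ha', H.hp.large ν H.hν c hc' h6] with j hj hj'
          rw [att_mid H haν hcν]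
          exact Or.inl ⟨Or.inr hj', hj⟩
      · have ha' : a ∈ xp := by
          rcases ha with ha | ha
          · exact (haν.not_gt (H.hlt a ha)).elim
          · exact ha
        filter_upwards [H.hp.large a ha' c hc' hac] with j hj
        rw [att_ge H haν]
        exact hj

end

end Pool.Agent.W869.FU
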